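import Pool.Agent.Run7.h371.FJ.Lc

/-!
# The fibred form of the closure property for acylindrical actions
-/

set_option autoImplicit false

namespace Run7.h371.FJ

open SimpleGraph
open Pool.Agent.N509.TK
open Pool.Agent.Y110.FJ
open Pool.Agent.N509.TX (AcylF C_edge C_stab)
open Pool.Agent.R941.FJ (C_equiv C_le C_cyc mem_sup_normal)

/-- the fibred form of the closure property for acylindrical actions: `G` acts without inversions on a
tree through a surjection `π` onto a finitely generated group `Q`; the elements of `Q` which fix a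
path of length at least `k` pointwise are at most `n` in number; the stabilizers of the vertices in
`G` and the preimages in `G` of the cyclic subgroups of `Q` are in `C`. Then `G` is in `C`. -/
def AcylR (C : ∀ (G : Type) [Group G], Prop) : Prop :=
  ∀ (G Q V : Type) [Group G] [Group Q] [MulAction G V] (T : SimpleGraph V) (π : G →* Q),
    Function.Surjective π → Group.FG Q → T.IsTree →
    (∀ (g : G) (u v : V), T.Adj u v → T.Adj (g • u) (g • v)) →
    (∀ (g : G) (u v : V), T.Adj u v → ¬ (g • u = v ∧ g • v = u)) →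
    (∀ g : G, π g = 1 → ∀ v : V, g • v = v) →
    (∃ k n : ℕ, ∀ (u v : V) (p : T.Walk u v), p.IsPath → k ≤ p.length →
      ∀ F : Finset Q, (∀ q ∈ F, ∃ g, π g = q ∧ ∀ x ∈ p.support, g • x = x) → F.card ≤ n) →
    (∀ v : V, C ↥(MulAction.stabilizer G v)) →
    (∀ q : Q, C ↥((Subgroup.zpowers q).comap π)) → C G

variable {C : ∀ (G : Type) [Group G], Prop}

theorem AcylR.acylF (hC : ClosedE C) (hA : AcylR C) : AcylF C := by
  intro G V _ _ T hfg hT hact hinv hac hV
  refine hA G G V T (MonoidHom.id G) Function.surjective_id hfg hT hact hinv ?_ ?_ hV ?_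
  · intro g hg v
    have h1 : g = 1 := hg
    rw [h1, one_smul]
  · obtain ⟨k, n, h⟩ := hac
    refine ⟨k, n, fun u v p hp hk F hF => h u v p hp hk F fun g hg => ?_⟩
    obtain ⟨g', h1, h2⟩ := hF g hg
    have h3 : g' = g := h1
    rwa [← h3]
  · intro q
    exact C_cyc hC.base q

section act

variable {G Q V : Type} [Group G] [Group Q] [MulAction G V] {T : SimpleGraph V}
  {r : V → V → V → Prop}

/-- the case of finitely generated groups -/
theorem cylR_fg (hA : AcylR C) (hC : ClosedE C) (π : G →* Q) (hπ : Function.Surjective π) (hfg : Group.FG Q)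
    (hT : T.IsTree)
    (hact : ∀ (g : G) (u v : V), T.Adj u v → T.Adj (g • u) (g • v)) (hr : LR G T r) (n : ℕ)
    (htr : ∀ g : G, π g = 1 → ∀ v : V, g • v = v)
    (hint : ∀ w a b, T.Adj w a → T.Adj w b → ¬ r w a b →
      ∀ F : Finset Q, (∀ q ∈ F, ∃ g, π g = q ∧ g • w = w ∧ g • a = a ∧ g • b = b) → F.card ≤ n)
    (hV : ∀ v : V, C ↥(MulAction.stabilizer G v))
    (hY : ∀ (y : Cyl T r) (K : Subgroup G), (∀ g ∈ K, Pres hact y g) → C K)
    (hcyc : ∀ q : Q, C ↥((Subgroup.zpowers q).comap π)) : C G := by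
  let _ := cyAct hact hr
  have hcy : ∀ (g : G) {v a : V} (h : T.Adj v a), g • (cy r h) = cy r (hact g v a h) :=
    fun g {v a} h => rfl
  refine hA G Q (V ⊕ Cyl T r) (BB T r) π hπ hfg (BB_tree hT hr) ?_ ?_ ?_ ⟨5, n, ?_⟩ ?_ hcyc
  · intro g x x' h
    have hmem : ∀ (v : V) (y : Cyl T r), Mem y v → Mem (g • y) (g • v) := by
      rintro v _ ⟨a, ha, rfl⟩
      exact ⟨g • a, hact g v a ha, (hcy g ha).symm⟩
    rcases BB_cases h with ⟨v, y, rfl, rfl, h1⟩ | ⟨v, y, rfl, rfl, h1⟩
    · exact Or.inl ⟨g • v, g • y, rfl, rfl, hmem v y h1⟩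
    · exact Or.inr ⟨g • v, g • y, rfl, rfl, hmem v y h1⟩
  · rintro g x x' h ⟨h1, _⟩
    rcases BB_cases h with ⟨v, y, rfl, rfl, _⟩ | ⟨v, y, rfl, rfl, _⟩
    · exact absurd h1 (by simp)
    · exact absurd h1 (by simp)
  · intro g hg x
    rcases x with v | y
    · exact congrArg Sum.inl (htr g hg v)
    · obtain ⟨⟨⟨v, a⟩, h⟩, rfl⟩ := Quotient.exists_rep y
      refine congrArg Sum.inr ?_
      have h : T.Adj v a := h
      show cy r (hact g v a h) = cy r h
      exact cy_congr _ _ (htr g hg v) (htr g hg a)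
  · -- acylindricity
    have key : ∀ (v0 v1 v2 : V) (y0 y1 : Cyl T r) (F : Finset Q), v0 ≠ v1 → v1 ≠ v2 → y0 ≠ y1 →
        Mem y0 v0 → Mem y0 v1 → Mem y1 v1 → Mem y1 v2 →
        (∀ q ∈ F, ∃ g, π g = q ∧ g • v0 = v0 ∧ g • v1 = v1 ∧ g • v2 = v2) → F.card ≤ n := by
      intro v0 v1 v2 y0 y1 F h01 h12 hy m00 m01 m11 m12 hF
      obtain ⟨s, hs⟩ := St_exists hT h01.symm
      obtain ⟨t, ht⟩ := St_exists hT h12
      have hs1 := f1 hT hr m01 m00 hs
      have ht1 := f1 hT hr m11 m12 ht
      refine hint v1 s t hs.1 ht.1 (fun h => hy ?_) F fun q hq => ?_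
      · rw [← hs1, ← ht1]
        exact cy_rel hs.1 ht.1 h
      · obtain ⟨g, hgq, hg0, hg1, hg2⟩ := hF q hq
        have hgs : g • s = s := by
          have := St_smul hact g hs
          rw [hg0, hg1] at this
          exact St_unique hT.isAcyclic this hs
        have hgt : g • t = t := by
          have := St_smul hact g ht
          rw [hg1, hg2] at this
          exact St_unique hT.isAcyclic this ht
        exact ⟨g, hgq, hg1, hgs, hgt⟩
    have four : ∀ (x0 x1 x2 x3 x4 : V ⊕ Cyl T r) (F : Finset Q) (v0 : V), x0 = Sum.inl v0 →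
        (BB T r).Adj x0 x1 → (BB T r).Adj x1 x2 → (BB T r).Adj x2 x3 → (BB T r).Adj x3 x4 →
        x0 ≠ x2 → x1 ≠ x3 → x2 ≠ x4 →
        (∀ q ∈ F, ∃ g, π g = q ∧ g • x0 = x0 ∧ g • x2 = x2 ∧ g • x4 = x4) → F.card ≤ n := by
      rintro x0 x1 x2 x3 x4 F v0 rfl h01 h12 h23 h34 n02 n13 n24 hF
      rcases BB_cases h01 with ⟨_, y0, h, rfl, m00⟩ | ⟨_, _, _, h, _⟩
      swap
      · exact absurd h (by simp)
      cases h
      rcases BB_cases h12 with ⟨_, _, h, _, _⟩ | ⟨v1, _, rfl, h, m01⟩
      · exact absurd h (by simp)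
      cases h
      rcases BB_cases h23 with ⟨_, y1, h, rfl, m11⟩ | ⟨_, _, _, h, _⟩
      swap
      · exact absurd h (by simp)
      cases h
      rcases BB_cases h34 with ⟨_, _, h, _, _⟩ | ⟨v2, _, rfl, h, m12⟩
      · exact absurd h (by simp)
      cases h
      refine key v0 v1 v2 y0 y1 F ?_ ?_ ?_ m00 m01 m11 m12 fun q hq => ?_
      · rintro rfl
        exact n02 rfl
      · rintro rfl
        exact n24 rfl
      · rintro rfl
        exact n13 rfl
      · obtain ⟨g, hgq, g0, g2, g4⟩ := hF q hq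
        exact ⟨g, hgq, Sum.inl_injective g0, Sum.inl_injective g2, Sum.inl_injective g4⟩
    intro x x' p hp hlen F hF
    -- the first vertices of the path
    cases p with
    | nil => exact absurd hlen (by simp)
    | @cons _ x1 _ h01 p =>
    cases p with
    | nil => exact absurd hlen (by simp)
    | @cons _ x2 _ h12 p =>
    cases p with
    | nil => exact absurd hlen (by simp)
    | @cons _ x3 _ h23 p =>
    cases p with
    | nil => exact absurd hlen (by simp)
    | @cons _ x4 _ h34 p =>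
    cases p with
    | nil => exact absurd hlen (by simp)
    | @cons _ x5 _ h45 p =>
    have hnd := hp.support_nodup
    simp only [Walk.support_cons, List.nodup_cons, List.mem_cons, not_or] at hnd
    obtain ⟨⟨n01, n02, n03, n04, n0⟩, ⟨n12, n13, n14, n1⟩, ⟨n23, n24, n2⟩, ⟨n34, n3⟩, n4, _⟩ := hnd
    have n35 : x3 ≠ x5 := fun h => n3 (h ▸ Walk.start_mem_support p)
    have hg' : ∀ q ∈ F, ∃ g, π g = q ∧
        ∀ z, z = x ∨ z = x1 ∨ z = x2 ∨ z = x3 ∨ z = x4 ∨ z ∈ p.support → g • z = z := by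
      intro q hq
      obtain ⟨g, hgq, hg⟩ := hF q hq
      refine ⟨g, hgq, fun z hz => ?_⟩
      apply hg
      simpa only [Walk.support_cons, List.mem_cons] using hz
    rcases BB_cases h01 with ⟨v0, _, h, _, _⟩ | ⟨v1, _, h, _, _⟩
    · refine four x x1 x2 x3 x4 F v0 h h01 h12 h23 h34 n02 n13 n24 fun q hq => ?_
      obtain ⟨g, hgq, hg⟩ := hg' q hq
      exact ⟨g, hgq, hg _ (by simp), hg _ (by simp), hg _ (by simp)⟩
    · refine four x1 x2 x3 x4 x5 F v1 h h12 h23 h34 h45 n13 n24 n35 fun q hq => ?_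
      obtain ⟨g, hgq, hg⟩ := hg' q hq
      refine ⟨g, hgq, hg _ (by simp), hg _ (by simp), hg _ ?_⟩
      simp
  · rintro (v | y)
    · refine C_le hC.base (H := MulAction.stabilizer G (Sum.inl v : V ⊕ Cyl T r))
        (K := MulAction.stabilizer G v) ?_ (hV v)
      intro g hg
      exact Sum.inl_injective hg
    · refine hY y _ ?_
      intro g hg v a h hya
      have h1 : g • y = y := Sum.inr_injective hg
      rw [← hcy g h, hya, h1]

/-- groups acting on trees through a quotient in which the stabilizers of the edges are bounded -/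
theorem finedgeR (hA : AcylR C) (hC : ClosedE C) (π : G →* Q) (hπ : Function.Surjective π)
    (hfg : Group.FG Q) (hT : T.IsTree)
    (hact : ∀ (g : G) (u v : V), T.Adj u v → T.Adj (g • u) (g • v)) (n : ℕ)
    (htr : ∀ g : G, π g = 1 → ∀ v : V, g • v = v)
    (hE : ∀ u v, T.Adj u v → ∀ F : Finset Q,
      (∀ q ∈ F, ∃ g, π g = q ∧ g • u = u ∧ g • v = v) → F.card ≤ n)
    (hV : ∀ v : V, C ↥(MulAction.stabilizer G v))
    (hcyc : ∀ q : Q, C ↥((Subgroup.zpowers q).comap π)) : C G := by
  have hr : LR G T (fun _ a b => a = b) :=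
    ⟨fun _ _ _ => rfl, fun _ _ _ _ _ h => h.symm, fun _ _ _ _ _ _ _ h h' => h.trans h',
      fun g _ _ _ h => by rw [h]⟩
  refine cylR_fg hA hC π hπ hfg hT hact hr n htr ?_ hV ?_ hcyc
  · intro w a b ha hb _ F hF
    refine hE w a ha F fun q hq => ?_
    obtain ⟨g, hgq, h1, h2, _⟩ := hF q hq
    exact ⟨g, hgq, h1, h2⟩
  · intro y K hK
    obtain ⟨⟨⟨v0, a0⟩, h0⟩, hy⟩ := Quotient.exists_rep y
    have h0 : T.Adj v0 a0 := h0
    have hy : cy (fun _ a b => a = b) h0 = y := hy
    have hgen : ∀ p q : Dt T, Relation.EqvGen (lk T fun _ a b => a = b) p q →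
        p.1 = q.1 ∨ p.1 = q.1.swap := by
      intro p q h
      induction h with
      | rel p q h =>
        rcases h with h | ⟨h1, h2⟩
        · right
          rw [h, Prod.swap_swap]
        · left
          exact Prod.ext h1 h2
      | refl x => exact Or.inl rfl
      | symm p q _ ih =>
        rcases ih with h | h
        · exact Or.inl h.symm
        · right
          rw [h, Prod.swap_swap]
      | trans p q s _ _ ih1 ih2 =>
        rcases ih1 with h | h <;> rcases ih2 with h' | h'
        · exact Or.inl (h.trans h')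
        · exact Or.inr (h.trans h')
        · right
          rw [h, h']
        · left
          rw [h, h', Prod.swap_swap]
    refine C_edge hC v0 a0 (hV v0) K fun g hg => ?_
    have h1 := hK g hg v0 a0 h0 hy
    rcases hgen (dt (hact g v0 a0 h0)) (dt h0) (Quotient.exact (h1.trans hy.symm)) with h | h
    · exact Or.inl ⟨congrArg Prod.fst h, congrArg Prod.snd h⟩
    · exact Or.inr ⟨congrArg Prod.fst h, congrArg Prod.snd h⟩

end act

end Run7.h371.FJ
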