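import Pool.Agent.Run7.h371.FJ.Rk

/-!
# Families of abelian groups of rank one
-/

set_option autoImplicit false

namespace Run7.h371.FJ

open SimpleGraph
open scoped commutatorElement
open Pool.Agent.N509.TK
open Pool.Agent.Y110.FJ
open Pool.Agent.N509.TX (AcylF C_edge C_stab of_fg of_fg_mem)
open Pool.Agent.R941.FJ (C_equiv C_le C_cyc mem_sup_normal)

variable {C : ∀ (G : Type) [Group G], Prop}
variable {G V : Type} {T : SimpleGraph V} [Group G] [MulAction G V] {R : V → Subgroup G}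

/-- the elements of `N` of finite order modulo the commutator subgroup of `N` -/
def rc {G : Type} [Group G] (N : Subgroup G) : Subgroup G where
  carrier := {x | x ∈ N ∧ ∃ m : ℕ, m ≠ 0 ∧ x ^ m ∈ ⁅N, N⁆}
  one_mem' := ⟨one_mem _, 1, one_ne_zero, by rw [one_pow]; exact one_mem _⟩
  mul_mem' := by
    rintro x y ⟨hx, m, hm, hx'⟩ ⟨hy, n, hn, hy'⟩
    refine ⟨mul_mem hx hy, m * n, mul_ne_zero hm hn, ?_⟩
    let a : Abelianization N := Abelianization.of ⟨x, hx⟩
    let b : Abelianization N := Abelianization.of ⟨y, hy⟩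
    have h1 : ∀ z : N, (z : G) ∈ ⁅N, N⁆ ↔ Abelianization.of z = 1 := by
      intro z
      rw [mem_comm_iff]
      exact (QuotientGroup.eq_one_iff z).symm
    have ha : a ^ m = 1 := by
      have := (h1 (⟨x, hx⟩ ^ m)).1 hx'
      rwa [map_pow] at this
    have hb : b ^ n = 1 := by
      have := (h1 (⟨y, hy⟩ ^ n)).1 hy'
      rwa [map_pow] at this
    have h2 := (h1 ((⟨x, hx⟩ * ⟨y, hy⟩) ^ (m * n))).2 (by
      rw [map_pow, map_mul]
      show (a * b) ^ (m * n) = 1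
      rw [mul_pow, pow_mul, ha, one_pow, one_mul, mul_comm m n, pow_mul, hb, one_pow])
    exact h2
  inv_mem' := by
    rintro x ⟨hx, m, hm, hx'⟩
    refine ⟨inv_mem hx, m, hm, ?_⟩
    rw [inv_pow]
    exact inv_mem hx'

theorem mem_rc {G : Type} [Group G] {N : Subgroup G} {x : G} :
    x ∈ rc N ↔ x ∈ N ∧ ∃ m : ℕ, m ≠ 0 ∧ x ^ m ∈ ⁅N, N⁆ := Iff.rfl

theorem rc_le {G : Type} [Group G] (N : Subgroup G) : rc N ≤ N := fun _ h => h.1

theorem comm_le_rc {G : Type} [Group G] (N : Subgroup G) : ⁅N, N⁆ ≤ rc N := fun x h =>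
  ⟨Subgroup.commutator_le_self _ h, 1, one_ne_zero, by rwa [pow_one]⟩

theorem rc_normal {G : Type} [Group G] (N : Subgroup G) [hN : N.Normal] : (rc N).Normal := by
  refine ⟨fun x hx g => ?_⟩
  obtain ⟨h1, m, hm, h2⟩ := hx
  refine ⟨hN.conj_mem x h1 g, m, hm, ?_⟩
  rw [conj_pow]
  have h3 : (⁅N, N⁆ : Subgroup G).Normal := inferInstance
  exact h3.conj_mem _ h2 g

/-- **families of torsion-free abelian groups of rank one** -/
theorem alph (hC : ClosedE C) (hM : ∀ (G : Type) [Group G], derivedSeries G 2 = ⊥ → C G)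
    (hA : AcylR C) (hfg : Group.FG G) (hT : T.IsTree)
    (hact : ∀ (g : G) (u v : V), T.Adj u v → T.Adj (g • u) (g • v))
    (hV : ∀ v : V, C ↥(MulAction.stabilizer G v)) (hR : Fm T R)
    (hab : ∀ v, ∀ x ∈ R v, ∀ y ∈ R v, x * y = y * x)
    (htf : ∀ v, ∀ x ∈ R v, ∀ m : ℕ, m ≠ 0 → x ^ m = 1 → x = 1)
    (hrk : ∀ v w, ∀ x ∈ R v, ∀ y ∈ R w, y ≠ 1 → ∃ m : ℕ, m ≠ 0 ∧ x ^ m ∈ Subgroup.zpowers y)
    (hne : ∀ v, ∃ y ∈ R v, y ≠ 1)
    (hE : ∀ u v : V, T.Adj u v → ∀ g : G, g • u = u → g • v = v → g ∈ R u) : C G := by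
  classical
  obtain ⟨S, hS⟩ := Tv.exists (R := R) hT
  have hq := hR.tq hT hact hS
  have hbot : ∀ v, ⁅R v, R v⁆ = ⊥ := by
    intro v
    rw [Subgroup.commutator_eq_bot_iff_le_centralizer]
    intro x hx
    rw [Subgroup.mem_centralizer_iff]
    intro y hy
    exact hab v y hy x hx
  have hcyc := cycC hC hM hT hact hR (fun v u _ x _ hx => by
    rw [hbot, Subgroup.mem_bot] at hx
    exact hx) hV
  obtain ⟨N, hN⟩ : ∃ N : Subgroup G, N = ⨆ v, R v := ⟨_, rfl⟩
  have hNn : N.Normal := hN ▸ hR.normal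
  have hle : ∀ v, R v ≤ N := fun v => hN ▸ le_iSup R v
  have hst : ∀ {x : G}, x ∈ N → ∀ {v : V}, x • v = v → x ∈ R v := fun {x} hx {v} h =>
    hR.stab hT hact (hN ▸ hx) h
  rw [← hN] at hq hcyc
  -- the commutator subgroup of `N` meets the groups of the family trivially
  have hcomm : ∀ v, ∀ x ∈ R v, x ∈ ⁅N, N⁆ → x = 1 := by
    intro v x hx hxc
    have hSb : ∀ v : V, Sb N v = R v := by
      intro v
      ext y
      rw [mem_Sb]
      exact ⟨fun h => hst h.2 h.1, fun h => ⟨hR.fix v y h, hle v h⟩⟩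
    have hsup : (⨆ v : V, Sb N v) = N := by
      rw [hN]
      congr 1
      funext v
      rw [← hN]
      exact hSb v
    have h1 := Pool.Agent.N509.TK.h1 hT hact N (by
      intro v u _ y _ _ hy
      rw [hSb, hbot, Subgroup.mem_bot] at hy
      exact hy) v (x := x) (by rw [hSb]; exact hx) (by rw [hsup]; exact hxc)
    rw [hSb, hbot, Subgroup.mem_bot] at h1
    exact h1
  obtain ⟨D, hD⟩ : ∃ D : Subgroup G, D = rc N := ⟨_, rfl⟩
  have hDn : D.Normal := hD ▸ rc_normal N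
  have hDN : D ≤ N := hD ▸ rc_le N
  have hDR : ∀ v, ∀ x ∈ R v, x ∈ D → x = 1 := by
    intro v x hx hxD
    rw [hD] at hxD
    obtain ⟨_, m, hm, h1⟩ := hxD
    exact htf v x hx m hm (hcomm v _ (pow_mem hx m) h1)
  -- the rank of `N / D`
  have hrkN : ∀ v, ∀ y ∈ R v, y ≠ 1 → ∀ x ∈ N, ∃ m : ℕ, m ≠ 0 ∧ ∃ j : ℤ,
      x ^ m * y ^ j ∈ D := by
    intro v y hy hy1 x hx
    have hab' : ∀ a ∈ N, ∀ b ∈ N, (a : G ⧸ D) * (b : G ⧸ D) = (b : G ⧸ D) * (a : G ⧸ D) := by
      intro a ha b hb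
      rw [← QuotientGroup.mk_mul, ← QuotientGroup.mk_mul]
      refine QuotientGroup.eq.2 ?_
      have h1 : (a * b)⁻¹ * (b * a) = ⁅b⁻¹, a⁻¹⁆ := by
        rw [commutatorElement_def]
        group
      rw [h1, hD]
      exact comm_le_rc N (Subgroup.commutator_mem_commutator (N.inv_mem hb) (N.inv_mem ha))
    have hiff : ∀ (a : G) (m : ℕ) (j : ℤ), a ^ m * y ^ j ∈ D ↔
        (a : G ⧸ D) ^ m * (y : G ⧸ D) ^ j = 1 := by
      intro a m j
      rw [← QuotientGroup.eq_one_iff]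
      rfl
    have hyN := hle v hy
    rw [hN] at hx
    induction hx using Subgroup.iSup_induction' with
    | hp w a ha =>
      obtain ⟨m, hm, j, hj⟩ := hrk w v a ha y hy hy1
      refine ⟨m, hm, -j, ?_⟩
      have hj : y ^ j = a ^ m := hj
      rw [← hj, ← zpow_add, add_neg_cancel, zpow_zero]
      exact one_mem _
    | h1 =>
      refine ⟨1, one_ne_zero, 0, ?_⟩
      rw [one_pow, zpow_zero, one_mul]
      exact one_mem _
    | hmul a b ha hb iha ihb =>
      obtain ⟨m, hm, j, hj⟩ := iha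
      obtain ⟨n, hn, k, hk⟩ := ihb
      rw [← hN] at ha hb
      refine ⟨m * n, mul_ne_zero hm hn, j * n + k * m, ?_⟩
      rw [hiff] at hj hk ⊢
      have c1 : Commute (a : G ⧸ D) (b : G ⧸ D) := hab' a ha b hb
      have c2 : Commute (y : G ⧸ D) (b : G ⧸ D) := hab' y hyN b hb
      rw [QuotientGroup.mk_mul, c1.mul_pow, zpow_add, zpow_mul, zpow_mul, zpow_natCast, zpow_natCast,
        pow_mul, mul_comm m n, pow_mul]
      have hj' : (a : G ⧸ D) ^ m = ((y : G ⧸ D) ^ j)⁻¹ := eq_inv_of_mul_eq_one_left hj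
      have hk' : (b : G ⧸ D) ^ n = ((y : G ⧸ D) ^ k)⁻¹ := eq_inv_of_mul_eq_one_left hk
      rw [hj', hk', inv_pow, inv_pow]
      have c3 : Commute (((y : G ⧸ D) ^ j) ^ n) (((y : G ⧸ D) ^ k) ^ m) := by
        rw [← zpow_natCast, ← zpow_natCast, ← zpow_mul, ← zpow_mul]
        exact Commute.zpow_zpow_self _ _ _
      rw [← mul_inv_rev, c3.eq, inv_mul_cancel]
  let _ := ga hq
  refine finedgeR (G := G) (Q := G ⧸ N) (V := S) (T := T.induce S) hA hC (QuotientGroup.mk' N)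
    (QuotientGroup.mk'_surjective N)
    (Group.fg_of_surjective (f := QuotientGroup.mk' N) (QuotientGroup.mk'_surjective N))
    (hq.isTree hT) ?_ 1 ?_ ?_ ?_ ?_
  · intro g s t hst
    exact sm_adj hact hq g s t hst
  · intro g hg s
    exact sm_eq hq ((QuotientGroup.eq_one_iff g).1 hg) rfl
  · intro s t hadj F hF
    rw [Finset.card_le_one]
    have h1 : ∀ q ∈ F, q = 1 := by
      intro q hq'
      obtain ⟨g, rfl, hs, ht⟩ := hF q hq'
      obtain ⟨h, hh, h2, h3⟩ := sm_edge hact hq hadj hs ht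
      refine (QuotientGroup.eq_one_iff _).2 ?_
      have h4 := mul_mem hh (hle _ (hE _ _ hadj _ h2 h3))
      rwa [mul_inv_cancel_left] at h4
    intro a ha b hb
    rw [h1 a ha, h1 b hb]
  · -- the stabilizers of the vertices of the quotient
    intro s
    obtain ⟨Γ, hΓ⟩ : ∃ Γ : Subgroup G, Γ = MulAction.stabilizer G s := ⟨_, rfl⟩
    rw [← hΓ]
    have hmΓ : ∀ g : G, g ∈ Γ ↔ sm hq g s = s := by
      intro g
      rw [hΓ]
      exact Iff.rfl
    have hNΓ : N ≤ Γ := fun g hg => (hmΓ g).2 (sm_eq hq hg rfl)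
    have hsΓ : MulAction.stabilizer G (s : V) ≤ Γ := fun g hg =>
      (hmΓ g).2 (sm_eq hq (h := 1) (one_mem _) (by rw [one_smul]; exact hg))
    obtain ⟨D', hD'⟩ : ∃ D' : Subgroup Γ, D' = D.subgroupOf Γ := ⟨_, rfl⟩
    have hmD' : ∀ x : Γ, x ∈ D' ↔ (x : G) ∈ D := fun x => by rw [hD', Subgroup.mem_subgroupOf]
    have hD'n : D'.Normal := by
      refine ⟨fun x hx g => ?_⟩
      rw [hmD'] at hx ⊢
      exact hDn.conj_mem _ hx g
    have hP : C (Γ ⧸ D') := by
      obtain ⟨y, hy, hy1⟩ := hne s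
      let j : MulAction.stabilizer G (s : V) →* Γ ⧸ D' :=
        (QuotientGroup.mk' D').comp (Subgroup.inclusion hsΓ)
      have hj : Function.Injective j := by
        rw [injective_iff_map_eq_one]
        rintro ⟨x, hx⟩ hjx
        have h1 : x ∈ D := (hmD' ⟨x, hsΓ hx⟩).1 ((QuotientGroup.eq_one_iff _).1 hjx)
        exact Subtype.ext (hDR s x (hst (hDN h1) hx) h1)
      have hjC : C j.range := C_equiv hC.base (MonoidHom.ofInjective hj).symm (hV s)
      obtain ⟨A, hAd⟩ : ∃ A : Subgroup (Γ ⧸ D'),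
          A = (N.subgroupOf Γ).map (QuotientGroup.mk' D') := ⟨_, rfl⟩
      have hmA : ∀ x ∈ A, ∃ (a : G) (ha : a ∈ N), x = QuotientGroup.mk (⟨a, hNΓ ha⟩ : Γ) := by
        rw [hAd]
        rintro _ ⟨⟨a, ha⟩, ha', rfl⟩
        exact ⟨a, ha', rfl⟩
      have hAn : A.Normal := by
        rw [hAd]
        exact Subgroup.Normal.map inferInstance _ (QuotientGroup.mk'_surjective _)
      have hys : y ∈ MulAction.stabilizer G (s : V) := hR.fix _ y hy
      refine rank1 hC A j.range ?_ ?_ ?_ (j ⟨y, hys⟩) ⟨_, rfl⟩ ?_ hjC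
      · intro x
        obtain ⟨⟨g, hg⟩, rfl⟩ := QuotientGroup.mk_surjective x
        obtain ⟨h, hh, h1⟩ := sm_vertex hq ((hmΓ g).1 hg)
        refine ⟨QuotientGroup.mk (⟨h, hNΓ hh⟩ : Γ), ?_, j ⟨h⁻¹ * g, h1⟩, ⟨_, rfl⟩, ?_⟩
        · rw [hAd]
          exact ⟨⟨h, hNΓ hh⟩, hh, rfl⟩
        · show (QuotientGroup.mk (⟨g, hg⟩ : Γ) : Γ ⧸ D') =
            QuotientGroup.mk (⟨h, hNΓ hh⟩ : Γ) * QuotientGroup.mk (⟨h⁻¹ * g, hsΓ h1⟩ : Γ)
          rw [← QuotientGroup.mk_mul]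
          congr 1
          exact Subtype.ext (mul_inv_cancel_left h g).symm
      · intro x hx z hz
        obtain ⟨a, ha, rfl⟩ := hmA x hx
        obtain ⟨b, hb, rfl⟩ := hmA z hz
        rw [← QuotientGroup.mk_mul, ← QuotientGroup.mk_mul]
        refine QuotientGroup.eq.2 ?_
        rw [hmD']
        show (a * b)⁻¹ * (b * a) ∈ D
        have h1 : (a * b)⁻¹ * (b * a) = ⁅b⁻¹, a⁻¹⁆ := by
          rw [commutatorElement_def]
          group
        rw [h1, hD]
        exact comm_le_rc N (Subgroup.commutator_mem_commutator (N.inv_mem hb) (N.inv_mem ha))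
      · intro x hx m hm hxm
        obtain ⟨a, ha, rfl⟩ := hmA x hx
        have hxm' : (QuotientGroup.mk ((⟨a, hNΓ ha⟩ : Γ) ^ m) : Γ ⧸ D') = 1 := by
          rw [QuotientGroup.mk_pow]
          exact hxm
        have h1 : a ^ m ∈ D := (hmD' (⟨a, hNΓ ha⟩ ^ m)).1 ((QuotientGroup.eq_one_iff _).1 hxm')
        refine (QuotientGroup.eq_one_iff _).2 ((hmD' _).2 ?_)
        show a ∈ D
        rw [hD] at h1 ⊢
        obtain ⟨_, k, hk, h2⟩ := h1
        refine ⟨ha, m * k, mul_ne_zero hm hk, ?_⟩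
        rwa [pow_mul]
      · intro x hx
        obtain ⟨a, ha, rfl⟩ := hmA x hx
        obtain ⟨m, hm, i, hi⟩ := hrkN s y hy hy1 a ha
        refine ⟨m, hm, -i, ?_⟩
        show (j ⟨y, hys⟩) ^ (-i) = (QuotientGroup.mk (⟨a, hNΓ ha⟩ : Γ)) ^ m
        have h1 : (QuotientGroup.mk (⟨a, hNΓ ha⟩ : Γ) : Γ ⧸ D') ^ m * (j ⟨y, hys⟩) ^ i = 1 :=
          (QuotientGroup.eq_one_iff _).2 ((hmD' (⟨a, hNΓ ha⟩ ^ m * (⟨y, hsΓ hys⟩ : Γ) ^ i)).2 hi)
        rw [zpow_neg]
        exact (eq_inv_of_mul_eq_one_left h1).symm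
    refine crit (G := Γ) (V := V) (T := T) hC hT (fun x u v h => hact x u v h)
      (QuotientGroup.mk' D') hP ?_ ?_
    · intro u v huv g hgu hgv hg
      have h1 : (g : G) ∈ D := (hmD' g).1 ((QuotientGroup.eq_one_iff _).1 hg)
      exact Subtype.ext (hDR u g (hE u v huv g hgu hgv) h1)
    · intro v g hg
      refine C_le hC.base (sup_le inf_le_left ?_) (C_stab hC Γ v (hV v))
      rw [Subgroup.zpowers_le]
      exact hg
  · intro q
    obtain ⟨g, rfl⟩ := QuotientGroup.mk'_surjective N q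
    have h2 : (Subgroup.zpowers (QuotientGroup.mk' N g)).comap (QuotientGroup.mk' N) =
        N ⊔ Subgroup.zpowers g := by
      rw [← MonoidHom.map_zpowers, Subgroup.comap_map_eq, QuotientGroup.ker_mk', sup_comm]
    rw [h2]
    exact hcyc g

end Run7.h371.FJ
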