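import Pool.Agent.Run7.h371.FJ.Al

/-!
# Unique roots
-/

set_option autoImplicit false

namespace Run7.h371.FJ

open SimpleGraph
open scoped commutatorElement
open Pool.Agent.N509.TK
open Pool.Agent.Y110.FJ
open Pool.Agent.N509.TX (AcylF C_edge C_stab of_fg of_fg_mem)
open Pool.Agent.R941.FJ (C_equiv C_le C_cyc mem_sup_normal)

variable {C : ∀ (G : Type) [Group G], Prop}
variable {G V : Type} {T : SimpleGraph V} [Group G] [MulAction G V]

/-- `x = 1`, or `x` and `t` have a common power with nonzero exponents -/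
def Cm {G : Type} [Group G] (t x : G) : Prop := x = 1 ∨ ∃ a b : ℤ, a ≠ 0 ∧ b ≠ 0 ∧ x ^ a = t ^ b

/-- `t` has infinite order -/
def Io {G : Type} [Group G] (t : G) : Prop := ∀ k : ℤ, k ≠ 0 → t ^ k ≠ 1

section

variable {t x y : G}

theorem Cm.inv (h : Cm t x) : Cm t x⁻¹ := by
  rcases h with rfl | ⟨a, b, ha, hb, h⟩
  · left
    exact inv_one
  · right
    refine ⟨-a, b, neg_ne_zero.2 ha, hb, ?_⟩
    rw [inv_zpow, zpow_neg, inv_inv, h]

theorem Cm.tf (ht : Io t) (h : Cm t x) {m : ℤ} (hm : m ≠ 0) (hx : x ^ m = 1) : x = 1 := by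
  rcases h with rfl | ⟨a, b, ha, hb, h⟩
  · rfl
  · exfalso
    refine ht (b * m) (mul_ne_zero hb hm) ?_
    rw [zpow_mul, ← h, ← zpow_mul, mul_comm, zpow_mul, hx, one_zpow]

theorem Cm.tf' (ht : Io t) (h : Cm t x) {m : ℕ} (hm : m ≠ 0) (hx : x ^ m = 1) : x = 1 :=
  h.tf ht (m := m) (by exact_mod_cast hm) (by rwa [zpow_natCast])

theorem Cm.rel (hx : Cm t x) (hy : Cm t y) (hy1 : y ≠ 1) :
    ∃ a b : ℤ, a ≠ 0 ∧ (x ≠ 1 → b ≠ 0) ∧ x ^ a = y ^ b := by
  rcases hy with hy | ⟨c, d, hc, hd, hy⟩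
  · exact absurd hy hy1
  · rcases hx with rfl | ⟨a, b, ha, hb, hx⟩
    · exact ⟨1, 0, one_ne_zero, fun h => absurd rfl h, by rw [one_zpow, zpow_zero]⟩
    · refine ⟨a * d, c * b, mul_ne_zero ha hd, fun _ => mul_ne_zero hc hb, ?_⟩
      rw [zpow_mul, hx, ← zpow_mul, mul_comm b d, zpow_mul, ← hy, ← zpow_mul]

theorem natAbs_zpow (x : G) (a : ℤ) : x ^ a.natAbs = x ^ a ∨ x ^ a.natAbs = (x ^ a)⁻¹ := by
  rcases Int.natAbs_eq a with h | h
  · left
    conv_rhs => rw [h]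
    rw [zpow_natCast]
  · right
    conv_rhs => rw [h]
    rw [zpow_neg, inv_inv, zpow_natCast]

theorem Cm.rel' (hx : Cm t x) (hy : Cm t y) (hy1 : y ≠ 1) :
    ∃ m : ℕ, m ≠ 0 ∧ x ^ m ∈ Subgroup.zpowers y := by
  obtain ⟨a, b, ha, -, h⟩ := hx.rel hy hy1
  refine ⟨a.natAbs, Int.natAbs_ne_zero.2 ha, ?_⟩
  rcases natAbs_zpow x a with h1 | h1
  · rw [h1, h]
    exact ⟨b, rfl⟩
  · rw [h1, h]
    exact inv_mem ⟨b, rfl⟩

theorem Cm.conj (hx : Cm t x) (g : G)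
    (hg : ∃ m n : ℤ, m ≠ 0 ∧ n ≠ 0 ∧ g * t ^ m * g⁻¹ = t ^ n) : Cm t (g * x * g⁻¹) := by
  obtain ⟨m, n, hm, hn, h⟩ := hg
  rcases hx with rfl | ⟨a, b, ha, hb, hx⟩
  · left
    group
  · right
    refine ⟨a * m, n * b, mul_ne_zero ha hm, mul_ne_zero hn hb, ?_⟩
    have h1 : (g * x * g⁻¹) ^ (a * m) = g * x ^ (a * m) * g⁻¹ := conj_zpow
    have h2 : (g * t ^ m * g⁻¹) ^ b = g * (t ^ m) ^ b * g⁻¹ := conj_zpow
    rw [h1, zpow_mul, hx, ← zpow_mul, mul_comm b m, zpow_mul, ← h2, h, ← zpow_mul]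

/-- roots of the elements commensurable to `t` are unique in the set `S` -/
def Ur {G : Type} [Group G] (t : G) (S : Subgroup G) : Prop :=
  ∀ x ∈ S, ∀ y ∈ S, (∃ a b : ℤ, a ≠ 0 ∧ b ≠ 0 ∧ x ^ a = t ^ b) →
    ∀ m : ℕ, m ≠ 0 → x ^ m = y ^ m → x = y

theorem Ur.zpow {S : Subgroup G} (hU : Ur t S) (hx : x ∈ S) (hy : y ∈ S)
    (hxt : ∃ a b : ℤ, a ≠ 0 ∧ b ≠ 0 ∧ x ^ a = t ^ b) {m : ℤ} (hm : m ≠ 0) (h : x ^ m = y ^ m) : x = y := by
  refine hU x hx y hy hxt m.natAbs (Int.natAbs_ne_zero.2 hm) ?_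
  rcases Int.natAbs_eq m with h1 | h1
  · rw [h1, zpow_natCast, zpow_natCast] at h
    exact h
  · rw [h1, zpow_neg, zpow_neg, zpow_natCast, zpow_natCast] at h
    exact inv_injective h

theorem Ur.comm {S : Subgroup G} (hU : Ur t S) (hx : x ∈ S) (hy : y ∈ S) (hxt : Cm t x)
    (hyt : Cm t y) : x * y = y * x := by
  by_cases hy1 : y = 1
  · rw [hy1, mul_one, one_mul]
  by_cases hx1 : x = 1
  · rw [hx1, mul_one, one_mul]
  obtain ⟨a, b, ha, hb, h⟩ := hxt.rel hyt hy1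
  have hb := hb hx1
  have h1 : (x * y * x⁻¹) ^ b = y ^ b := by
    have h2 : (x * y * x⁻¹) ^ b = x * y ^ b * x⁻¹ := conj_zpow
    rw [h2, ← h]
    have h3 : Commute x (x ^ a) := Commute.self_zpow x a
    rw [h3.eq, mul_inv_cancel_right]
  have h2 : y = x * y * x⁻¹ :=
    hU.zpow hy (mul_mem (mul_mem hx hy) (inv_mem hx)) (hyt.resolve_left hy1) hb h1.symm
  exact (mul_inv_eq_iff_eq_mul.1 h2.symm)

theorem Ur.mul {S : Subgroup G} (hU : Ur t S) (hx : x ∈ S) (hy : y ∈ S)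
    (hxt : Cm t x) (hyt : Cm t y) : Cm t (x * y) := by
  have hc : Commute x y := hU.comm hx hy hxt hyt
  by_cases hxy : x * y = 1
  · exact Or.inl hxy
  rcases hxt with rfl | ⟨a, b, ha, hb, hx'⟩
  · rwa [one_mul]
  rcases hyt with rfl | ⟨c, d, hc', hd, hy'⟩
  · rw [mul_one]
    exact Or.inr ⟨a, b, ha, hb, hx'⟩
  right
  refine ⟨a * c, b * c + d * a, mul_ne_zero ha hc', ?_, ?_⟩
  · intro h0
    apply hxy
    have h1 : x ^ (a * c) = (y⁻¹) ^ (a * c) := by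
      have h2 : x ^ (a * c) * y ^ (a * c) = 1 := by
        rw [zpow_mul, hx', mul_comm a c, zpow_mul, hy', ← zpow_mul, ← zpow_mul, ← zpow_add, h0,
          zpow_zero]
      rw [inv_zpow]
      exact eq_inv_of_mul_eq_one_left h2
    have h2 := hU.zpow hx (inv_mem hy) ⟨a, b, ha, hb, hx'⟩ (mul_ne_zero ha hc') h1
    rw [h2, inv_mul_cancel]
  · rw [hc.mul_zpow, zpow_mul, hx', mul_comm a c, zpow_mul, hy', ← zpow_mul, ← zpow_mul, ← zpow_add]

end

/-- groups without edges -/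
theorem no_edges (hC : ClosedE C) (hT : T.IsTree) (hV : ∀ v : V, C ↥(MulAction.stabilizer G v))
    (h : ∀ u v : V, ¬ T.Adj u v) : C G := by
  obtain ⟨o⟩ := hT.connected.nonempty
  refine hC.base.of_injective _ _ ((MonoidHom.id G).codRestrict (MulAction.stabilizer G o) ?_) ?_
    (hV o)
  · intro g
    show g • o = o
    by_contra hne
    obtain ⟨a, ha⟩ := St_exists hT (p := o) (x := g • o) (fun h1 => hne h1.symm)
    exact h _ _ ha.1
  · intro a b hab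
    exact congrArg Subtype.val hab

/-- **unique roots**: a group which commensurates an infinite cyclic group, acting on a tree such that
the edge groups consist of elements commensurable to `t` -/
theorem alph0 (hC : ClosedE C) (hM : ∀ (G : Type) [Group G], derivedSeries G 2 = ⊥ → C G)
    (hA : AcylR C) (hT : T.IsTree)
    (hact : ∀ (g : G) (u v : V), T.Adj u v → T.Adj (g • u) (g • v))
    (hV : ∀ v : V, C ↥(MulAction.stabilizer G v)) (t : G) (ht : Io t)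
    (hcom : ∀ g : G, ∃ m n : ℤ, m ≠ 0 ∧ n ≠ 0 ∧ g * t ^ m * g⁻¹ = t ^ n)
    (hedge : ∀ u v, T.Adj u v → (∀ x : G, x • u = u → x • v = v → Cm t x) ∧
      ∃ y : G, y • u = u ∧ y • v = v ∧ y ≠ 1)
    (hU : ∀ v : V, Ur t (MulAction.stabilizer G v)) : C G := by
  by_cases hne : ∃ u v, T.Adj u v
  swap
  · push Not at hne
    exact no_edges hC hT hV hne
  obtain ⟨u0, v0, huv0⟩ := hne
  refine of_fg_mem hC t fun H hfg htH => ?_
  obtain ⟨R, hRd⟩ : ∃ R : V → Subgroup H, ∀ v (x : H), x ∈ R v ↔ ((x : G) • v = v ∧ Cm t (x : G)) := by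
    refine ⟨fun v =>
      { carrier := {x | (x : G) • v = v ∧ Cm t (x : G)}
        one_mem' := ⟨one_smul G v, Or.inl rfl⟩
        mul_mem' := by
          rintro x y ⟨hx, hx'⟩ ⟨hy, hy'⟩
          refine ⟨?_, (hU v).mul (show (x : G) ∈ MulAction.stabilizer G v from hx)
            (show (y : G) ∈ MulAction.stabilizer G v from hy) hx' hy'⟩
          show ((x : G) * (y : G)) • v = v
          rw [mul_smul, hy, hx]
        inv_mem' := by
          rintro x ⟨hx, hx'⟩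
          refine ⟨?_, hx'.inv⟩
          show (x : G)⁻¹ • v = v
          rw [inv_smul_eq_iff, hx] }, fun v x => Iff.rfl⟩
  have hR : Fm T R := by
    refine ⟨fun v r hr => ((hRd v r).1 hr).1, fun g v r hr => ?_, fun u v huv r hr hru => ?_⟩
    · rw [hRd] at hr ⊢
      refine ⟨?_, hr.2.conj g (hcom g)⟩
      show ((g : G) * r * (g : G)⁻¹) • (g : G) • v = (g : G) • v
      rw [mul_smul, inv_smul_smul, mul_smul, hr.1]
    · rw [hRd] at hr ⊢
      exact ⟨hru, hr.2⟩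
  have hmem : ∀ v, ∀ x ∈ R v, (x : G) ∈ MulAction.stabilizer G v := fun v x hx => ((hRd v x).1 hx).1
  refine alph (G := H) (V := V) (T := T) hC hM hA hfg hT (fun g u v h => hact g u v h)
    (fun v => C_stab hC H v (hV v)) hR ?_ ?_ ?_ ?_ ?_
  · intro v x hx y hy
    exact Subtype.ext ((hU v).comm (hmem v x hx) (hmem v y hy) ((hRd v x).1 hx).2 ((hRd v y).1 hy).2)
  · intro v x hx m hm h
    exact Subtype.ext (((hRd v x).1 hx).2.tf' ht hm (congrArg Subtype.val h))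
  · intro v w x hx y hy hy1
    obtain ⟨m, hm, j, hj⟩ := ((hRd v x).1 hx).2.rel' ((hRd w y).1 hy).2 (fun h => hy1 (Subtype.ext h))
    exact ⟨m, hm, j, Subtype.ext hj⟩
  · intro v
    obtain ⟨w, hvw⟩ : ∃ w, T.Adj v w := by
      by_cases h : v = u0
      · exact ⟨v0, h ▸ huv0⟩
      · obtain ⟨a, ha⟩ := St_exists hT h
        exact ⟨a, ha.1⟩
    obtain ⟨h1, y, hyv, hyw, hy1⟩ := hedge v w hvw
    rcases h1 y hyv hyw with h2 | ⟨a, b, ha, hb, h2⟩
    · exact absurd h2 hy1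
    · have h3 : y ^ a ∈ H := by
        rw [h2]
        exact zpow_mem htH b
      have h4 : y ^ a ≠ 1 := by
        rw [h2]
        exact ht b hb
      have h5 : y ^ a ∈ MulAction.stabilizer G v :=
        zpow_mem (show y ∈ MulAction.stabilizer G v from hyv) a
      refine ⟨⟨y ^ a, h3⟩, (hRd v _).2 ⟨h5, Or.inr ⟨1, b, one_ne_zero, hb, ?_⟩⟩,
        fun h => h4 (congrArg Subtype.val h)⟩
      show (y ^ a) ^ (1 : ℤ) = t ^ b
      rw [zpow_one, h2]
  · intro u v huv g hgu hgv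
    rw [hRd]
    exact ⟨hgu, (hedge u v huv).1 g hgu hgv⟩

end Run7.h371.FJ
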