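import Pool.Agent.Run7.h371.FJ.Lc
import Pool.Agent.N431.CE.Fin

/-!
# Isolated edge groups: homomorphisms of the vertex groups which kill the edge groups
-/

set_option autoImplicit false

namespace Run7.h371.FJ

open SimpleGraph
open Subgroup
open Subgroup.Commensurable (commensurator)
open Pool.Agent.N509.TK
open Pool.Agent.Y110.FJ
open Pool.Agent.N509.TX (AcylF C_edge)
open Pool.Agent.N431.CE (Es Es_comm Es_smul rf rf_LR Rf Rf_gen cylF mem_Es)

variable {C : ∀ (G : Type) [Group G], Prop}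
variable {G V : Type} [Group G] [MulAction G V] {T : SimpleGraph V}

/-- the commensurator of the stabilizer of the edge `(v, u)` in the stabilizer of `v` -/
abbrev Hc (G : Type) {V : Type} [Group G] [MulAction G V] (v u : V) : Subgroup G :=
  MulAction.stabilizer G v ⊓ commensurator (Es G v u)

/-- the kernel of a homomorphism on a subgroup, as a subgroup of the group -/
abbrev Kf {H : Subgroup G} {P : Type} [Group P] (f : H →* P) : Subgroup G := f.ker.map H.subtype

theorem mem_Kf {H : Subgroup G} {P : Type} [Group P] {f : H →* P} {x : G} :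
    x ∈ Kf f ↔ ∃ h : x ∈ H, f ⟨x, h⟩ = 1 := by
  constructor
  · rintro ⟨y, hy, rfl⟩
    exact ⟨y.2, hy⟩
  · rintro ⟨h, hx⟩
    exact ⟨⟨x, h⟩, hx, rfl⟩

/-- the local condition at the edge `(v, u)`: a homomorphism from the commensurator of the edge group
in the vertex group to a group in `C` kills the edge groups at `v` commensurable to it, and these
edge groups intersect the commutator subgroup of the kernel trivially -/
def Ec (C : ∀ (G : Type) [Group G], Prop) (G : Type) {V : Type} [Group G] [MulAction G V]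
    (T : SimpleGraph V) (v u : V) : Prop :=
  ∃ (P : Type) (_ : Group P) (f : Hc G v u →* P), C P ∧
    ∀ w, T.Adj v w → Commensurable (Es G v w) (Es G v u) →
      Es G v w ≤ Kf f ∧ Es G v w ⊓ ⁅Kf f, Kf f⁆ = ⊥

/-- the edge groups of a cylinder are commensurable -/
theorem cy_Rf {v u v' u' : V} (h : T.Adj v u) (h' : T.Adj v' u') (hc : cy (rf G) h = cy (rf G) h') :
    Rf G (v, u) (v', u') := Rf_gen (p := dt h) (q := dt h') (Quotient.exact hc)

theorem cy_comm {v u v' u' : V} (h : T.Adj v u) (h' : T.Adj v' u') (hc : cy (rf G) h = cy (rf G) h') :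
    Commensurable (Es G v' u') (Es G v u) := (cy_Rf h h' hc).comm.symm

theorem cy_le (hact : ∀ (g : G) (u v : V), T.Adj u v → T.Adj (g • u) (g • v)) {y : Cyl T (rf G)}
    {K : Subgroup G} (hK : ∀ g ∈ K, Pres hact y g) {v u : V} (h : T.Adj v u) (hc : cy (rf G) h = y) :
    K ≤ commensurator (Es G v u) := by
  intro g hg
  rw [Commensurable.commensurator_mem_iff, ← Es_smul]
  exact cy_comm h (hact g v u h) (hc.trans (hK g hg v u h hc).symm)

/-- groups which preserve a cylinder whose edges satisfy the local condition -/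
theorem cylEc (hC : ClosedE C) (hM : ∀ (G : Type) [Group G], derivedSeries G 2 = ⊥ → C G)
    (hT : T.IsTree) (hact : ∀ (g : G) (u v : V), T.Adj u v → T.Adj (g • u) (g • v))
    (hV : ∀ v : V, C ↥(MulAction.stabilizer G v)) (y : Cyl T (rf G)) (K : Subgroup G)
    (hK : ∀ g ∈ K, Pres hact y g)
    (hE : ∀ (v u : V) (h : T.Adj v u), cy (rf G) h = y → Ec C G T v u) : C K := by
  let _ : MulAction K {v : V | Mem y v} :=
    { smul := fun g v => ⟨(g : G) • (v : V), (hK g g.2).mem v.2⟩
      one_smul := fun v => Subtype.ext (one_smul G (v : V))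
      mul_smul := fun g h v => Subtype.ext (mul_smul (g : G) (h : G) (v : V)) }
  have htree : (T.induce {v : V | Mem y v}).IsTree := by
    refine ⟨?_, hT.isAcyclic.induce _⟩
    obtain ⟨⟨⟨v0, a0⟩, h0⟩, hy⟩ := Quotient.exists_rep y
    have h0 : T.Adj v0 a0 := h0
    have hy : cy (rf G) h0 = y := hy
    have : Nonempty {v : V | Mem y v} := ⟨⟨v0, a0, h0, hy⟩⟩
    refine ⟨fun v u => ?_⟩
    obtain ⟨p, hp, -⟩ := hT.existsUnique_path (v : V) (u : V)
    exact ⟨p.induce _ (path_mem hT rf_LR v.2 u.2 p hp)⟩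
  refine treeD (G := K) (V := {v : V | Mem y v}) (T := T.induce {v : V | Mem y v}) hC hM htree
    ?_ ?_ ?_
  · intro g v u h
    exact hact g _ _ h
  · intro v
    refine hC.base.of_injective _ _ ((K.subtype.comp (Subgroup.subtype
      (MulAction.stabilizer K v))).codRestrict (MulAction.stabilizer G (v : V)) ?_) ?_ (hV v)
    · rintro ⟨z, hz⟩
      exact congrArg Subtype.val hz
    · intro a b hab
      have h1 := congrArg Subtype.val hab
      exact Subtype.ext (Subtype.ext h1)
  · rintro ⟨v, u, hvu, hcy⟩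
    obtain ⟨P, _, f, hP, hf⟩ := hE v u hvu hcy
    have hle : K ≤ commensurator (Es G v u) := cy_le hact hK hvu hcy
    obtain ⟨M, hMd⟩ : ∃ M : Subgroup K, M = (Kf f).subgroupOf K := ⟨_, rfl⟩
    have hmM : ∀ x : K, x ∈ M ↔ (x : G) ∈ Kf f := by
      intro x
      rw [hMd, Subgroup.mem_subgroupOf]
    refine ⟨M, ?_, ?_, ?_, ?_⟩
    · intro x hx
      rw [hmM, mem_Kf] at hx
      obtain ⟨h, -⟩ := hx
      exact Subtype.ext h.1
    · have hmem : ∀ x : MulAction.stabilizer K (⟨v, u, hvu, hcy⟩ : {v : V | Mem y v}),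
          (K.subtype.comp (Subgroup.subtype _)) x ∈ Hc G v u := fun x =>
        ⟨congrArg Subtype.val x.2, hle x.1.2⟩
      refine ⟨P, _, f.comp ((K.subtype.comp (Subgroup.subtype _)).codRestrict _ hmem), hP, ?_⟩
      intro x
      rw [hmM, mem_Kf]
      exact ⟨fun h => ⟨hmem x, h⟩, fun ⟨h, hx⟩ => hx⟩
    · rintro ⟨w, hw⟩ hvw x hxv hxw
      have hvw : T.Adj v w := hvw
      have h1 : cy (rf G) hvw = y := adj_cy hT rf_LR ⟨u, hvu, hcy⟩ hw hvw
      rw [hmM]
      refine (hf w hvw (cy_comm hvu hvw (hcy.trans h1.symm))).1 ?_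
      exact ⟨congrArg Subtype.val hxv, congrArg Subtype.val hxw⟩
    · rintro ⟨w, hw⟩ hvw x hxw hx
      have hvw : T.Adj v w := hvw
      have h1 : cy (rf G) hvw = y := adj_cy hT rf_LR ⟨u, hvu, hcy⟩ hw hvw
      have h2 : (x : G) ∈ ⁅Kf f, Kf f⁆ := by
        have h3 : (x : G) ∈ (⁅M, M⁆).map K.subtype := ⟨x, hx, rfl⟩
        rw [Subgroup.map_commutator] at h3
        have h4 : M.map K.subtype ≤ Kf f := by
          rintro _ ⟨z, hz, rfl⟩
          exact (hmM z).1 hz
        exact Subgroup.commutator_mono h4 h4 h3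
      have h3 : (x : G) ∈ Es G v w := by
        have h4 := (mem_Kf.1 (Subgroup.commutator_le_self _ h2)).1
        exact ⟨h4.1, congrArg Subtype.val hxw⟩
      have h4 : (x : G) ∈ Es G v w ⊓ ⁅Kf f, Kf f⁆ := ⟨h3, h2⟩
      rw [(hf w hvw (cy_comm hvu hvw (hcy.trans h1.symm))).2] at h4
      exact Subtype.ext h4

end Run7.h371.FJ
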