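import Pool.Agent.Run7.h371.FJ.Al2
import Pool.Agent.Run7.h371.FJ.Main

/-!
# The rational derived series of the virtual centralizer
-/

set_option autoImplicit false

namespace Run7.h371.FJ

open SimpleGraph
open Subgroup
open Subgroup.Commensurable (commensurator)
open scoped commutatorElement
open Pool.Agent.N509.TK
open Pool.Agent.Y110.FJ
open Pool.Agent.R941.FJ (C_equiv C_le C_cyc mem_sup_normal)
open Pool.Agent.N431.CE (Es Es_comm Es_smul mem_Es mem_comm_iff)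

variable {C : ∀ (G : Type) [Group G], Prop}

/-- solvable groups are in the class -/
theorem C_solv (hC : ClosedE C) (hM : ∀ (G : Type) [Group G], derivedSeries G 2 = ⊥ → C G) (n : ℕ) :
    ∀ (G : Type) [Group G], derivedSeries G n = ⊥ → C G := by
  induction n with
  | zero =>
    intro G _ h
    refine hM G (le_bot_iff.1 (h ▸ derivedSeries_antitone G (Nat.zero_le 2)))
  | succ n ih =>
    intro G _ h
    by_cases hn : n < 2
    · exact hM G (le_bot_iff.1 (h ▸ derivedSeries_antitone G (by omega : n + 1 ≤ 2)))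
    obtain ⟨N, hN⟩ : ∃ N : Subgroup G, N = derivedSeries G n := ⟨_, rfl⟩
    have hNn : N.Normal := hN ▸ derivedSeries_normal G n
    have hab : ∀ x ∈ N, ∀ y ∈ N, x * y = y * x := by
      intro x hx y hy
      rw [derivedSeries_succ, ← hN, Subgroup.commutator_eq_bot_iff_le_centralizer] at h
      exact (Subgroup.mem_centralizer_iff.1 (h hx) y hy).symm
    have hQ : C (G ⧸ N) := by
      refine ih _ ?_
      rw [← map_derivedSeries_eq (QuotientGroup.mk'_surjective N), ← hN,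
        Subgroup.map_eq_bot_iff, QuotientGroup.ker_mk']
    have key : ∀ g : G, C ↥(N ⊔ Subgroup.zpowers g) := by
      intro g
      refine hM _ (metab (N.subgroupOf (N ⊔ Subgroup.zpowers g)) ?_ ?_)
      · intro x hx y hy
        exact Subtype.ext (hab x hx y hy)
      · rintro ⟨x, hx⟩ ⟨y, hy⟩
        obtain ⟨a, ha, _, ⟨i, rfl⟩, rfl⟩ := mem_sup_normal.1 hx
        obtain ⟨b, hb, _, ⟨j, rfl⟩, rfl⟩ := mem_sup_normal.1 hy
        rw [Subgroup.mem_subgroupOf]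
        show ⁅a * g ^ i, b * g ^ j⁆ ∈ N
        rw [← QuotientGroup.eq_one_iff]
        have h1 : ((⁅a * g ^ i, b * g ^ j⁆ : G) : G ⧸ N) =
            ⁅((a * g ^ i : G) : G ⧸ N), ((b * g ^ j : G) : G ⧸ N)⁆ := rfl
        rw [h1, QuotientGroup.mk_mul, (QuotientGroup.eq_one_iff a).2 ha, QuotientGroup.mk_mul,
          (QuotientGroup.eq_one_iff b).2 hb, one_mul, one_mul, commutatorElement_eq_one_iff_mul_comm]
        show ((g : G ⧸ N)) ^ i * ((g : G ⧸ N)) ^ j = _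
        rw [← zpow_add, add_comm, zpow_add]
        rfl
    refine Pool.Agent.Y529.FJ.t_ext C hC _ N ?_ hQ fun g _ => key g
    exact C_le hC.base le_sup_left (key 1)

section series

variable {G : Type} [Group G]

/-- the rational derived series -/
def Rd (B : Subgroup G) : ℕ → Subgroup G
  | 0 => B
  | n + 1 => rc (Rd B n)

theorem Rd_succ (B : Subgroup G) (n : ℕ) : Rd B (n + 1) = rc (Rd B n) := rfl

theorem Rd_le (B : Subgroup G) (n : ℕ) : Rd B n ≤ B := by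
  induction n with
  | zero => exact le_rfl
  | succ n ih => exact (rc_le _).trans ih

theorem rc_mono {A B : Subgroup G} (h : A ≤ B) : rc A ≤ rc B := by
  rintro x ⟨hx, m, hm, hx'⟩
  exact ⟨h hx, m, hm, Subgroup.commutator_mono h h hx'⟩

theorem Rd_mono {A B : Subgroup G} (h : A ≤ B) (n : ℕ) : Rd A n ≤ Rd B n := by
  induction n with
  | zero => exact h
  | succ n ih => exact rc_mono ih

/-- the terms of the rational derived series are isolated -/
theorem Rd_root {B : Subgroup G} {x : G} (hx : x ∈ B) {m : ℕ} (hm : m ≠ 0) :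
    ∀ n : ℕ, x ^ m ∈ Rd B n → x ∈ Rd B n := by
  intro n
  induction n with
  | zero => exact fun _ => hx
  | succ n ih =>
    rintro ⟨h1, k, hk, h2⟩
    refine ⟨ih h1, m * k, mul_ne_zero hm hk, ?_⟩
    rwa [pow_mul]

theorem Rd_root' {B : Subgroup G} {x : G} (hx : x ∈ B) {m : ℤ} (hm : m ≠ 0) {n : ℕ}
    (h : x ^ m ∈ Rd B n) : x ∈ Rd B n := by
  refine Rd_root hx (Int.natAbs_ne_zero.2 hm) n ?_
  rcases natAbs_zpow x m with h1 | h1
  · rwa [h1]
  · rw [h1]
    exact inv_mem h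

theorem rc_conj {B : Subgroup G} {g : G} (h : ∀ x ∈ B, g * x * g⁻¹ ∈ B) :
    ∀ x ∈ rc B, g * x * g⁻¹ ∈ rc B := by
  rintro x ⟨hx, m, hm, hx'⟩
  refine ⟨h x hx, m, hm, ?_⟩
  rw [conj_pow]
  have h1 : B.map (MulAut.conj g).toMonoidHom ≤ B := by
    rintro _ ⟨y, hy, rfl⟩
    exact h y hy
  have h2 : g * x ^ m * g⁻¹ ∈ (⁅B, B⁆).map (MulAut.conj g).toMonoidHom := ⟨_, hx', rfl⟩
  rw [Subgroup.map_commutator] at h2
  exact Subgroup.commutator_mono h1 h1 h2

theorem Rd_conj {B : Subgroup G} {g : G} (h : ∀ x ∈ B, g * x * g⁻¹ ∈ B) (n : ℕ) :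
    ∀ x ∈ Rd B n, g * x * g⁻¹ ∈ Rd B n := by
  induction n with
  | zero => exact h
  | succ n ih => exact rc_conj ih

/-- the elements of `S` which commute with some power `t ^ m`, `m ≠ 0` -/
def Vz (t : G) (S : Subgroup G) : Subgroup G where
  carrier := {g | g ∈ S ∧ ∃ m : ℤ, m ≠ 0 ∧ g * t ^ m = t ^ m * g}
  one_mem' := ⟨one_mem _, 1, one_ne_zero, by rw [one_mul, mul_one]⟩
  mul_mem' := by
    rintro a b ⟨ha, m, hm, h⟩ ⟨hb, n, hn, h'⟩
    refine ⟨mul_mem ha hb, m * n, mul_ne_zero hm hn, ?_⟩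
    have h1 : Commute a (t ^ m) := h
    have h2 : Commute b (t ^ n) := h'
    have h3 : Commute a (t ^ (m * n)) := by
      rw [zpow_mul]
      exact h1.zpow_right n
    have h4 : Commute b (t ^ (m * n)) := by
      rw [mul_comm, zpow_mul]
      exact h2.zpow_right m
    exact h3.mul_left h4
  inv_mem' := by
    rintro a ⟨ha, m, hm, h⟩
    refine ⟨inv_mem ha, m, hm, ?_⟩
    have h1 : Commute a (t ^ m) := h
    exact h1.inv_left

theorem mem_Vz {t g : G} {S : Subgroup G} :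
    g ∈ Vz t S ↔ g ∈ S ∧ ∃ m : ℤ, m ≠ 0 ∧ g * t ^ m = t ^ m * g := Iff.rfl

theorem Vz_le (t : G) (S : Subgroup G) : Vz t S ≤ S := fun _ h => h.1

/-- `g` commensurates the group generated by `t` -/
def Cs (t g : G) : Prop := ∃ m n : ℤ, m ≠ 0 ∧ n ≠ 0 ∧ g * t ^ m * g⁻¹ = t ^ n

theorem Cs.inv {t g : G} (h : Cs t g) : Cs t g⁻¹ := by
  obtain ⟨m, n, hm, hn, h⟩ := h
  refine ⟨n, m, hn, hm, ?_⟩
  rw [← h]
  group

theorem Cs.pow {t g : G} {m n : ℤ} (h : g * t ^ m * g⁻¹ = t ^ n) (k : ℤ) :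
    g * t ^ (m * k) * g⁻¹ = t ^ (n * k) := by
  have h1 : (g * t ^ m * g⁻¹) ^ k = g * (t ^ m) ^ k * g⁻¹ := conj_zpow
  rw [zpow_mul, ← h1, h, ← zpow_mul]

theorem Vz_conj {t g x : G} {S : Subgroup G} (hg : g ∈ S) (hgt : Cs t g) (hx : x ∈ Vz t S) :
    g * x * g⁻¹ ∈ Vz t S := by
  obtain ⟨m, n, hm, hn, h⟩ := hgt
  obtain ⟨hxS, k, hk, hxk⟩ := hx
  refine ⟨mul_mem (mul_mem hg hxS) (inv_mem hg), n * k, mul_ne_zero hn hk, ?_⟩
  have h1 := Cs.pow h k
  have h2 : Commute x (t ^ (m * k)) := by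
    rw [mul_comm, zpow_mul]
    exact Commute.zpow_right hxk m
  rw [← h1]
  have h3 : g * x * g⁻¹ * (g * t ^ (m * k) * g⁻¹) = g * (x * t ^ (m * k)) * g⁻¹ := by group
  have h4 : g * t ^ (m * k) * g⁻¹ * (g * x * g⁻¹) = g * (t ^ (m * k) * x) * g⁻¹ := by group
  rw [h3, h4, h2.eq]

/-- commutators of commensurating elements -/
theorem comm_Vz {t a b : G} {S : Subgroup G} (ha : a ∈ S) (hb : b ∈ S) (hat : Cs t a)
    (hbt : Cs t b) : ⁅a, b⁆ ∈ Vz t S := by
  obtain ⟨m, n, hm, hn, h⟩ := hat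
  obtain ⟨m', n', hm', hn', h'⟩ := hbt
  refine ⟨?_, n * n', mul_ne_zero hn hn', ?_⟩
  · rw [commutatorElement_def]
    exact mul_mem (mul_mem (mul_mem ha hb) (inv_mem ha)) (inv_mem hb)
  · have e1 : a * t ^ (m * n') * a⁻¹ = t ^ (n * n') := Cs.pow h n'
    have e2 : a * t ^ (m * m') * a⁻¹ = t ^ (n * m') := Cs.pow h m'
    have e3 : b * t ^ (m' * m) * b⁻¹ = t ^ (n' * m) := Cs.pow h' m
    have e4 : b * t ^ (m' * n) * b⁻¹ = t ^ (n' * n) := Cs.pow h' n
    rw [commutatorElement_def, ← mul_inv_eq_iff_eq_mul]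
    have e5 : b⁻¹ * t ^ (n * n') * b = t ^ (n * m') := by
      rw [mul_comm n n', ← e4, mul_comm m' n]
      group
    have e6 : a⁻¹ * t ^ (n * m') * a = t ^ (m * m') := by
      rw [← e2]
      group
    calc a * b * a⁻¹ * b⁻¹ * t ^ (n * n') * (a * b * a⁻¹ * b⁻¹)⁻¹
        = a * (b * (a⁻¹ * (b⁻¹ * t ^ (n * n') * b) * a) * b⁻¹) * a⁻¹ := by group
      _ = a * (b * (a⁻¹ * t ^ (n * m') * a) * b⁻¹) * a⁻¹ := by rw [e5]
      _ = a * (b * t ^ (m * m') * b⁻¹) * a⁻¹ := by rw [e6]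
      _ = a * t ^ (m * n') * a⁻¹ := by rw [mul_comm m m', e3, mul_comm n' m]
      _ = t ^ (n * n') := e1

end series

end Run7.h371.FJ
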