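import Pool.Agent.Run7.h371.FJ.Ac
import Pool.Agent.N431.CE.Fin

/-!
# Groups acting on trees with normalized subgroups of finite index in the edge groups
-/

set_option autoImplicit false

namespace Run7.h371.FJ

open SimpleGraph
open Pool.Agent.N509.TK
open Pool.Agent.Y110.FJ
open Pool.Agent.N509.TX (AcylF C_edge C_stab STree fg_subtree of_fg)
open Pool.Agent.R941.FJ (C_equiv C_le C_cyc mem_sup_normal)
open Pool.Agent.N431.CE (Es Es_comm Es_smul mem_Es)

variable {C : ∀ (G : Type) [Group G], Prop}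
variable {G V : Type} [Group G] [MulAction G V] {T : SimpleGraph V}


theorem card_le_relIndex' {Q : Type} (Z E : Subgroup G) (h : Z.relIndex E ≠ 0) (F : Finset Q)
    (g : Q → G) (hg : ∀ q ∈ F, g q ∈ E)
    (hinj : ∀ q ∈ F, ∀ q' ∈ F, (g q)⁻¹ * g q' ∈ Z → q = q') : F.card ≤ Z.relIndex E := by
  classical
  have hfi : (Z.subgroupOf E).FiniteIndex := ⟨h⟩
  have hfin : Finite (E ⧸ Z.subgroupOf E) := Subgroup.finite_quotient_of_finiteIndex
  have h2 : Nat.card (E ⧸ Z.subgroupOf E) = Z.relIndex E := rfl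
  have h3 : Nat.card F = F.card := by
    rw [Nat.card_eq_fintype_card, Fintype.card_coe]
  rw [← h2, ← h3]
  refine Nat.card_le_card_of_injective
    (fun q : F => (QuotientGroup.mk (⟨g q, hg q q.2⟩ : E) : E ⧸ Z.subgroupOf E)) ?_
  intro q q' hqq
  have h4 := QuotientGroup.eq.1 hqq
  exact Subtype.ext (hinj q q.2 q' q'.2 h4)

/-- for every finite set `F` of elements and finitely many edges there is a subgroup `Z` which is
normalized by `F`, contained with finite index in the stabilizers of the edges, and such that `Z ⟨g⟩`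
is in `C` for all elements `g` of the group generated by `F` -/
def Nz (C : ∀ (G : Type) [Group G], Prop) (G : Type) {V : Type} [Group G] [MulAction G V]
    (T : SimpleGraph V) : Prop :=
  ∀ (F : Finset G) (Φ : Finset (V × V)), (∀ e ∈ Φ, T.Adj e.1 e.2) →
    ∃ Z : Subgroup G, (∀ e ∈ Φ, Z ≤ Es G e.1 e.2 ∧ Z.relIndex (Es G e.1 e.2) ≠ 0) ∧
      (∀ g ∈ F, ∀ z ∈ Z, g * z * g⁻¹ ∈ Z ∧ g⁻¹ * z * g ∈ Z) ∧
      ∀ g ∈ Subgroup.closure (F : Set G), C ↥(Z ⊔ Subgroup.zpowers g)

theorem unim (hC : ClosedE C) (hA : AcylR C) (hT : T.IsTree)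
    (hact : ∀ (g : G) (u v : V), T.Adj u v → T.Adj (g • u) (g • v))
    (hV : ∀ v : V, C ↥(MulAction.stabilizer G v)) (hN : Nz C G T) : C G := by
  classical
  refine of_fg hC fun H hfg => ?_
  obtain ⟨S, hS⟩ := (Group.fg_iff_subgroup_fg H).1 hfg
  obtain ⟨o⟩ := hT.connected.nonempty
  have hactH : ∀ (g : H) (u v : V), T.Adj u v → T.Adj (g • u) (g • v) := fun g u v h => hact g u v h
  obtain ⟨W, _, T', ι, Φ, hst, -, hΦ, htr⟩ := fg_subtree (G := H) hT hactH hfg o
  obtain ⟨Z, hZ1, hZ2, hZ3⟩ := hN S Φ hΦ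
  have hnorm : ∀ h ∈ H, ∀ z : G, z ∈ Z ↔ h * z * h⁻¹ ∈ Z := by
    have h1 : H ≤ Subgroup.normalizer (Z : Set G) := by
      rw [← hS, Subgroup.closure_le]
      intro g hg
      rw [SetLike.mem_coe, Subgroup.mem_normalizer_iff]
      intro z
      constructor
      · exact fun hz => (hZ2 g hg z hz).1
      · intro hz
        have h2 := (hZ2 g hg _ hz).2
        have h3 : g⁻¹ * (g * z * g⁻¹) * g = z := by group
        rwa [h3] at h2
    intro h hh z
    exact Subgroup.mem_normalizer_iff.1 (h1 hh) z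
  obtain ⟨N, hNd⟩ : ∃ N : Subgroup H, N = Z.subgroupOf H := ⟨_, rfl⟩
  have hmN : ∀ x : H, x ∈ N ↔ (x : G) ∈ Z := by
    intro x
    rw [hNd, Subgroup.mem_subgroupOf]
  have hNn : N.Normal := by
    refine ⟨fun x hx g => ?_⟩
    rw [hmN] at hx ⊢
    exact (hnorm g g.2 _).1 hx
  -- edges of the subtree
  have hedge : ∀ x y, T'.Adj x y → ∃ k : H, ∃ e ∈ Φ, ∀ h : H, h • x = x → h • y = y →
      (k : G) * h * (k : G)⁻¹ ∈ Es G e.1 e.2 := by
    intro x y hxy
    obtain ⟨k, hk⟩ := htr x y hxy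
    have hfix : ∀ h : H, h • x = x → h • y = y →
        ((k : G) * h * (k : G)⁻¹) • (k : G) • ι x = (k : G) • ι x ∧
        ((k : G) * h * (k : G)⁻¹) • (k : G) • ι y = (k : G) • ι y := by
      intro h hx hy
      have hx' : (h : G) • ι x = ι x := (hst.eqv h x).symm.trans (congrArg ι hx)
      have hy' : (h : G) • ι y = ι y := (hst.eqv h y).symm.trans (congrArg ι hy)
      rw [mul_smul, mul_smul, inv_smul_smul, hx', mul_smul, mul_smul, inv_smul_smul, hy']
      exact ⟨rfl, rfl⟩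
    rcases hk with hk | hk
    · exact ⟨k, _, hk, fun h hx hy => ⟨(hfix h hx hy).1, (hfix h hx hy).2⟩⟩
    · exact ⟨k, _, hk, fun h hx hy => ⟨(hfix h hx hy).2, (hfix h hx hy).1⟩⟩
  have hZfix : ∀ x y, T'.Adj x y → ∀ h : H, (h : G) ∈ Z → h • x = x := by
    intro x y hxy h hh
    obtain ⟨k, hk⟩ := htr x y hxy
    have h1 := (hnorm k k.2 _).1 hh
    have h2 : ∀ a : V, ((k : G) * h * (k : G)⁻¹) • (k : G) • a = (k : G) • a → (h : G) • a = a := by
      intro a ha
      rw [mul_smul, mul_smul, inv_smul_smul] at ha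
      exact smul_left_cancel _ ha
    refine hst.inj ((hst.eqv h x).trans ?_)
    rcases hk with hk | hk
    · exact h2 _ ((hZ1 _ hk).1 h1).1
    · exact h2 _ ((hZ1 _ hk).1 h1).2
  have htriv : ∀ h : H, (QuotientGroup.mk' N) h = 1 → ∀ w : W, h • w = w := by
    intro h hh w
    have hh : (h : G) ∈ Z := (hmN h).1 ((QuotientGroup.eq_one_iff h).1 hh)
    by_cases hw : h • w = w
    · exact hw
    · obtain ⟨a, ha⟩ := St_exists hst.tree (p := w) (x := h • w) (fun h1 => hw h1.symm)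
      exact hZfix w a ha.1 h hh
  obtain ⟨n, hn⟩ : ∃ n : ℕ, ∀ e ∈ Φ, Z.relIndex (Es G e.1 e.2) ≤ n :=
    ⟨∑ e ∈ Φ, Z.relIndex (Es G e.1 e.2), fun e he =>
      Finset.single_le_sum (f := fun e : V × V => Z.relIndex (Es G e.1 e.2))
        (fun i _ => Nat.zero_le _) he⟩
  have hfgQ : Group.FG (H ⧸ N) :=
    Group.fg_of_surjective (f := QuotientGroup.mk' N) (QuotientGroup.mk'_surjective N)
  refine finedgeR (G := H) (V := W) (T := T') hA hC (QuotientGroup.mk' N)
    (QuotientGroup.mk'_surjective N) hfgQ hst.tree hst.act n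
    htriv ?_ ?_ ?_
  · intro x y hxy F hF
    obtain ⟨k, e, he, hk⟩ := hedge x y hxy
    have hex : ∀ q : H ⧸ N, ∃ g : H, q ∈ F →
        (QuotientGroup.mk' N g = q ∧ g • x = x ∧ g • y = y) := by
      intro q
      by_cases hq : q ∈ F
      · obtain ⟨g, hg⟩ := hF q hq
        exact ⟨g, fun _ => hg⟩
      · exact ⟨1, fun h => absurd h hq⟩
    choose g hg using hex
    refine le_trans (card_le_relIndex' Z (Es G e.1 e.2) (hZ1 e he).2 F
      (fun q => (k : G) * g q * (k : G)⁻¹) ?_ ?_) (hn e he)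
    · intro q hq
      exact hk _ (hg q hq).2.1 (hg q hq).2.2
    · intro q hq q' hq' h1
      rw [← (hg q hq).1, ← (hg q' hq').1]
      refine QuotientGroup.eq.2 ?_
      rw [hmN]
      have h2 : ((k : G) * g q * (k : G)⁻¹)⁻¹ * ((k : G) * g q' * (k : G)⁻¹) =
          (k : G) * ((g q : G)⁻¹ * g q') * (k : G)⁻¹ := by group
      rw [h2] at h1
      exact (hnorm k k.2 _).2 h1
  · intro w
    rw [hst.stab]
    exact C_stab hC H _ (hV _)
  · intro q
    obtain ⟨h, rfl⟩ := QuotientGroup.mk'_surjective N q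
    have h1 := hZ3 h (by rw [hS]; exact h.2)
    have h2 : (Subgroup.zpowers (QuotientGroup.mk' N h)).comap (QuotientGroup.mk' N) =
        N ⊔ Subgroup.zpowers h := by
      rw [← MonoidHom.map_zpowers, Subgroup.comap_map_eq, QuotientGroup.ker_mk', sup_comm]
    rw [h2]
    refine hC.base.of_injective _ _ ((H.subtype.comp (Subgroup.subtype
      (N ⊔ Subgroup.zpowers h))).codRestrict (Z ⊔ Subgroup.zpowers (h : G)) ?_) ?_ h1
    · rintro ⟨z, hz⟩
      have h3 : N ⊔ Subgroup.zpowers h ≤ (Z ⊔ Subgroup.zpowers (h : G)).comap H.subtype := by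
        refine sup_le ?_ ?_
        · intro z hz
          exact Subgroup.mem_sup_left ((hmN z).1 hz)
        · rw [Subgroup.zpowers_le]
          exact Subgroup.mem_sup_right (Subgroup.mem_zpowers _)
      exact h3 hz
    · intro a b hab
      have h3 := congrArg Subtype.val hab
      exact Subtype.ext (Subtype.ext h3)

end Run7.h371.FJ
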