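import Pool.Agent.Run7.h371.FJ.Be
import Pool.Agent.Run7.h371.FJ.Un

/-!
# The general theorem on isolated edge groups
-/

set_option autoImplicit false

namespace Run7.h371.FJ

open SimpleGraph
open Subgroup
open Subgroup.Commensurable (commensurator)
open Pool.Agent.N509.TK
open Pool.Agent.Y110.FJ
open Pool.Agent.N509.TX (AcylF C_edge C_stab STree cyl_subtree)
open Pool.Agent.R941.FJ (C_equiv C_le C_cyc mem_sup_normal)
open Pool.Agent.N431.CE (Es Es_comm Es_smul rf rf_LR Rf Rf_gen cylF mem_Es mem_comm_iff le_comm)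

variable {C : ∀ (G : Type) [Group G], Prop}
variable {G V : Type} [Group G] [MulAction G V] {T : SimpleGraph V}

/-- finitely many elements of the commensurator of the edge group `E` normalize a subgroup `Z` of
finite index in finitely many given groups commensurable to `E`, and the groups `Z ⟨g⟩` are in `C` -/
def Nm (C : ∀ (G : Type) [Group G], Prop) (G : Type) [Group G] (E : Subgroup G) : Prop :=
  ∀ (F : Finset G) (Φ : Finset (Subgroup G)), (∀ g ∈ F, g ∈ commensurator E) →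
    (∀ A ∈ Φ, Commensurable A E) →
    ∃ Z : Subgroup G, (∀ A ∈ Φ, Z ≤ A ∧ Z.relIndex A ≠ 0) ∧
      (∀ g ∈ F, ∀ z ∈ Z, g * z * g⁻¹ ∈ Z ∧ g⁻¹ * z * g ∈ Z) ∧
      ∀ g ∈ Subgroup.closure (F : Set G), C ↥(Z ⊔ Subgroup.zpowers g)

/-- `E` has a generator `t` (up to finite index) of infinite order with unique roots in the vertex
groups, and all elements of the edge groups commensurable to `E` are commensurable to `t` -/
def Al (G : Type) {V : Type} [Group G] [MulAction G V] (T : SimpleGraph V) (E : Subgroup G) : Prop :=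
  ∃ t ∈ E, Io t ∧ (Subgroup.zpowers t).relIndex E ≠ 0 ∧ (∀ w : V, Ur t (MulAction.stabilizer G w)) ∧
    ∀ v u : V, T.Adj v u → Commensurable (Es G v u) E → ∀ x ∈ Es G v u, Cm t x

theorem cylNm (hC : ClosedE C) (hA : AcylR C)
    (hT : T.IsTree) (hact : ∀ (g : G) (u v : V), T.Adj u v → T.Adj (g • u) (g • v))
    (hV : ∀ v : V, C ↥(MulAction.stabilizer G v)) (y : Cyl T (rf G)) (K : Subgroup G)
    (hK : ∀ g ∈ K, Pres hact y g) {v u : V} (h : T.Adj v u) (hy : cy (rf G) h = y)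
    (hN : Nm C G (Es G v u)) : C K := by
  classical
  obtain ⟨W, _, T', ι, hst, hcy⟩ := cyl_subtree hT hact rf_LR y K hK
  refine unim (G := K) (V := W) (T := T') hC hA hst.tree hst.act ?_ ?_
  · intro w
    rw [hst.stab]
    exact C_stab hC K _ (hV _)
  intro F Φ hΦ
  obtain ⟨Z, hZ1, hZ2, hZ3⟩ := hN (F.image Subtype.val) (Φ.image fun e => Es G (ι e.1) (ι e.2))
    (by
      intro g hg
      obtain ⟨g', _, rfl⟩ := Finset.mem_image.1 hg
      exact cy_le hact hK h hy g'.2)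
    (by
      intro A hAm
      obtain ⟨e, he, rfl⟩ := Finset.mem_image.1 hAm
      have h1 := hst.adj _ _ (hΦ e he)
      exact cy_comm h h1 (hy.trans (hcy _ _ (hΦ e he) h1).symm))
  refine ⟨Z.subgroupOf K, ?_, ?_, ?_⟩
  · intro e he
    obtain ⟨h1, h2⟩ := hZ1 _ (Finset.mem_image_of_mem _ he)
    refine ⟨?_, ?_⟩
    · intro x hx
      have h3 := h1 (Subgroup.mem_subgroupOf.1 hx)
      exact ⟨hst.fix.2 h3.1, hst.fix.2 h3.2⟩
    · have h3 : (Z.subgroupOf K).relIndex (Es K e.1 e.2) =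
          Z.relIndex ((Es K e.1 e.2).map K.subtype) := Subgroup.relIndex_comap Z K.subtype _
      rw [h3]
      intro h0
      refine h2 (Subgroup.relIndex_eq_zero_of_le_right ?_ h0)
      rintro _ ⟨x, hx, rfl⟩
      exact ⟨hst.fix.1 hx.1, hst.fix.1 hx.2⟩
  · intro g hg z hz
    exact hZ2 g (Finset.mem_image_of_mem _ hg) z hz
  · intro g hg
    have h1 : (g : G) ∈ Subgroup.closure ((F.image Subtype.val : Finset G) : Set G) := by
      rw [Finset.coe_image]
      have h2 : (g : G) ∈ (Subgroup.closure (F : Set K)).map K.subtype := ⟨g, hg, rfl⟩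
      rw [MonoidHom.map_closure] at h2
      exact h2
    refine hC.base.of_injective _ _ ((K.subtype.comp (Subgroup.subtype
      (Z.subgroupOf K ⊔ Subgroup.zpowers g))).codRestrict (Z ⊔ Subgroup.zpowers (g : G)) ?_) ?_
      (hZ3 g h1)
    · rintro ⟨z, hz⟩
      have h3 : Z.subgroupOf K ⊔ Subgroup.zpowers g ≤
          (Z ⊔ Subgroup.zpowers (g : G)).comap K.subtype := by
        refine sup_le ?_ ?_
        · intro z hz
          exact Subgroup.mem_sup_left (Subgroup.mem_subgroupOf.1 hz)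
        · rw [Subgroup.zpowers_le]
          exact Subgroup.mem_sup_right (Subgroup.mem_zpowers _)
      exact h3 hz
    · intro a b hab
      have h3 := congrArg Subtype.val hab
      exact Subtype.ext (Subtype.ext h3)

/-- elements of the commensurator of `E` commensurate `t` -/
theorem Cs_of_comm {E : Subgroup G} {t g : G} (htE : t ∈ E) (ht : Io t)
    (hi : (Subgroup.zpowers t).relIndex E ≠ 0) (hg : g ∈ commensurator E) : Cs t g := by
  rw [Pool.Agent.N431.CE.mem_comm_iff] at hg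
  have h1 : g * t * g⁻¹ ∈ E.map (MulAut.conj g).toMonoidHom := ⟨t, htE, rfl⟩
  obtain ⟨n, hn, -, h2⟩ := Subgroup.exists_pow_mem_of_relIndex_ne_zero hg.2 h1
  obtain ⟨m, hm, -, h3⟩ := Subgroup.exists_pow_mem_of_relIndex_ne_zero hi h2.1
  obtain ⟨j, hj⟩ := h3.1
  have hj : t ^ j = ((g * t * g⁻¹) ^ n) ^ m := hj
  have h4 : ((g * t * g⁻¹) ^ n) ^ m = g * t ^ ((n * m : ℕ) : ℤ) * g⁻¹ := by
    rw [← pow_mul, conj_pow, zpow_natCast]
  have hnm : ((n * m : ℕ) : ℤ) ≠ 0 := by
    exact_mod_cast mul_ne_zero hn.ne' hm.ne'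
  refine ⟨_, j, hnm, ?_, (hj.trans h4).symm⟩
  rintro rfl
  rw [zpow_zero, h4] at hj
  refine ht _ hnm ?_
  have h5 : t ^ ((n * m : ℕ) : ℤ) = g⁻¹ * (g * t ^ ((n * m : ℕ) : ℤ) * g⁻¹) * g := by group
  rw [h5, ← hj]
  group

/-- an infinite order element of a commensurable group -/
theorem pow_of_comm {E A : Subgroup G} {t : G} (htE : t ∈ E) (hAE : Commensurable A E) :
    ∃ m : ℕ, m ≠ 0 ∧ t ^ m ∈ A := by
  obtain ⟨n, hn, -, h2⟩ := Subgroup.exists_pow_mem_of_relIndex_ne_zero hAE.1 htE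
  exact ⟨n, hn.ne', h2.1⟩

theorem cylAl (hC : ClosedE C) (hM : ∀ (G : Type) [Group G], derivedSeries G 2 = ⊥ → C G)
    (hA : AcylR C)
    (hT : T.IsTree) (hact : ∀ (g : G) (u v : V), T.Adj u v → T.Adj (g • u) (g • v))
    (hV : ∀ v : V, C ↥(MulAction.stabilizer G v)) (y : Cyl T (rf G)) (K : Subgroup G)
    (hK : ∀ g ∈ K, Pres hact y g) {v u : V} (h : T.Adj v u) (hy : cy (rf G) h = y)
    (hal : Al G T (Es G v u)) : C K := by
  obtain ⟨t, htE, ht, hi, hU, hcm⟩ := hal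
  -- the stabilizer of the cylinder
  let _ := cyAct hact (rf_LR (G := G) (T := T))
  obtain ⟨K', hK'⟩ : ∃ K' : Subgroup G, K' = MulAction.stabilizer G y := ⟨_, rfl⟩
  have hcys : ∀ (g : G) {v a : V} (h : T.Adj v a), g • (cy (rf G) h) = cy (rf G) (hact g v a h) :=
    fun g {v a} h => rfl
  have hpres : ∀ g : G, g ∈ K' ↔ Pres hact y g := by
    intro g
    rw [hK', MulAction.mem_stabilizer_iff]
    constructor
    · intro h1 v a h2 hya
      rw [← hcys g h2, hya, h1]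
    · intro h1
      have h2 := h1 v u h hy
      rw [← hcys g h, hy] at h2
      exact h2
  refine C_le hC.base (H := K) (K := K') (fun g hg => (hpres g).2 (hK g hg)) ?_
  have hKp : ∀ g ∈ K', Pres hact y g := fun g hg => (hpres g).1 hg
  have htK : t ∈ K' := by
    rw [hK', MulAction.mem_stabilizer_iff, ← hy, hcys]
    exact cy_congr _ _ htE.1 htE.2
  obtain ⟨W, _, T', ι, hst, hcy⟩ := cyl_subtree hT hact rf_LR y K' hKp
  refine alph0 (G := K') (V := W) (T := T') hC hM hA hst.tree hst.act ?_ ⟨t, htK⟩ ?_ ?_ ?_ ?_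
  · intro w
    rw [hst.stab]
    exact C_stab hC K' _ (hV _)
  · intro k hk h1
    exact ht k hk (congrArg Subtype.val h1)
  · intro g
    obtain ⟨m, n, hm, hn, h1⟩ := Cs_of_comm htE ht hi (cy_le hact hKp h hy g.2)
    exact ⟨m, n, hm, hn, Subtype.ext h1⟩
  · intro x z hxz
    have h1 := hst.adj _ _ hxz
    have h2 : Commensurable (Es G (ι x) (ι z)) (Es G v u) :=
      cy_comm h h1 (hy.trans (hcy _ _ hxz h1).symm)
    refine ⟨?_, ?_⟩
    · intro k hkx hkz
      rcases hcm _ _ h1 h2 k ⟨hst.fix.1 hkx, hst.fix.1 hkz⟩ with h3 | ⟨a, b, ha, hb, h3⟩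
      · exact Or.inl (Subtype.ext h3)
      · exact Or.inr ⟨a, b, ha, hb, Subtype.ext h3⟩
    · obtain ⟨m, hm, h3⟩ := pow_of_comm htE h2
      have h3x : ((⟨t, htK⟩ : K') ^ m) • ι x = ι x := h3.1
      have h3z : ((⟨t, htK⟩ : K') ^ m) • ι z = ι z := h3.2
      refine ⟨⟨t, htK⟩ ^ m, hst.fix.2 h3x, hst.fix.2 h3z, fun h4 => ?_⟩
      have h5 : t ^ m = 1 := congrArg Subtype.val h4
      exact ht m (by exact_mod_cast hm) (by rwa [zpow_natCast])
  · intro w x hx z hz hxt m hm hxz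
    have h1 : ∃ a b : ℤ, a ≠ 0 ∧ b ≠ 0 ∧ (x : G) ^ a = t ^ b := by
      obtain ⟨a, b, ha, hb, h3⟩ := hxt
      exact ⟨a, b, ha, hb, congrArg Subtype.val h3⟩
    exact Subtype.ext (hU (ι w) x (hst.fix.1 hx) z (hst.fix.1 hz) h1 m hm (congrArg Subtype.val hxz))

/-- **the general theorem on isolated edge groups** -/
theorem general (hC : ClosedE C) (hM : ∀ (G : Type) [Group G], derivedSeries G 2 = ⊥ → C G)
    (hA : AcylR C) (hT : T.IsTree) (hact : ∀ (g : G) (u v : V), T.Adj u v → T.Adj (g • u) (g • v))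
    (hV : ∀ v : V, C ↥(MulAction.stabilizer G v)) (n : ℕ)
    (hint : ∀ v a b, T.Adj v a → T.Adj v b → a ≠ b →
      (Infinite (Es G v a) ∧ Infinite (Es G v b) ∧ Commensurable (Es G v a) (Es G v b)) ∨
      ∀ F : Finset G, (∀ g ∈ F, g ∈ Es G v a ∧ g ∈ Es G v b) → F.card ≤ n)
    (hE : ∀ v u : V, T.Adj v u → Infinite (Es G v u) →
      Nm C G (Es G v u) ∨ Al G T (Es G v u) ∨ Ec C G T v u) : C G := by
  refine cylF hC (hA.acylF hC) hT hact (rf_LR (T := T)) n ?_ hV fun y K hK => ?_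
  · intro w a b ha hb hab F hF
    rcases hint w a b ha hb (fun h => hab (Or.inl h)) with h | h
    · exact absurd (Or.inr h) hab
    · exact h F fun g hg => ⟨⟨(hF g hg).1, (hF g hg).2.1⟩, ⟨(hF g hg).1, (hF g hg).2.2⟩⟩
  obtain ⟨⟨⟨v0, a0⟩, h0⟩, hy⟩ := Quotient.exists_rep y
  have h0 : T.Adj v0 a0 := h0
  have hy : cy (rf G) h0 = y := hy
  by_cases hinf : Infinite (Es G v0 a0)
  · by_cases h1 : ∃ (v u : V) (h : T.Adj v u), cy (rf G) h = y ∧ Nm C G (Es G v u)
    · obtain ⟨v, u, h, hy', hN⟩ := h1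
      exact cylNm hC hA hT hact hV y K hK h hy' hN
    by_cases h2 : ∃ (v u : V) (h : T.Adj v u), cy (rf G) h = y ∧ Al G T (Es G v u)
    · obtain ⟨v, u, h, hy', hN⟩ := h2
      exact cylAl hC hM hA hT hact hV y K hK h hy' hN
    refine cylEc hC hM hT hact hV y K hK fun v u h hy' => ?_
    rcases hE v u h ((cy_Rf h0 h (hy.trans hy'.symm)).inf hinf) with h3 | h3 | h3
    · exact absurd ⟨v, u, h, hy', h3⟩ h1
    · exact absurd ⟨v, u, h, hy', h3⟩ h2
    · exact h3
  · subst hy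
    refine C_edge hC v0 a0 (hV v0) K fun g hg => ?_
    have h1 := hK g hg v0 a0 h0 rfl
    rcases Rf_gen (p := dt (hact g v0 a0 h0)) (q := dt h0) (Quotient.exact h1) with
      (h | h) | ⟨_, h, _⟩
    · exact Or.inl ⟨(congrArg Prod.fst h).symm, (congrArg Prod.snd h).symm⟩
    · exact Or.inr ⟨(congrArg Prod.snd h).symm, (congrArg Prod.fst h).symm⟩
    · exact absurd h hinf

end Run7.h371.FJ
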