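import Pool.Agent.Run7.h371.FJ.Rt

/-!
# Groups acting on trees with virtually cyclic edge groups
-/

set_option autoImplicit false

namespace Run7.h371.FJ

open SimpleGraph
open Subgroup
open Subgroup.Commensurable (commensurator)
open scoped commutatorElement
open Pool.Agent.N509.TK
open Pool.Agent.Y110.FJ
open Pool.Agent.N509.TX (AcylF C_edge C_stab STree fg_subtree of_fg)
open Pool.Agent.R941.FJ (C_equiv C_le C_cyc mem_sup_normal)
open Pool.Agent.N431.CE (Es Es_comm Es_smul rf rf_LR Rf Rf_gen cylF mem_Es le_comm)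

variable {C : ∀ (G : Type) [Group G], Prop}
variable {G V : Type} [Group G] [MulAction G V] {T : SimpleGraph V}

/-- the edge groups which contain a nontrivial power of `x` are torsion-free -/
def Tfx (T : SimpleGraph V) (x : G) : Prop :=
  ∀ v u : V, T.Adj v u → (∃ k : ℤ, k ≠ 0 ∧ x ^ k ∈ Es G v u) →
    ∀ y ∈ Es G v u, ∀ m : ℕ, m ≠ 0 → y ^ m = 1 → y = 1

/-- the conditions on an element `x` of infinite order of an edge group at `v`: it is balanced; or the
edge groups which contain a nontrivial power of `x` are torsion-free, and the roots of the elements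
commensurable to `x` in the vertex groups are unique or `x` is not in all terms of the rational
derived series of the group of the elements of the stabilizer of `v` which commute with nontrivial
powers of `x` -/
def Gd' (T : SimpleGraph V) (v : V) (x : G) : Prop :=
  Bl x ∨ (Tfx T x ∧ ((∀ w : V, Ur x (MulAction.stabilizer G w)) ∨
    ∃ n, x ∉ Rd (Vz x (MulAction.stabilizer G v)) n))

/-- **virtually cyclic edge groups** -/
theorem cyclic (hC : ClosedE C) (hM : ∀ (G : Type) [Group G], derivedSeries G 2 = ⊥ → C G)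
    (hA : AcylR C) (hT : T.IsTree) (hact : ∀ (g : G) (u v : V), T.Adj u v → T.Adj (g • u) (g • v))
    (hV : ∀ v : V, C ↥(MulAction.stabilizer G v))
    (hvc : ∀ v u : V, T.Adj v u → Vcy (Es G v u))
    (hE : ∀ v u : V, T.Adj v u → ∀ x ∈ Es G v u, Io x → Gd' T v x) : C G := by
  classical
  refine of_fg hC fun H hfg => ?_
  obtain ⟨o⟩ := hT.connected.nonempty
  have hactH : ∀ (g : H) (u v : V), T.Adj u v → T.Adj (g • u) (g • v) := fun g u v h => hact g u v h
  obtain ⟨W, _, T', ι, Φ, hst, -, hΦ, htr⟩ := fg_subtree (G := H) hT hactH hfg o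
  -- edge groups of the subtree
  have hmemE : ∀ (x z : W) (h : H), h ∈ Es H x z ↔ (h : G) ∈ Es G (ι x) (ι z) := by
    intro x z h
    exact ⟨fun hh => ⟨hst.fix.1 hh.1, hst.fix.1 hh.2⟩, fun hh => ⟨hst.fix.2 hh.1, hst.fix.2 hh.2⟩⟩
  have hvcH : ∀ x z : W, T'.Adj x z → Vcy (Es H x z) := by
    intro x z hxz
    refine Vcy.of_map ((hvc _ _ (hst.adj _ _ hxz)).mono ?_)
    rintro _ ⟨h, hh, rfl⟩
    exact (hmemE x z h).1 hh
  have hbd : ∀ e : V × V, e ∈ Φ → ∃ n : ℕ, ∀ A : Subgroup G, A ≤ Es G e.1 e.2 → Finite A →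
      Nat.card A ≤ n := fun e he => (hvc _ _ (hΦ e he)).bound
  have hbd' : ∃ n : ℕ, ∀ e ∈ Φ, ∀ A : Subgroup G, A ≤ Es G e.1 e.2 → Finite A → Nat.card A ≤ n := by
    have hex : ∀ e : V × V, ∃ n : ℕ, e ∈ Φ → ∀ A : Subgroup G, A ≤ Es G e.1 e.2 → Finite A →
        Nat.card A ≤ n := by
      intro e
      by_cases he : e ∈ Φ
      · obtain ⟨n, hn⟩ := hbd e he
        exact ⟨n, fun _ => hn⟩
      · exact ⟨0, fun h => absurd h he⟩
    choose f hf using hex
    exact ⟨∑ e ∈ Φ, f e, fun e he A hA hfin => (hf e he A hA hfin).trans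
      (Finset.single_le_sum (f := f) (fun i _ => Nat.zero_le _) he)⟩
  obtain ⟨n, hn⟩ := hbd'
  have hcard : ∀ x z : W, T'.Adj x z → ∀ A : Subgroup H, A ≤ Es H x z → Finite A →
      Nat.card A ≤ n := by
    intro x z hxz A hAE hfin
    obtain ⟨k, hk⟩ := htr x z hxz
    obtain ⟨f, hf⟩ : ∃ f : H →* G, f = (MulAut.conj (k : G)).toMonoidHom.comp H.subtype := ⟨_, rfl⟩
    have hfi : Function.Injective f := by
      rw [hf]
      exact (MulAut.conj (k : G)).injective.comp H.subtype_injective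
    have hfx : ∀ h ∈ A, ∀ w : W, h • w = w → f h • (k : G) • ι w = (k : G) • ι w := by
      intro h _ w hw
      have h1 : (h : G) • ι w = ι w := hst.fix.1 hw
      rw [hf]
      show ((k : G) * h * (k : G)⁻¹) • (k : G) • ι w = _
      rw [mul_smul, inv_smul_smul, mul_smul, h1]
    have h1 : Nat.card A = Nat.card (A.map f) :=
      Nat.card_congr (A.equivMapOfInjective f hfi).toEquiv
    have h2 : Finite (A.map f) := Finite.of_equiv A (A.equivMapOfInjective f hfi).toEquiv
    rw [h1]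
    rcases hk with hk | hk
    · refine hn _ hk _ ?_ h2
      rintro _ ⟨h, hh, rfl⟩
      exact ⟨hfx h hh x (hAE hh).1, hfx h hh z (hAE hh).2⟩
    · refine hn _ hk _ ?_ h2
      rintro _ ⟨h, hh, rfl⟩
      exact ⟨hfx h hh z (hAE hh).2, hfx h hh x (hAE hh).1⟩
  refine general (G := H) (V := W) (T := T') hC hM hA hst.tree hst.act ?_ n ?_ ?_
  · intro w
    rw [hst.stab]
    exact C_stab hC H _ (hV _)
  · intro v a b ha hb _
    by_cases hI : Finite ((Es H v a ⊓ Es H v b : Subgroup H))
    · right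
      intro F hF
      refine le_trans ?_ (hcard v a ha _ inf_le_left hI)
      have h3 : Nat.card F = F.card := by
        rw [Nat.card_eq_fintype_card, Fintype.card_coe]
      rw [← h3]
      exact Nat.card_le_card_of_injective
        (fun g : F => (⟨g, (hF g g.2).1, (hF g g.2).2⟩ : (Es H v a ⊓ Es H v b : Subgroup H)))
        (fun g g' hgg => Subtype.ext (congrArg (fun z : (Es H v a ⊓ Es H v b : Subgroup H) =>
          (z : H)) hgg))
    · left
      rw [not_finite_iff_infinite] at hI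
      have h1 : Infinite (Es H v a) := Infinite.of_injective
        (Subgroup.inclusion (inf_le_left : Es H v a ⊓ Es H v b ≤ Es H v a))
        (Subgroup.inclusion_injective _)
      have h2 : Infinite (Es H v b) := Infinite.of_injective
        (Subgroup.inclusion (inf_le_right : Es H v a ⊓ Es H v b ≤ Es H v b))
        (Subgroup.inclusion_injective _)
      refine ⟨h1, h2, ?_, ?_⟩
      · have h3 := (hvcH v b hb).inf inf_le_right hI
        rwa [Subgroup.inf_relIndex_right] at h3
      · have h3 := (hvcH v a ha).inf inf_le_left hI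
        rwa [Subgroup.inf_relIndex_left] at h3
  · intro v u hvu hinf
    obtain ⟨s, hsE, hs, hi⟩ := (hvcH v u hvu).io hinf
    have hsG : Io (s : G) := by
      intro k hk h1
      exact hs k hk (Subtype.ext h1)
    have hTcm : Tfx T (s : G) → ∀ v' u' : W, T'.Adj v' u' →
        Commensurable (Es H v' u') (Es H v u) → ∀ x ∈ Es H v' u', Cm s x := by
      intro htf v' u' h' hcom x hx
      refine Cm_of_comm hi hcom hx fun m hm h1 => ?_
      obtain ⟨j, hj, h2⟩ := pow_of_comm hsE hcom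
      refine Subtype.ext (htf _ _ (hst.adj _ _ h') ⟨j, by exact_mod_cast hj, ?_⟩ x
        ((hmemE _ _ _).1 hx) m hm (congrArg Subtype.val h1))
      rw [zpow_natCast]
      exact (hmemE _ _ _).1 h2
    rcases hE _ _ (hst.adj _ _ hvu) s ((hmemE _ _ _).1 hsE) hsG with h1 | ⟨h1, h2 | h2⟩
    · left
      refine Nm_of_bal hM hsE hs hi ?_
      intro g m k hm h3
      exact h1 g m k hm (congrArg Subtype.val h3)
    · right
      left
      refine ⟨s, hsE, hs, hi, ?_, fun v' u' h' hcom => hTcm h1 v' u' h' hcom⟩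
      intro w x hx z hz hxs m hm h3
      have h4 : ∃ a b : ℤ, a ≠ 0 ∧ b ≠ 0 ∧ (x : G) ^ a = (s : G) ^ b := by
        obtain ⟨a, b, ha, hb, h3⟩ := hxs
        exact ⟨a, b, ha, hb, congrArg Subtype.val h3⟩
      exact Subtype.ext (h2 (ι w) x (hst.fix.1 hx) z (hst.fix.1 hz) h4 m hm (congrArg Subtype.val h3))
    · right
      right
      refine Ec_of_Rd hC hM hsE hs hi (fun w hw hcom => hTcm h1 v w hw hcom) ?_
      obtain ⟨j, hj⟩ := h2
      refine ⟨j, fun h3 => hj ?_⟩
      have h4 : (s : G) ∈ (Rd (Vz s (MulAction.stabilizer H v)) j).map H.subtype := ⟨s, h3, rfl⟩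
      have h5 := Rd_map H.subtype _ _ h4
      refine Rd_mono ?_ _ h5
      rintro _ ⟨x, ⟨hx, m, hm, hxm⟩, rfl⟩
      exact ⟨hst.fix.1 hx, m, hm, congrArg Subtype.val hxm⟩

/-- unique roots -/
def UR (S : Subgroup G) : Prop := ∀ x ∈ S, ∀ y ∈ S, ∀ m : ℕ, m ≠ 0 → x ^ m = y ^ m → x = y

theorem UR.tf {S : Subgroup G} (h : UR S) {x : G} (hx : x ∈ S) {m : ℕ} (hm : m ≠ 0)
    (h1 : x ^ m = 1) : x = 1 := h x hx 1 (one_mem _) m hm (by rw [h1, one_pow])

/-- balanced edge groups -/
theorem balanced (hC : ClosedE C) (hM : ∀ (G : Type) [Group G], derivedSeries G 2 = ⊥ → C G)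
    (hA : AcylR C) (hT : T.IsTree) (hact : ∀ (g : G) (u v : V), T.Adj u v → T.Adj (g • u) (g • v))
    (hV : ∀ v : V, C ↥(MulAction.stabilizer G v))
    (hvc : ∀ v u : V, T.Adj v u → Vcy (Es G v u))
    (hE : ∀ v u : V, T.Adj v u → ∀ x ∈ Es G v u, Io x → Bl x) : C G :=
  cyclic hC hM hA hT hact hV hvc fun v u h x hx hxi => Or.inl (hE v u h x hx hxi)

/-- vertex groups with unique roots -/
theorem unique_roots (hC : ClosedE C) (hM : ∀ (G : Type) [Group G], derivedSeries G 2 = ⊥ → C G)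
    (hA : AcylR C) (hT : T.IsTree) (hact : ∀ (g : G) (u v : V), T.Adj u v → T.Adj (g • u) (g • v))
    (hV : ∀ v : V, C ↥(MulAction.stabilizer G v))
    (hvc : ∀ v u : V, T.Adj v u → Vcy (Es G v u))
    (hU : ∀ v : V, UR (MulAction.stabilizer G v)) : C G := by
  refine cyclic hC hM hA hT hact hV hvc fun v u h x hx hxi => Or.inr ⟨?_, Or.inl ?_⟩
  · intro v' u' _ _ y hy m hm h1
    exact (hU v').tf hy.1 hm h1
  · intro w a ha b hb _ m hm hab
    exact hU w a ha b hb m hm hab

/-- vertex groups which are residually poly-(torsion-free abelian) -/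
theorem residual (hC : ClosedE C) (hM : ∀ (G : Type) [Group G], derivedSeries G 2 = ⊥ → C G)
    (hA : AcylR C) (hT : T.IsTree) (hact : ∀ (g : G) (u v : V), T.Adj u v → T.Adj (g • u) (g • v))
    (hV : ∀ v : V, C ↥(MulAction.stabilizer G v))
    (hvc : ∀ v u : V, T.Adj v u → Vcy (Es G v u))
    (hR : ∀ v : V, ∀ x ∈ MulAction.stabilizer G v, x ≠ 1 → ∃ n, x ∉ Rd (MulAction.stabilizer G v) n) :
    C G := by
  refine cyclic hC hM hA hT hact hV hvc fun v u h x hx hxi => Or.inr ⟨?_, Or.inr ?_⟩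
  · intro v' u' _ _ y hy m hm h1
    by_contra hy1
    obtain ⟨n, hn⟩ := hR v' y hy.1 hy1
    refine hn (Rd_root hy.1 hm n ?_)
    rw [h1]
    exact one_mem _
  · have hx1 : x ≠ 1 := by
      rintro rfl
      exact hxi 1 one_ne_zero (one_zpow 1)
    obtain ⟨n, hn⟩ := hR v x hx.1 hx1
    exact ⟨n, fun h => hn (Rd_mono (Vz_le _ _) n h)⟩

end Run7.h371.FJ
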