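import Pool.Agent.N509.TK.Om
import Pool.Agent.N509.TX.Fg

/-!
# Families of subgroups of the vertex groups which agree on the edge groups

Let `G` act on a tree and let `R v` be an equivariant family of subgroups of the vertex groups such that
`R v` and `R u` meet the stabilizer of the edge `(u, v)` in the same group. Then the group generated by
all `R v` meets the stabilizer of `v` in `R v`, and there is a subtree which meets each of its orbits
exactly once.
-/

set_option autoImplicit false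

namespace Run7.h371.FJ

open SimpleGraph
open Pool.Agent.N509.TK

variable {G V : Type} {T : SimpleGraph V} [Group G] [MulAction G V]

/-- an equivariant family of subgroups of the vertex groups which agree on the edge groups -/
structure Fm (T : SimpleGraph V) (R : V → Subgroup G) : Prop where
  fix : ∀ v, ∀ r ∈ R v, r • v = v
  eqv : ∀ (g : G) (v : V), ∀ r ∈ R v, g * r * g⁻¹ ∈ R (g • v)
  cmp : ∀ u v, T.Adj u v → ∀ r ∈ R v, r • u = u → r ∈ R u

variable {R : V → Subgroup G} {S : Set V}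

/-- reduced words: `x` is a product `r y` with `r` in `R s`, the second vertex of the path from `s`
to `x • s'` is `c = r • a` -/
inductive Rw (T : SimpleGraph V) (R : V → Subgroup G) (S : Set V) : V → V → G → V → Prop
  | one (s a : V) (r y : G) (hs : s ∈ S) (ha : a ∈ S) (h : T.Adj s a) (hr : r ∈ R s)
      (hy : y ∈ R a) : Rw T R S s (r • a) (r * y) a
  | cons (s a b s' : V) (r y : G) (hs : s ∈ S) (ha : a ∈ S) (h : T.Adj s a) (hr : r ∈ R s)
      (hy : Rw T R S a b y s') (hb : b ≠ s) : Rw T R S s (r • a) (r * y) s'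

theorem Rw.st (hT : T.IsTree) (hact : ∀ (g : G) (u v : V), T.Adj u v → T.Adj (g • u) (g • v))
    (hR : Fm T R) {s c s' : V} {x : G} (h : Rw T R S s c x s') : St T s c (x • s') := by
  induction h with
  | one s a r y hs ha h hr hy =>
    rw [mul_smul, hR.fix a y hy]
    have h1 := hact r _ _ h
    rw [hR.fix s r hr] at h1
    exact St_adj h1
  | cons s a b s' r y hs ha h hr hy hb ih =>
    have h1 : St T s a (y • s') := St_trans hT ih (St_adj h.symm) hb (St_adj h)
    have h2 := St_smul hact r h1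
    rw [hR.fix s r hr, ← mul_smul] at h2
    exact h2

theorem Rw.mulR {s c s' : V} {x r : G} (h : Rw T R S s c x s') (hr : r ∈ R s) :
    Rw T R S s (r • c) (r * x) s' := by
  cases h with
  | one _ _ r' y hs ha h hr' hy =>
    rw [← mul_smul, ← mul_assoc]
    exact Rw.one s s' (r * r') y hs ha h (mul_mem hr hr') hy
  | cons _ a b _ r' y hs ha h hr' hy hb =>
    rw [← mul_smul, ← mul_assoc]
    exact Rw.cons s a b s' (r * r') y hs ha h (mul_mem hr hr') hy hb

/-- normal forms -/
def Nf (T : SimpleGraph V) (R : V → Subgroup G) (S : Set V) (s : V) (x : G) (s' : V) : Prop :=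
  (s = s' ∧ x ∈ R s) ∨ ∃ c, Rw T R S s c x s'

theorem Nf.mulR {s s' : V} {x r : G} (h : Nf T R S s x s') (hr : r ∈ R s) :
    Nf T R S s (r * x) s' := by
  rcases h with ⟨h, hx⟩ | ⟨c, h⟩
  · exact Or.inl ⟨h, mul_mem hr hx⟩
  · exact Or.inr ⟨_, h.mulR hr⟩

theorem Nf.mv (hR : Fm T R) (hS : Good T R S) {s t s' : V} {x : G} (hs : s ∈ S) (ht : t ∈ S)
    (hst : T.Adj s t) (h : Nf T R S t x s') : Nf T R S s x s' := by
  rcases h with ⟨rfl, hx⟩ | ⟨c, h⟩
  · right
    refine ⟨(1 : G) • t, ?_⟩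
    have h1 := Rw.one (T := T) (R := R) (S := S) s t 1 x hs ht hst (one_mem _) hx
    rwa [one_mul] at h1
  · by_cases hc : c = s
    · cases h with
      | one _ _ r y ht' ha h hr hy =>
        have h1 : s' = s := hS.lc t ht s' ha s hs h hst.symm r hr hc
        subst h1
        left
        exact ⟨rfl, mul_mem (hR.cmp s' t hst r hr hc) hy⟩
      | cons _ a b _ r y ht' ha h hr hy hb =>
        have h1 : a = s := hS.lc t ht a ha s hs h hst.symm r hr hc
        subst h1
        have h2 : r ∈ R a := hR.cmp a t hst r hr hc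
        exact Or.inr ⟨_, hy.mulR h2⟩
    · right
      refine ⟨(1 : G) • t, ?_⟩
      have h1 := Rw.cons (T := T) (R := R) (S := S) s t c s' 1 x hs ht hst (one_mem _) h hc
      rwa [one_mul] at h1

theorem Nf.walk (hR : Fm T R) (hS : Good T R S) {s t s' : V} {x : G} (p : T.Walk s t)
    (hp : ∀ z ∈ p.support, z ∈ S) (h : Nf T R S t x s') : Nf T R S s x s' := by
  induction p with
  | nil => exact h
  | @cons a b c hab p ih =>
    refine Nf.mv hR hS (hp a (by simp)) (hp b (by simp)) hab (ih (fun z hz => hp z ?_) h)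
    rw [Walk.support_cons]
    exact List.mem_cons_of_mem _ hz

theorem Nf.all (hR : Fm T R) (hS : Good T R S) {x : G} (hx : x ∈ ⨆ i : Ix R S, R i.1) :
    ∀ s ∈ S, ∀ s' ∈ S, Nf T R S s x s' := by
  have key : ∀ y : G, (∀ s ∈ S, ∀ s' ∈ S, Nf T R S s y s') →
      ∀ s ∈ S, ∀ s' ∈ S, Nf T R S s (x * y) s' := by
    induction hx using Subgroup.iSup_induction' with
    | hp i r hr =>
      intro y hy s hs s' hs'
      obtain ⟨p, hp⟩ := hS.cvx s hs i.1 i.2.1
      exact Nf.walk hR hS p hp ((hy i.1 i.2.1 s' hs').mulR hr)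
    | h1 =>
      intro y hy
      simpa only [one_mul] using hy
    | hmul a b _ _ iha ihb =>
      intro y hy s hs s' hs'
      rw [mul_assoc]
      exact iha _ (ihb y hy) s hs s' hs'
  intro s hs s' hs'
  have h1 := key 1 (fun s hs s' hs' => ?_) s hs s' hs'
  · rwa [mul_one] at h1
  · obtain ⟨p, hp⟩ := hS.cvx s hs s' hs'
    exact Nf.walk hR hS p hp (Or.inl ⟨rfl, one_mem _⟩)

theorem Fm.fp_stab (hT : T.IsTree)
    (hact : ∀ (g : G) (u v : V), T.Adj u v → T.Adj (g • u) (g • v)) (hR : Fm T R)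
    (hS : Good T R S) {x : G} (hx : x ∈ ⨆ i : Ix R S, R i.1) {s s' : V} (hs : s ∈ S)
    (hs' : s' ∈ S) (h : x • s = s') : s = s' ∧ x ∈ R s := by
  rcases Nf.all hR hS hx s' hs' s hs with ⟨h1, h2⟩ | ⟨c, h1⟩
  · exact ⟨h1.symm, h1 ▸ h2⟩
  · have h2 := h1.st hT hact hR
    rw [h] at h2
    exact absurd rfl h2.ne

theorem Fm.sup (hT : T.IsTree) (hact : ∀ (g : G) (u v : V), T.Adj u v → T.Adj (g • u) (g • v))
    (hR : Fm T R) (hS : Tv T R S) : (⨆ i : Ix R S, R i.1) = ⨆ v, R v := by
  apply le_antisymm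
  · exact iSup_le fun i => le_iSup R i.1
  · refine iSup_le fun v x hx => ?_
    obtain ⟨h, hh, s, hs, rfl⟩ := hS.cover' hT hact v
    have h1 := hR.eqv h⁻¹ _ x hx
    rw [inv_smul_smul] at h1
    have h2 := le_Ix hs h1
    have h3 := mul_mem (mul_mem hh h2) (inv_mem hh)
    have h4 : h * (h⁻¹ * x * h⁻¹⁻¹) * h⁻¹ = x := by group
    rwa [h4] at h3

theorem Fm.cover (hT : T.IsTree) (hact : ∀ (g : G) (u v : V), T.Adj u v → T.Adj (g • u) (g • v))
    (hR : Fm T R) (hS : Tv T R S) (v : V) : ∃ h ∈ ⨆ v, R v, ∃ s ∈ S, v = h • s := by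
  rw [← hR.sup hT hact hS]
  exact hS.cover' hT hact v

theorem Fm.trans (hT : T.IsTree) (hact : ∀ (g : G) (u v : V), T.Adj u v → T.Adj (g • u) (g • v))
    (hR : Fm T R) (hS : Tv T R S) {x : G} (hx : x ∈ ⨆ v, R v) {s s' : V} (hs : s ∈ S)
    (hs' : s' ∈ S) (h : x • s = s') : s = s' ∧ x ∈ R s := by
  rw [← hR.sup hT hact hS] at hx
  exact hR.fp_stab hT hact hS.toGood hx hs hs' h

/-- the group generated by the family meets the vertex groups in the subgroups of the family -/
theorem Fm.stab (hT : T.IsTree) (hact : ∀ (g : G) (u v : V), T.Adj u v → T.Adj (g • u) (g • v))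
    (hR : Fm T R) {x : G} (hx : x ∈ ⨆ v, R v) {v : V} (h : x • v = v) : x ∈ R v := by
  obtain ⟨S, hS⟩ := Tv.exists (R := R) hT
  obtain ⟨a, ha, s, hs, rfl⟩ := hR.cover hT hact hS v
  have h1 : a⁻¹ * x * a ∈ ⨆ v, R v := mul_mem (mul_mem (inv_mem ha) hx) ha
  have h2 : (a⁻¹ * x * a) • s = s := by rw [mul_smul, mul_smul, h, inv_smul_smul]
  have h3 := (hR.trans hT hact hS h1 hs hs h2).2
  have h4 := hR.eqv a s _ h3
  have h5 : a * (a⁻¹ * x * a) * a⁻¹ = x := by group
  rwa [h5] at h4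

theorem Fm.tq (hT : T.IsTree) (hact : ∀ (g : G) (u v : V), T.Adj u v → T.Adj (g • u) (g • v))
    (hR : Fm T R) (hS : Tv T R S) : Tq T (⨆ v, R v) S where
  ne := hS.ne
  cvx := hS.cvx
  cover := hR.cover hT hact hS
  trans h hh s hs s' hs' heq := (hR.trans hT hact hS hh hs hs' heq).1
  max s hs w h := by
    obtain ⟨u, hu, h1, r, hr, h2⟩ := hS.max s hs w h
    exact ⟨u, hu, h1, r, le_iSup R s hr, hR.fix s r hr, h2⟩

theorem Fm.normal (hR : Fm T R) : (⨆ v, R v).Normal := by
  refine ⟨fun x hx g => ?_⟩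
  have h1 : (⨆ v, R v) ≤ (⨆ v, R v).comap (MulAut.conj g).toMonoidHom :=
    iSup_le fun v x hx => le_iSup R (g • v) (hR.eqv g v x hx)
  exact h1 hx

end Run7.h371.FJ
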