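import Pool.Agent.Run7.h371.FJ.Cyc

/-!
# Balanced vertex groups in unbalanced cylinders
-/

set_option autoImplicit false

namespace Run7.h371.FJ

open SimpleGraph
open Subgroup
open Subgroup.Commensurable (commensurator)
open scoped commutatorElement
open Pool.Agent.N509.TK
open Pool.Agent.Y110.FJ
open Pool.Agent.N509.TX (AcylF C_edge C_stab STree fg_subtree of_fg of_fg_mem cyl_subtree)
open Pool.Agent.R941.FJ (C_equiv C_le C_cyc mem_sup_normal)
open Pool.Agent.N431.CE (Es Es_comm Es_smul rf rf_LR Rf Rf_gen cylF mem_Es le_comm)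

variable {C : ∀ (G : Type) [Group G], Prop}

section groups

variable {G : Type} [Group G]

/-- the elements which conjugate some power `t ^ m`, `m ≠ 0`, to itself or its inverse -/
def Bs (t : G) : Subgroup G where
  carrier := {g | ∃ m : ℤ, m ≠ 0 ∧ (g * t ^ m * g⁻¹ = t ^ m ∨ g * t ^ m * g⁻¹ = t ^ (-m))}
  one_mem' := ⟨1, one_ne_zero, Or.inl (by group)⟩
  mul_mem' := by
    rintro a b ⟨m, hm, h⟩ ⟨n, hn, h'⟩
    refine ⟨m * n, mul_ne_zero hm hn, ?_⟩
    have e : ∀ (g : G) (i j k : ℤ), g * t ^ i * g⁻¹ = t ^ j → g * t ^ (i * k) * g⁻¹ = t ^ (j * k) :=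
      fun g i j k h => Cs.pow h k
    have e' : ∀ (i j : ℤ), b * t ^ i * b⁻¹ = t ^ j → (a * b) * t ^ i * (a * b)⁻¹ = a * t ^ j * a⁻¹ := by
      intro i j h
      rw [← h]
      group
    rcases h with h | h <;> rcases h' with h' | h'
    · left
      have h1 := e b n n m h'
      rw [mul_comm n m] at h1
      rw [e' _ _ h1, e a m m n h]
    · right
      have h1 := e b n (-n) m h'
      rw [mul_comm n m] at h1
      rw [e' _ _ h1]
      have h2 := e a m m (-n) h
      have h3 : -n * m = m * -n := by ring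
      rw [h3, h2]
      congr 1
      ring
    · right
      have h1 := e b n n m h'
      rw [mul_comm n m] at h1
      rw [e' _ _ h1, e a m (-m) n h]
      congr 1
      ring
    · left
      have h1 := e b n (-n) m h'
      rw [mul_comm n m] at h1
      rw [e' _ _ h1]
      have h2 := e a m (-m) (-n) h
      have h3 : -n * m = m * -n := by ring
      rw [h3, h2]
      congr 1
      ring
  inv_mem' := by
    rintro a ⟨m, hm, h⟩
    refine ⟨m, hm, ?_⟩
    rcases h with h | h
    · left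
      conv_lhs => rw [← h]
      group
    · right
      have h1 := Cs.pow h (-1)
      have h2 : -m * -1 = m := by ring
      have h3 : m * -1 = -m := by ring
      rw [h2, h3] at h1
      conv_lhs => rw [← h1]
      group

theorem mem_Bs {t g : G} : g ∈ Bs t ↔
    ∃ m : ℤ, m ≠ 0 ∧ (g * t ^ m * g⁻¹ = t ^ m ∨ g * t ^ m * g⁻¹ = t ^ (-m)) := Iff.rfl

theorem Bs_conj {t g y : G} (hg : Cs t g) (hy : y ∈ Bs t) : g * y * g⁻¹ ∈ Bs t := by
  obtain ⟨a, b, ha, hb, h⟩ := hg
  obtain ⟨m, hm, h'⟩ := hy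
  refine ⟨b * m, mul_ne_zero hb hm, ?_⟩
  have h1 : g * t ^ (a * m) * g⁻¹ = t ^ (b * m) := Cs.pow h m
  have h2 : g * y * g⁻¹ * t ^ (b * m) * (g * y * g⁻¹)⁻¹ = g * (y * t ^ (a * m) * y⁻¹) * g⁻¹ := by
    rw [← h1]
    group
  rw [h2]
  rcases h' with h' | h'
  · left
    have h3 := Cs.pow h' a
    rw [mul_comm m a] at h3
    rw [h3, h1]
  · right
    have h3 := Cs.pow h' a
    rw [mul_comm m a] at h3
    rw [h3]
    have h4 := Cs.pow h (-m)
    have h5 : -m * a = a * -m := by ring
    rw [h5, h4]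
    congr 1
    ring

theorem Bs_bal {t x g : G} (ht : Io t) (hx : Cm t x) (hxi : Io x) (hg : g ∈ Bs t) {m n : ℤ}
    (h : g * x ^ m * g⁻¹ = x ^ n) : m.natAbs = n.natAbs := by
  rcases hx with rfl | ⟨a, b, ha, hb, hx⟩
  · exact absurd (one_zpow 1) (hxi 1 one_ne_zero)
  obtain ⟨k, hk, h'⟩ := hg
  have h1 : g * x ^ (m * (a * k)) * g⁻¹ = x ^ (n * (a * k)) := Cs.pow h (a * k)
  have h2 : ∀ j : ℤ, x ^ (j * (a * k)) = t ^ (k * (b * j)) := by
    intro j
    have e1 : j * (a * k) = a * (k * j) := by ring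
    rw [e1, zpow_mul, hx, ← zpow_mul]
    congr 1
    ring
  rw [h2, h2] at h1
  have hinj : ∀ i j : ℤ, t ^ i = t ^ j → i = j := by
    intro i j hij
    by_contra hne
    refine ht (i - j) (sub_ne_zero.2 hne) ?_
    rw [zpow_sub, hij, mul_inv_cancel]
  rcases h' with h' | h'
  · rw [Cs.pow h'] at h1
    have h3 := hinj _ _ h1
    have h4 : m = n := by
      have := mul_left_cancel₀ hk h3
      exact mul_left_cancel₀ hb this
    rw [h4]
  · rw [Cs.pow h'] at h1
    have h3 := hinj _ _ h1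
    have h4 : -m = n := by
      have h5 : k * (b * -m) = k * (b * n) := by
        rw [← h3]
        ring
      exact mul_left_cancel₀ hb (mul_left_cancel₀ hk h5)
    rw [← h4, Int.natAbs_neg]

end groups

variable {G V : Type} [Group G] [MulAction G V] {T : SimpleGraph V}

/-- the local condition at the vertex `v`, in a group which commensurates `t` -/
structure Lg (C : ∀ (G : Type) [Group G], Prop) (T : SimpleGraph V) (t : G) (v : V)
    (M : Subgroup G) : Prop where
  fix : ∀ x ∈ M, x • v = v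
  nor : ∀ g : G, g • v = v → ∀ x ∈ M, g * x * g⁻¹ ∈ M
  bal : ∀ x ∈ M, x ∈ Bs t
  mem : ∀ u, T.Adj v u → ∀ x : G, x • v = v → x • u = u → x ∈ M
  com : ∀ k : ℤ, k ≠ 0 → t ^ k ∉ ⁅M, M⁆
  alt : (∀ g : G, g • v = v → g ∈ Bs t) ∨ Qk C v M

theorem Qk.conj {v : V} {M : Subgroup G} (h : Qk C v M) (g : G) :
    Qk C (g • v) (M.map (MulAut.conj g).toMonoidHom) := by
  obtain ⟨P, _, f, hP, hf⟩ := h
  have hmem : ∀ x : MulAction.stabilizer G (g • v),
      ((MulAut.conj g⁻¹).toMonoidHom.comp (Subgroup.subtype (MulAction.stabilizer G (g • v)))) x ∈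
        MulAction.stabilizer G v := by
    rintro ⟨x, hx⟩
    show (g⁻¹ * x * g⁻¹⁻¹) • v = v
    have hx : x • g • v = g • v := hx
    rw [inv_inv, mul_smul, mul_smul, hx, inv_smul_smul]
  refine ⟨P, _, f.comp (((MulAut.conj g⁻¹).toMonoidHom.comp (Subgroup.subtype _)).codRestrict _
    hmem), hP, ?_⟩
  rintro ⟨x, hx⟩
  rw [MonoidHom.comp_apply, hf, mem_map_conj]
  show g⁻¹ * x * g⁻¹⁻¹ ∈ M ↔ _
  rw [inv_inv]

theorem Lg.conj (hact : ∀ (g : G) (u v : V), T.Adj u v → T.Adj (g • u) (g • v)) {t : G} {v : V}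
    {M : Subgroup G} (h : Lg C T t v M) (g : G) (hg : Cs t g) :
    Lg C T t (g • v) (M.map (MulAut.conj g).toMonoidHom) where
  fix x hx := by
    rw [mem_map_conj] at hx
    have h1 := h.fix _ hx
    rw [mul_smul, mul_smul, inv_smul_eq_iff] at h1
    exact h1
  nor k hk x hx := by
    rw [mem_map_conj] at hx ⊢
    have h1 : (g⁻¹ * k * g) • v = v := by rw [mul_smul, mul_smul, hk, inv_smul_smul]
    have h2 := h.nor _ h1 _ hx
    have h3 : g⁻¹ * (k * x * k⁻¹) * g = g⁻¹ * k * g * (g⁻¹ * x * g) * (g⁻¹ * k * g)⁻¹ := by group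
    rwa [h3]
  bal x hx := by
    rw [mem_map_conj] at hx
    have h1 := Bs_conj hg (h.bal _ hx)
    have h2 : g * (g⁻¹ * x * g) * g⁻¹ = x := by group
    rwa [h2] at h1
  mem u hu x hxv hxu := by
    rw [mem_map_conj]
    have h1 := hact g⁻¹ _ _ hu
    rw [inv_smul_smul] at h1
    refine h.mem _ h1 _ ?_ ?_
    · rw [mul_smul, mul_smul, hxv, inv_smul_smul]
    · rw [mul_smul, mul_smul, smul_inv_smul, hxu]
  com k hk hx := by
    rw [← Subgroup.map_commutator, mem_map_conj] at hx
    obtain ⟨a, b, ha, hb, h1⟩ := hg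
    refine h.com (a * k) (mul_ne_zero ha hk) ?_
    have h2 : t ^ (a * k) = (g⁻¹ * t ^ k * g) ^ b := by
      have h3 := Cs.pow h1 k
      have h4 : (g⁻¹ * t ^ k * g⁻¹⁻¹) ^ b = g⁻¹ * (t ^ k) ^ b * g⁻¹⁻¹ := conj_zpow
      rw [inv_inv] at h4
      rw [h4, ← zpow_mul, mul_comm k b, ← h3]
      group
    rw [h2]
    exact zpow_mem hx b
  alt := by
    rcases h.alt with h1 | h1
    · left
      intro k hk
      have h2 : (g⁻¹ * k * g) • v = v := by rw [mul_smul, mul_smul, hk, inv_smul_smul]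
      have h3 := Bs_conj hg (h1 _ h2)
      have h4 : g * (g⁻¹ * k * g) * g⁻¹ = k := by group
      rwa [h4] at h3
    · exact Or.inr (h1.conj g)

/-- equivariant choices -/
theorem Lg.family (hact : ∀ (g : G) (u v : V), T.Adj u v → T.Adj (g • u) (g • v)) {t : G}
    (hcom : ∀ g : G, Cs t g) (hL : ∀ v : V, ∃ M : Subgroup G, Lg C T t v M) :
    ∃ R : V → Subgroup G, Fm T R ∧ ∀ v, Lg C T t v (R v) := by
  choose M0 hM0 using hL
  obtain ⟨rep, hrep⟩ : ∃ rep : V → V, rep = fun v =>
      (Quotient.mk (MulAction.orbitRel G V) v).out := ⟨_, rfl⟩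
  have hk : ∀ v : V, ∃ k : G, k • rep v = v := by
    intro v
    have h1 : (MulAction.orbitRel G V).r v (rep v) := by
      refine Quotient.exact ?_
      rw [hrep]
      exact (Quotient.out_eq _).symm
    exact h1
  choose k hk using hk
  have hrs : ∀ (g : G) (v : V), rep (g • v) = rep v := by
    intro g v
    rw [hrep]
    show Quotient.out _ = Quotient.out _
    congr 1
    exact Quotient.sound ⟨g, rfl⟩
  obtain ⟨R, hRd⟩ : ∃ R : V → Subgroup G,
      R = fun v => (M0 (rep v)).map (MulAut.conj (k v)).toMonoidHom := ⟨_, rfl⟩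
  have hLc : ∀ v, Lg C T t v (R v) := by
    intro v
    rw [hRd]
    have h1 := (hM0 (rep v)).conj hact (k v) (hcom _)
    rwa [hk] at h1
  refine ⟨R, ⟨fun v => (hLc v).fix, ?_, ?_⟩, hLc⟩
  · intro g v x hx
    rw [hRd] at hx ⊢
    change x ∈ (M0 (rep v)).map _ at hx
    show _ ∈ (M0 (rep (g • v))).map _
    rw [mem_map_conj] at hx
    rw [mem_map_conj, hrs]
    have h1 : ((k (g • v))⁻¹ * g * k v) • rep v = rep v := by
      have h2 := hk (g • v)
      rw [hrs] at h2
      rw [mul_smul, mul_smul, hk, inv_smul_eq_iff, h2]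
    have h3 := (hM0 (rep v)).nor _ h1 _ hx
    convert h3 using 1
    group
  · intro u v huv r hr hru
    exact (hLc u).mem v huv r hru ((hLc v).fix r hr)

/-- **a finitely generated group which commensurates an infinite cyclic group**, acting on a tree -/
theorem treeG (hC : ClosedE C) (hM : ∀ (G : Type) [Group G], derivedSeries G 2 = ⊥ → C G)
    (hA : AcylR C) (hfg : Group.FG G) (hT : T.IsTree)
    (hact : ∀ (g : G) (u v : V), T.Adj u v → T.Adj (g • u) (g • v))
    (hV : ∀ v : V, C ↥(MulAction.stabilizer G v)) (hvc : ∀ v u : V, T.Adj v u → Vcy (Es G v u))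
    (t : G) (ht : Io t) (hcom : ∀ g : G, Cs t g)
    (hedge : ∀ u v, T.Adj u v → ∀ x : G, x • u = u → x • v = v → Cm t x)
    (hL : ∀ v : V, ∃ M : Subgroup G, Lg C T t v M) : C G := by
  classical
  obtain ⟨R, hR, hLR⟩ := Lg.family hact hcom hL
  obtain ⟨S, hS⟩ := Tv.exists (R := R) hT
  have hq := hR.tq hT hact hS
  have hcyc := cycC hC hM hT hact hR (fun v u hvu x hxu hx => by
    have hxv : x • v = v := hR.fix v x (Subgroup.commutator_le_self _ hx)
    rcases hedge v u hvu x hxv hxu with h1 | ⟨a, b, ha, hb, h1⟩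
    · exact h1
    · refine absurd ?_ ((hLR v).com b hb)
      rw [← h1]
      exact zpow_mem hx a) hV
  obtain ⟨N, hN⟩ : ∃ N : Subgroup G, N = ⨆ v, R v := ⟨_, rfl⟩
  have hNn : N.Normal := hN ▸ hR.normal
  have hle : ∀ v, R v ≤ N := fun v => hN ▸ le_iSup R v
  have hst : ∀ {x : G}, x ∈ N → ∀ {v : V}, x • v = v → x ∈ R v := fun {x} hx {v} h =>
    hR.stab hT hact (hN ▸ hx) h
  rw [← hN] at hq hcyc
  have hNB : N ≤ Bs t := by
    rw [hN]
    exact iSup_le fun v x hx => (hLR v).bal x hx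
  -- the balanced part
  have hCB : C ↥(Bs t) := by
    refine balanced (G := Bs t) (V := V) (T := T) hC hM hA hT (fun g u v h => hact g u v h)
      (fun v => C_stab hC _ v (hV v)) ?_ ?_
    · intro v u hvu
      refine Vcy.of_map ((hvc v u hvu).mono ?_)
      rintro _ ⟨x, hx, rfl⟩
      exact ⟨hx.1, hx.2⟩
    · intro v u hvu x hx hxi g m n hm h
      have hxi' : Io (x : G) := fun k hk h1 => hxi k hk (Subtype.ext h1)
      exact Bs_bal ht (hedge v u hvu x hx.1 hx.2) hxi' g.2 (congrArg Subtype.val h)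
  let _ := ga hq
  refine finedgeR (G := G) (Q := G ⧸ N) (V := S) (T := T.induce S) hA hC (QuotientGroup.mk' N)
    (QuotientGroup.mk'_surjective N)
    (Group.fg_of_surjective (f := QuotientGroup.mk' N) (QuotientGroup.mk'_surjective N))
    (hq.isTree hT) ?_ 1 ?_ ?_ ?_ ?_
  · intro g s t hst
    exact sm_adj hact hq g s t hst
  · intro g hg s
    exact sm_eq hq ((QuotientGroup.eq_one_iff g).1 hg) rfl
  · intro s t hadj F hF
    rw [Finset.card_le_one]
    have h1 : ∀ q ∈ F, q = 1 := by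
      intro q hq'
      obtain ⟨g, rfl, hs, ht⟩ := hF q hq'
      obtain ⟨h, hh, h2, h3⟩ := sm_edge hact hq hadj hs ht
      refine (QuotientGroup.eq_one_iff _).2 ?_
      have h4 := mul_mem hh (hle _ ((hLR s).mem t hadj _ h2 h3))
      rwa [mul_inv_cancel_left] at h4
    intro a ha b hb
    rw [h1 a ha, h1 b hb]
  · intro s
    obtain ⟨Γ, hΓ⟩ : ∃ Γ : Subgroup G, Γ = MulAction.stabilizer G s := ⟨_, rfl⟩
    rw [← hΓ]
    have hmΓ : ∀ g : G, g ∈ Γ ↔ sm hq g s = s := by
      intro g
      rw [hΓ]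
      exact Iff.rfl
    rcases (hLR s).alt with h1 | ⟨P, _, f, hP, hf⟩
    · refine C_le hC.base (H := Γ) (K := Bs t) (fun g hg => ?_) hCB
      obtain ⟨h, hh, h2⟩ := sm_vertex hq ((hmΓ g).1 hg)
      have h3 := mul_mem (hNB hh) (h1 _ h2)
      rwa [mul_inv_cancel_left] at h3
    · have hNΓ : N ≤ Γ := fun g hg => (hmΓ g).2 (sm_eq hq hg rfl)
      have hsΓ : MulAction.stabilizer G (s : V) ≤ Γ := fun g hg =>
        (hmΓ g).2 (sm_eq hq (h := 1) (one_mem _) (by rw [one_smul]; exact hg))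
      obtain ⟨N', hN'⟩ : ∃ N' : Subgroup Γ, N' = N.subgroupOf Γ := ⟨_, rfl⟩
      have hmN' : ∀ x : Γ, x ∈ N' ↔ (x : G) ∈ N := fun x => by rw [hN', Subgroup.mem_subgroupOf]
      have hN'n : N'.Normal := by
        refine ⟨fun x hx g => ?_⟩
        rw [hmN'] at hx ⊢
        exact hNn.conj_mem _ hx g
      have hQ : C (Γ ⧸ N') := by
        let π : MulAction.stabilizer G (s : V) →* Γ ⧸ N' :=
          (QuotientGroup.mk' N').comp (Subgroup.inclusion hsΓ)
        have hπ : Function.Surjective π := by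
          intro q
          obtain ⟨⟨g, hg⟩, rfl⟩ := QuotientGroup.mk_surjective q
          obtain ⟨h, hh, h2⟩ := sm_vertex hq ((hmΓ g).1 hg)
          refine ⟨⟨h⁻¹ * g, h2⟩, ?_⟩
          refine (QuotientGroup.eq.2 ?_).symm
          rw [hmN']
          show g⁻¹ * (h⁻¹ * g) ∈ N
          have h3 := hNn.conj_mem _ (inv_mem hh) g⁻¹
          rw [inv_inv, mul_assoc] at h3
          exact h3
        have hker : π.ker = f.ker := by
          ext x
          rw [MonoidHom.mem_ker, MonoidHom.mem_ker, hf]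
          constructor
          · intro h
            exact hst ((hmN' _).1 ((QuotientGroup.eq_one_iff _).1 h)) x.2
          · intro h
            exact (QuotientGroup.eq_one_iff _).2 ((hmN' _).2 (hle _ h))
        refine C_equiv hC.base (QuotientGroup.quotientKerEquivOfSurjective π hπ).symm ?_
        refine C_equiv hC.base (QuotientGroup.quotientMulEquivOfEq hker) ?_
        exact hC.base.of_injective _ _ (QuotientGroup.kerLift f) (QuotientGroup.kerLift_injective f)
          hP
      have key : ∀ g : Γ, C ↥(N' ⊔ Subgroup.zpowers g) := by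
        intro g
        refine hC.base.of_injective _ _ ((Γ.subtype.comp (Subgroup.subtype
          (N' ⊔ Subgroup.zpowers g))).codRestrict (N ⊔ Subgroup.zpowers (g : G)) ?_) ?_ (hcyc g)
        · rintro ⟨z, hz⟩
          have h3 : N' ⊔ Subgroup.zpowers g ≤ (N ⊔ Subgroup.zpowers (g : G)).comap Γ.subtype := by
            refine sup_le ?_ ?_
            · intro z hz
              exact Subgroup.mem_sup_left ((hmN' z).1 hz)
            · rw [Subgroup.zpowers_le]
              exact Subgroup.mem_sup_right (Subgroup.mem_zpowers _)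
          exact h3 hz
        · intro a b hab
          have h3 := congrArg Subtype.val hab
          exact Subtype.ext (Subtype.ext h3)
      refine Pool.Agent.Y529.FJ.t_ext C hC _ N' ?_ hQ fun g _ => key g
      exact C_le hC.base le_sup_left (key 1)
  · intro q
    obtain ⟨g, rfl⟩ := QuotientGroup.mk'_surjective N q
    have h2 : (Subgroup.zpowers (QuotientGroup.mk' N g)).comap (QuotientGroup.mk' N) =
        N ⊔ Subgroup.zpowers g := by
      rw [← MonoidHom.map_zpowers, Subgroup.comap_map_eq, QuotientGroup.ker_mk', sup_comm]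
    rw [h2]
    exact hcyc g

end Run7.h371.FJ
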