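import Pool.Agent.Run7.h371.FJ.Ga

/-!
# The local condition on a vertex group, and the general cyclic theorem
-/

set_option autoImplicit false

namespace Run7.h371.FJ

open SimpleGraph
open Subgroup
open Subgroup.Commensurable (commensurator)
open scoped commutatorElement
open Pool.Agent.N509.TK
open Pool.Agent.Y110.FJ
open Pool.Agent.N509.TX (AcylF C_edge C_stab STree fg_subtree of_fg of_fg_mem cyl_subtree)
open Pool.Agent.R941.FJ (C_equiv C_le C_cyc mem_sup_normal)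
open Pool.Agent.N431.CE (Es Es_comm Es_smul rf rf_LR Rf Rf_gen cylF mem_Es le_comm)

variable {C : ∀ (G : Type) [Group G], Prop}

section groups

variable {G : Type} [Group G]

theorem Bs_pow {t y : G} {m : ℤ} (hm : m ≠ 0) (h : y ∈ Bs (t ^ m)) : y ∈ Bs t := by
  obtain ⟨k, hk, h⟩ := h
  refine ⟨m * k, mul_ne_zero hm hk, ?_⟩
  rw [← zpow_mul, ← zpow_mul] at h
  have e : m * -k = -(m * k) := by ring
  rwa [e] at h

theorem Cs.zpow {t g : G} {m : ℤ} (h : Cs t g) : Cs (t ^ m) g := by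
  obtain ⟨a, b, ha, hb, h⟩ := h
  refine ⟨a, b, ha, hb, ?_⟩
  have h1 := Cs.pow h m
  rw [← zpow_mul, ← zpow_mul, mul_comm m a, mul_comm m b]
  exact h1

theorem bs_of_bal {t : G} {g : G} (h : ∀ m n : ℤ, m ≠ 0 → g * t ^ m * g⁻¹ = t ^ n →
    m.natAbs = n.natAbs) (hg : Cs t g) : g ∈ Bs t := by
  obtain ⟨m, n, hm, hn, h1⟩ := hg
  refine ⟨m, hm, ?_⟩
  rcases Int.natAbs_eq_natAbs_iff.1 (h m n hm h1) with h2 | h2
  · left
    rw [h1, h2]
  · right
    rw [h1, h2, neg_neg]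

end groups

variable {G V : Type} [Group G] [MulAction G V] {T : SimpleGraph V}

/-- the local condition on an element `x` of the stabilizer of the vertex `v` -/
def Gm (C : ∀ (G : Type) [Group G], Prop) (T : SimpleGraph V) (v : V) (x : G) : Prop :=
  ∃ M : Subgroup G, (∀ y ∈ M, y • v = v) ∧
    (∀ g : G, g • v = v → Cs x g → ∀ y ∈ M, g * y * g⁻¹ ∈ M) ∧
    (∀ y ∈ M, y ∈ Bs x) ∧
    (∀ u, T.Adj v u → (∃ k : ℤ, k ≠ 0 ∧ x ^ k ∈ Es G v u) → Es G v u ≤ M) ∧
    (∀ k : ℤ, k ≠ 0 → x ^ k ∉ ⁅M, M⁆) ∧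
    ((∀ g : G, g • v = v → Cs x g → g ∈ Bs x) ∨
      ∀ K : Subgroup G, (∀ g ∈ K, g • v = v ∧ Cs x g) →
        ∃ (P : Type) (_ : Group P) (f : K →* P), C P ∧ ∀ g : K, f g = 1 ↔ (g : G) ∈ M)

theorem Bs_sub {H : Subgroup G} {x y : H} : y ∈ Bs x ↔ (y : G) ∈ Bs (x : G) := by
  constructor
  · rintro ⟨m, hm, h⟩
    exact ⟨m, hm, h.imp (fun h => congrArg Subtype.val h) fun h => congrArg Subtype.val h⟩
  · rintro ⟨m, hm, h⟩
    exact ⟨m, hm, h.imp (fun h => Subtype.ext h) fun h => Subtype.ext h⟩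

theorem Cs_sub {H : Subgroup G} {x y : H} : Cs x y ↔ Cs (x : G) (y : G) := by
  constructor
  · rintro ⟨m, n, hm, hn, h⟩
    exact ⟨m, n, hm, hn, congrArg Subtype.val h⟩
  · rintro ⟨m, n, hm, hn, h⟩
    exact ⟨m, n, hm, hn, Subtype.ext h⟩

theorem Gm.pull {H : Subgroup G} {W : Type} [MulAction H W] {T' : SimpleGraph W} {ι : W → V}
    (hst : STree H T T' ι) {w : W} {x : H} (h : Gm C T (ι w) (x : G)) : Gm C T' w x := by
  obtain ⟨M, hfix, hnor, hbal, hmem, hcom, halt⟩ := h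
  refine ⟨M.subgroupOf H, ?_, ?_, ?_, ?_, ?_, ?_⟩
  · intro y hy
    exact hst.fix.2 (hfix _ (Subgroup.mem_subgroupOf.1 hy))
  · intro g hg hgx y hy
    rw [Subgroup.mem_subgroupOf] at hy ⊢
    exact hnor _ (hst.fix.1 hg) (Cs_sub.1 hgx) _ hy
  · intro y hy
    exact Bs_sub.2 (hbal _ (Subgroup.mem_subgroupOf.1 hy))
  · intro u hwu hk y hy
    obtain ⟨k, hk, hk'⟩ := hk
    rw [Subgroup.mem_subgroupOf]
    exact hmem (ι u) (hst.adj _ _ hwu) ⟨k, hk, hst.fix.1 hk'.1, hst.fix.1 hk'.2⟩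
      ⟨hst.fix.1 hy.1, hst.fix.1 hy.2⟩
  · intro k hk hx
    refine hcom k hk ?_
    have h1 : ((x ^ k : H) : G) ∈ (⁅M.subgroupOf H, M.subgroupOf H⁆).map H.subtype := ⟨_, hx, rfl⟩
    rw [Subgroup.map_commutator] at h1
    have h2 : (M.subgroupOf H).map H.subtype ≤ M := by
      rintro _ ⟨y, hy, rfl⟩
      exact Subgroup.mem_subgroupOf.1 hy
    exact Subgroup.commutator_mono h2 h2 h1
  · rcases halt with h1 | h1
    · left
      intro g hg hgx
      exact Bs_sub.2 (h1 _ (hst.fix.1 hg) (Cs_sub.1 hgx))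
    · right
      intro K hK
      obtain ⟨P, _, f, hP, hf⟩ := h1 (K.map H.subtype) (by
        rintro _ ⟨g, hg, rfl⟩
        exact ⟨hst.fix.1 (hK g hg).1, Cs_sub.1 (hK g hg).2⟩)
      refine ⟨P, _, f.comp ((H.subtype.comp K.subtype).codRestrict (K.map H.subtype)
        fun g => ⟨g, g.2, rfl⟩), hP, ?_⟩
      intro g
      rw [MonoidHom.comp_apply, hf, Subgroup.mem_subgroupOf]
      rfl

/-- a group which commensurates an infinite cyclic group, acting on a tree -/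
theorem treeG' (hC : ClosedE C) (hM : ∀ (G : Type) [Group G], derivedSeries G 2 = ⊥ → C G)
    (hA : AcylR C) (hT : T.IsTree)
    (hact : ∀ (g : G) (u v : V), T.Adj u v → T.Adj (g • u) (g • v))
    (hV : ∀ v : V, C ↥(MulAction.stabilizer G v)) (hvc : ∀ v u : V, T.Adj v u → Vcy (Es G v u))
    (t : G) (ht : Io t) (hcom : ∀ g : G, Cs t g)
    (hedge : ∀ u v, T.Adj u v → ∀ x : G, x • u = u → x • v = v → Cm t x)
    (hL : ∀ v : V, ∃ M : Subgroup G, Lg C T t v M) : C G := by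
  refine of_fg_mem hC t fun H hfg htH => ?_
  refine treeG (G := H) (V := V) (T := T) hC hM hA hfg hT (fun g u v h => hact g u v h)
    (fun v => C_stab hC H v (hV v)) ?_ ⟨t, htH⟩ ?_ ?_ ?_ ?_
  · intro v u hvu
    refine Vcy.of_map ((hvc v u hvu).mono ?_)
    rintro _ ⟨x, hx, rfl⟩
    exact ⟨hx.1, hx.2⟩
  · intro k hk h1
    exact ht k hk (congrArg Subtype.val h1)
  · intro g
    exact Cs_sub.2 (hcom g)
  · intro u v huv x hxu hxv
    rcases hedge u v huv x hxu hxv with h1 | ⟨a, b, ha, hb, h1⟩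
    · exact Or.inl (Subtype.ext h1)
    · exact Or.inr ⟨a, b, ha, hb, Subtype.ext h1⟩
  · intro v
    obtain ⟨M, hM⟩ := hL v
    refine ⟨M.subgroupOf H, ?_, ?_, ?_, ?_, ?_, ?_⟩
    · intro x hx
      exact hM.fix _ (Subgroup.mem_subgroupOf.1 hx)
    · intro g hg x hx
      rw [Subgroup.mem_subgroupOf] at hx ⊢
      exact hM.nor _ hg _ hx
    · intro x hx
      exact Bs_sub.2 (hM.bal _ (Subgroup.mem_subgroupOf.1 hx))
    · intro u hu x hxv hxu
      rw [Subgroup.mem_subgroupOf]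
      exact hM.mem u hu _ hxv hxu
    · intro k hk hx
      refine hM.com k hk ?_
      have h1 : (((⟨t, htH⟩ : H) ^ k : H) : G) ∈
          (⁅M.subgroupOf H, M.subgroupOf H⁆).map H.subtype := ⟨_, hx, rfl⟩
      rw [Subgroup.map_commutator] at h1
      have h2 : (M.subgroupOf H).map H.subtype ≤ M := by
        rintro _ ⟨y, hy, rfl⟩
        exact Subgroup.mem_subgroupOf.1 hy
      exact Subgroup.commutator_mono h2 h2 h1
    · rcases hM.alt with h1 | ⟨P, _, f, hP, hf⟩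
      · left
        intro g hg
        exact Bs_sub.2 (h1 _ hg)
      · right
        refine ⟨P, _, f.comp ((H.subtype.comp (Subgroup.subtype (MulAction.stabilizer H v))).codRestrict
          (MulAction.stabilizer G v) fun g => g.2), hP, ?_⟩
        intro g
        rw [MonoidHom.comp_apply, hf, Subgroup.mem_subgroupOf]
        rfl

theorem cylGa (hC : ClosedE C) (hM : ∀ (G : Type) [Group G], derivedSeries G 2 = ⊥ → C G)
    (hA : AcylR C)
    (hT : T.IsTree) (hact : ∀ (g : G) (u v : V), T.Adj u v → T.Adj (g • u) (g • v))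
    (hV : ∀ v : V, C ↥(MulAction.stabilizer G v)) (hvc : ∀ v u : V, T.Adj v u → Vcy (Es G v u))
    (y : Cyl T (rf G)) (K : Subgroup G)
    (hK : ∀ g ∈ K, Pres hact y g) {v u : V} (h : T.Adj v u) (hy : cy (rf G) h = y)
    {t : G} (htE : t ∈ Es G v u) (ht : Io t) (hi : (Subgroup.zpowers t).relIndex (Es G v u) ≠ 0)
    (hcm : ∀ v' u' : V, T.Adj v' u' → Commensurable (Es G v' u') (Es G v u) → ∀ x ∈ Es G v' u', Cm t x)
    (hG : ∀ (v' u' : V) (h' : T.Adj v' u'), cy (rf G) h' = y → ∀ x ∈ Es G v' u', Io x → Gm C T v' x) :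
    C K := by
  -- the stabilizer of the cylinder
  let _ := cyAct hact (rf_LR (G := G) (T := T))
  obtain ⟨K', hK'⟩ : ∃ K' : Subgroup G, K' = MulAction.stabilizer G y := ⟨_, rfl⟩
  have hcys : ∀ (g : G) {v a : V} (h : T.Adj v a), g • (cy (rf G) h) = cy (rf G) (hact g v a h) :=
    fun g {v a} h => rfl
  have hpres : ∀ g : G, g ∈ K' ↔ Pres hact y g := by
    intro g
    rw [hK', MulAction.mem_stabilizer_iff]
    constructor
    · intro h1 v a h2 hya
      rw [← hcys g h2, hya, h1]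
    · intro h1
      have h2 := h1 v u h hy
      rw [← hcys g h, hy] at h2
      exact h2
  refine C_le hC.base (H := K) (K := K') (fun g hg => (hpres g).2 (hK g hg)) ?_
  have hKp : ∀ g ∈ K', Pres hact y g := fun g hg => (hpres g).1 hg
  have htK : t ∈ K' := by
    rw [hK', MulAction.mem_stabilizer_iff, ← hy, hcys]
    exact cy_congr _ _ htE.1 htE.2
  obtain ⟨W, _, T', ι, hst, hcy⟩ := cyl_subtree hT hact rf_LR y K' hKp
  have hmemE : ∀ (x z : W) (h : K'), h ∈ Es K' x z ↔ (h : G) ∈ Es G (ι x) (ι z) := by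
    intro x z h
    exact ⟨fun hh => ⟨hst.fix.1 hh.1, hst.fix.1 hh.2⟩, fun hh => ⟨hst.fix.2 hh.1, hst.fix.2 hh.2⟩⟩
  have hcomE : ∀ x z : W, T'.Adj x z → Commensurable (Es G (ι x) (ι z)) (Es G v u) := by
    intro x z hxz
    have h1 := hst.adj _ _ hxz
    exact cy_comm h h1 (hy.trans (hcy _ _ hxz h1).symm)
  have hCs : ∀ g : K', Cs t (g : G) := fun g => Cs_of_comm htE ht hi (cy_le hact hKp h hy g.2)
  have htI : Io (⟨t, htK⟩ : K') := fun k hk h1 => ht k hk (congrArg Subtype.val h1)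
  have hstC : ∀ w : W, C ↥(MulAction.stabilizer K' w) := by
    intro w
    rw [hst.stab]
    exact C_stab hC K' _ (hV _)
  by_cases hne : ∃ x z : W, T'.Adj x z
  swap
  · push Not at hne
    exact no_edges hC hst.tree hstC hne
  obtain ⟨x0, z0, hxz0⟩ := hne
  refine treeG' (G := K') (V := W) (T := T') hC hM hA hst.tree hst.act hstC ?_ ⟨t, htK⟩ htI ?_ ?_ ?_
  · intro x z hxz
    refine Vcy.of_map ((hvc _ _ (hst.adj _ _ hxz)).mono ?_)
    rintro _ ⟨h, hh, rfl⟩
    exact (hmemE x z h).1 hh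
  · intro g
    exact Cs_sub.2 (hCs g)
  · intro x z hxz k hkx hkz
    rcases hcm _ _ (hst.adj _ _ hxz) (hcomE x z hxz) k ⟨hst.fix.1 hkx, hst.fix.1 hkz⟩ with
      h3 | ⟨a, b, ha, hb, h3⟩
    · exact Or.inl (Subtype.ext h3)
    · exact Or.inr ⟨a, b, ha, hb, Subtype.ext h3⟩
  · intro w
    obtain ⟨z, hwz⟩ : ∃ z, T'.Adj w z := by
      by_cases hw : w = x0
      · subst hw
        exact ⟨z0, hxz0⟩
      · obtain ⟨p⟩ := hst.tree.connected.preconnected w x0
        cases p with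
        | nil => exact absurd rfl hw
        | cons h _ => exact ⟨_, h⟩
    obtain ⟨m, hm, h3⟩ := pow_of_comm htE (hcomE w z hwz)
    have hmz : (m : ℤ) ≠ 0 := by exact_mod_cast hm
    have h4 : t ^ (m : ℤ) ∈ Es G (ι w) (ι z) := by rwa [zpow_natCast]
    have h5 := hG _ _ (hst.adj _ _ hwz) (hcy _ _ hwz _) _ h4 (ht.zpow hmz)
    have h6 : Gm C T' w ((⟨t, htK⟩ : K') ^ (m : ℤ)) := Gm.pull hst h5
    obtain ⟨M, hfix, hnor, hbal, hmem, hcom, halt⟩ := h6
    refine ⟨M, hfix, ?_, ?_, ?_, ?_, ?_⟩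
    · intro g hg
      exact hnor g hg (Cs_sub.2 (hCs g)).zpow
    · intro x hx
      exact Bs_pow hmz (hbal x hx)
    · intro z' hwz' x hxw hxz
      refine hmem z' hwz' ?_ ⟨hxw, hxz⟩
      obtain ⟨j, hj, h7⟩ := pow_of_comm h4 ((hcomE w z' hwz').trans (hcomE w z hwz).symm)
      refine ⟨j, by exact_mod_cast hj, (hmemE _ _ _).2 ?_⟩
      rw [zpow_natCast]
      exact h7
    · intro k hk hx
      refine hcom k hk ?_
      rw [← zpow_mul, mul_comm, zpow_mul]
      exact zpow_mem hx m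
    · rcases halt with h7 | h7
      · left
        intro g hg
        exact Bs_pow hmz (h7 g hg (Cs_sub.2 (hCs g)).zpow)
      · right
        exact h7 (MulAction.stabilizer K' w) fun g hg => ⟨hg, (Cs_sub.2 (hCs g)).zpow⟩

/-- the general theorem, with an abstract third alternative -/
theorem general3 (hC : ClosedE C)
    (hM : ∀ (G : Type) [Group G], derivedSeries G 2 = ⊥ → C G)
    (hA : AcylR C) (hT : T.IsTree) (hact : ∀ (g : G) (u v : V), T.Adj u v → T.Adj (g • u) (g • v))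
    (hV : ∀ v : V, C ↥(MulAction.stabilizer G v)) (n : ℕ)
    (hint : ∀ v a b, T.Adj v a → T.Adj v b → a ≠ b →
      (Infinite (Es G v a) ∧ Infinite (Es G v b) ∧ Commensurable (Es G v a) (Es G v b)) ∨
      ∀ F : Finset G, (∀ g ∈ F, g ∈ Es G v a ∧ g ∈ Es G v b) → F.card ≤ n)
    (Q : V → V → Prop)
    (hE : ∀ v u : V, T.Adj v u → Infinite (Es G v u) →
      Nm C G (Es G v u) ∨ Al G T (Es G v u) ∨ Q v u)
    (hQ : ∀ (y : Cyl T (rf G)) (K : Subgroup G), (∀ g ∈ K, Pres hact y g) →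
      (∃ (v u : V) (h : T.Adj v u), cy (rf G) h = y) →
      (∀ (v u : V) (h : T.Adj v u), cy (rf G) h = y → Infinite (Es G v u) ∧ Q v u) → C K) : C G := by
  refine cylF hC (hA.acylF hC) hT hact (rf_LR (T := T)) n ?_ hV fun y K hK => ?_
  · intro w a b ha hb hab F hF
    rcases hint w a b ha hb (fun h => hab (Or.inl h)) with h | h
    · exact absurd (Or.inr h) hab
    · exact h F fun g hg => ⟨⟨(hF g hg).1, (hF g hg).2.1⟩, ⟨(hF g hg).1, (hF g hg).2.2⟩⟩
  obtain ⟨⟨⟨v0, a0⟩, h0⟩, hy⟩ := Quotient.exists_rep y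
  have h0 : T.Adj v0 a0 := h0
  have hy : cy (rf G) h0 = y := hy
  by_cases hinf : Infinite (Es G v0 a0)
  · by_cases h1 : ∃ (v u : V) (h : T.Adj v u), cy (rf G) h = y ∧ Nm C G (Es G v u)
    · obtain ⟨v, u, h, hy', hN⟩ := h1
      exact cylNm hC hA hT hact hV y K hK h hy' hN
    by_cases h2 : ∃ (v u : V) (h : T.Adj v u), cy (rf G) h = y ∧ Al G T (Es G v u)
    · obtain ⟨v, u, h, hy', hN⟩ := h2
      exact cylAl hC hM hA hT hact hV y K hK h hy' hN
    refine hQ y K hK ⟨v0, a0, h0, hy⟩ fun v u h hy' => ?_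
    have hinf' : Infinite (Es G v u) := (cy_Rf h0 h (hy.trans hy'.symm)).inf hinf
    refine ⟨hinf', ?_⟩
    rcases hE v u h hinf' with h3 | h3 | h3
    · exact absurd ⟨v, u, h, hy', h3⟩ h1
    · exact absurd ⟨v, u, h, hy', h3⟩ h2
    · exact h3
  · subst hy
    refine C_edge hC v0 a0 (hV v0) K fun g hg => ?_
    have h1 := hK g hg v0 a0 h0 rfl
    rcases Rf_gen (p := dt (hact g v0 a0 h0)) (q := dt h0) (Quotient.exact h1) with
      (h | h) | ⟨_, h, _⟩
    · exact Or.inl ⟨(congrArg Prod.fst h).symm, (congrArg Prod.snd h).symm⟩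
    · exact Or.inr ⟨(congrArg Prod.snd h).symm, (congrArg Prod.fst h).symm⟩
    · exact absurd h hinf

/-- the edge group `Es G v u` is virtually generated by an element `t` of infinite order, all elements
of commensurable edge groups are commensurable to `t`, and the local condition -/
def Gy (C : ∀ (G : Type) [Group G], Prop) (G : Type) {V : Type} [Group G] [MulAction G V]
    (T : SimpleGraph V) (v u : V) : Prop :=
  (∃ t ∈ Es G v u, Io t ∧ (Subgroup.zpowers t).relIndex (Es G v u) ≠ 0 ∧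
    ∀ v' u' : V, T.Adj v' u' → Commensurable (Es G v' u') (Es G v u) → ∀ x ∈ Es G v' u', Cm t x) ∧
  ∀ x ∈ Es G v u, Io x → Gm C T v x

theorem general_Gy (hC : ClosedE C)
    (hM : ∀ (G : Type) [Group G], derivedSeries G 2 = ⊥ → C G)
    (hA : AcylR C) (hT : T.IsTree) (hact : ∀ (g : G) (u v : V), T.Adj u v → T.Adj (g • u) (g • v))
    (hV : ∀ v : V, C ↥(MulAction.stabilizer G v)) (hvc : ∀ v u : V, T.Adj v u → Vcy (Es G v u)) (n : ℕ)
    (hint : ∀ v a b, T.Adj v a → T.Adj v b → a ≠ b →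
      (Infinite (Es G v a) ∧ Infinite (Es G v b) ∧ Commensurable (Es G v a) (Es G v b)) ∨
      ∀ F : Finset G, (∀ g ∈ F, g ∈ Es G v a ∧ g ∈ Es G v b) → F.card ≤ n)
    (hE : ∀ v u : V, T.Adj v u → Infinite (Es G v u) →
      Nm C G (Es G v u) ∨ Al G T (Es G v u) ∨ Gy C G T v u) : C G := by
  refine general3 hC hM hA hT hact hV n hint (Gy C G T) hE fun y K hK hy hG => ?_
  obtain ⟨v, u, h, hy⟩ := hy
  obtain ⟨t, htE, ht, hi, hcm⟩ := (hG v u h hy).2.1
  exact cylGa hC hM hA hT hact hV hvc y K hK h hy htE ht hi hcm fun v' u' h' hy' => (hG v' u' h' hy').2.2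

end Run7.h371.FJ
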