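import Pool.Agent.Run7.h371.FJ.Gb

/-!
# Groups acting on trees with virtually cyclic edge groups: the main theorem
-/

set_option autoImplicit false

namespace Run7.h371.FJ

open SimpleGraph
open Subgroup
open Subgroup.Commensurable (commensurator)
open scoped commutatorElement
open Pool.Agent.N509.TK
open Pool.Agent.Y110.FJ
open Pool.Agent.N509.TX (AcylF C_edge C_stab STree fg_subtree of_fg of_fg_mem cyl_subtree)
open Pool.Agent.R941.FJ (C_equiv C_le C_cyc mem_sup_normal)
open Pool.Agent.N431.CE (Es Es_comm Es_smul rf rf_LR Rf Rf_gen cylF mem_Es le_comm)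

variable {C : ∀ (G : Type) [Group G], Prop}
variable {G V : Type} [Group G] [MulAction G V] {T : SimpleGraph V}

/-- the conditions on an element `x` of infinite order of an edge group at `v` -/
def Gd2 (C : ∀ (G : Type) [Group G], Prop) (T : SimpleGraph V) (v : V) (x : G) : Prop :=
  Bl x ∨ (Tfx T x ∧ ((∀ w : V, Ur x (MulAction.stabilizer G w)) ∨ Gm C T v x))

/-- **virtually cyclic edge groups** -/
theorem cyclic2 (hC : ClosedE C) (hM : ∀ (G : Type) [Group G], derivedSeries G 2 = ⊥ → C G)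
    (hA : AcylR C) (hT : T.IsTree) (hact : ∀ (g : G) (u v : V), T.Adj u v → T.Adj (g • u) (g • v))
    (hV : ∀ v : V, C ↥(MulAction.stabilizer G v))
    (hvc : ∀ v u : V, T.Adj v u → Vcy (Es G v u))
    (hE : ∀ v u : V, T.Adj v u → ∀ x ∈ Es G v u, Io x → Gd2 C T v x) : C G := by
  classical
  refine of_fg hC fun H hfg => ?_
  obtain ⟨o⟩ := hT.connected.nonempty
  have hactH : ∀ (g : H) (u v : V), T.Adj u v → T.Adj (g • u) (g • v) := fun g u v h => hact g u v h
  obtain ⟨W, _, T', ι, Φ, hst0, -, hΦ, htr⟩ := fg_subtree (G := H) hT hactH hfg o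
  have hst : STree H T T' ι := hst0
  -- edge groups of the subtree
  have hmemE : ∀ (x z : W) (h : H), h ∈ Es H x z ↔ (h : G) ∈ Es G (ι x) (ι z) := by
    intro x z h
    exact ⟨fun hh => ⟨hst.fix.1 hh.1, hst.fix.1 hh.2⟩, fun hh => ⟨hst.fix.2 hh.1, hst.fix.2 hh.2⟩⟩
  have hvcH : ∀ x z : W, T'.Adj x z → Vcy (Es H x z) := by
    intro x z hxz
    refine Vcy.of_map ((hvc _ _ (hst.adj _ _ hxz)).mono ?_)
    rintro _ ⟨h, hh, rfl⟩
    exact (hmemE x z h).1 hh
  have hbd : ∀ e : V × V, e ∈ Φ → ∃ n : ℕ, ∀ A : Subgroup G, A ≤ Es G e.1 e.2 → Finite A →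
      Nat.card A ≤ n := fun e he => (hvc _ _ (hΦ e he)).bound
  have hbd' : ∃ n : ℕ, ∀ e ∈ Φ, ∀ A : Subgroup G, A ≤ Es G e.1 e.2 → Finite A → Nat.card A ≤ n := by
    have hex : ∀ e : V × V, ∃ n : ℕ, e ∈ Φ → ∀ A : Subgroup G, A ≤ Es G e.1 e.2 → Finite A →
        Nat.card A ≤ n := by
      intro e
      by_cases he : e ∈ Φ
      · obtain ⟨n, hn⟩ := hbd e he
        exact ⟨n, fun _ => hn⟩
      · exact ⟨0, fun h => absurd h he⟩
    choose f hf using hex
    exact ⟨∑ e ∈ Φ, f e, fun e he A hA hfin => (hf e he A hA hfin).trans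
      (Finset.single_le_sum (f := f) (fun i _ => Nat.zero_le _) he)⟩
  obtain ⟨n, hn⟩ := hbd'
  have hcard : ∀ x z : W, T'.Adj x z → ∀ A : Subgroup H, A ≤ Es H x z → Finite A →
      Nat.card A ≤ n := by
    intro x z hxz A hAE hfin
    obtain ⟨k, hk⟩ := htr x z hxz
    obtain ⟨f, hf⟩ : ∃ f : H →* G, f = (MulAut.conj (k : G)).toMonoidHom.comp H.subtype := ⟨_, rfl⟩
    have hfi : Function.Injective f := by
      rw [hf]
      exact (MulAut.conj (k : G)).injective.comp H.subtype_injective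
    have hfx : ∀ h ∈ A, ∀ w : W, h • w = w → f h • (k : G) • ι w = (k : G) • ι w := by
      intro h _ w hw
      have h1 : (h : G) • ι w = ι w := hst.fix.1 hw
      rw [hf]
      show ((k : G) * h * (k : G)⁻¹) • (k : G) • ι w = _
      rw [mul_smul, inv_smul_smul, mul_smul, h1]
    have h1 : Nat.card A = Nat.card (A.map f) :=
      Nat.card_congr (A.equivMapOfInjective f hfi).toEquiv
    have h2 : Finite (A.map f) := Finite.of_equiv A (A.equivMapOfInjective f hfi).toEquiv
    rw [h1]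
    rcases hk with hk | hk
    · refine hn _ hk _ ?_ h2
      rintro _ ⟨h, hh, rfl⟩
      exact ⟨hfx h hh x (hAE hh).1, hfx h hh z (hAE hh).2⟩
    · refine hn _ hk _ ?_ h2
      rintro _ ⟨h, hh, rfl⟩
      exact ⟨hfx h hh z (hAE hh).2, hfx h hh x (hAE hh).1⟩
  refine general_Gy (G := H) (V := W) (T := T') hC hM hA hst.tree hst.act ?_ hvcH n ?_ ?_
  · intro w
    rw [hst.stab]
    exact C_stab hC H _ (hV _)
  · intro v a b ha hb _
    by_cases hI : Finite ((Es H v a ⊓ Es H v b : Subgroup H))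
    · right
      intro F hF
      refine le_trans ?_ (hcard v a ha _ inf_le_left hI)
      have h3 : Nat.card F = F.card := by
        rw [Nat.card_eq_fintype_card, Fintype.card_coe]
      rw [← h3]
      exact Nat.card_le_card_of_injective
        (fun g : F => (⟨g, (hF g g.2).1, (hF g g.2).2⟩ : (Es H v a ⊓ Es H v b : Subgroup H)))
        (fun g g' hgg => Subtype.ext (congrArg (fun z : (Es H v a ⊓ Es H v b : Subgroup H) =>
          (z : H)) hgg))
    · left
      rw [not_finite_iff_infinite] at hI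
      have h1 : Infinite (Es H v a) := Infinite.of_injective
        (Subgroup.inclusion (inf_le_left : Es H v a ⊓ Es H v b ≤ Es H v a))
        (Subgroup.inclusion_injective _)
      have h2 : Infinite (Es H v b) := Infinite.of_injective
        (Subgroup.inclusion (inf_le_right : Es H v a ⊓ Es H v b ≤ Es H v b))
        (Subgroup.inclusion_injective _)
      refine ⟨h1, h2, ?_, ?_⟩
      · have h3 := (hvcH v b hb).inf inf_le_right hI
        rwa [Subgroup.inf_relIndex_right] at h3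
      · have h3 := (hvcH v a ha).inf inf_le_left hI
        rwa [Subgroup.inf_relIndex_left] at h3
  · intro v u hvu hinf
    obtain ⟨s, hsE, hs, hi⟩ := (hvcH v u hvu).io hinf
    have hsG : Io (s : G) := by
      intro k hk h1
      exact hs k hk (Subtype.ext h1)
    have hTcm : Tfx T (s : G) → ∀ v' u' : W, T'.Adj v' u' →
        Commensurable (Es H v' u') (Es H v u) → ∀ x ∈ Es H v' u', Cm s x := by
      intro htf v' u' h' hcom x hx
      refine Cm_of_comm hi hcom hx fun m hm h1 => ?_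
      obtain ⟨j, hj, h2⟩ := pow_of_comm hsE hcom
      refine Subtype.ext (htf _ _ (hst.adj _ _ h') ⟨j, by exact_mod_cast hj, ?_⟩ x
        ((hmemE _ _ _).1 hx) m hm (congrArg Subtype.val h1))
      rw [zpow_natCast]
      exact (hmemE _ _ _).1 h2
    by_cases hb : ∃ x ∈ Es H v u, Io x ∧ Bl (x : G)
    · obtain ⟨x, hxE, hx, h1⟩ := hb
      left
      refine Nm_of_bal hM hxE hx ((hvcH v u hvu).fin hxE hx) ?_
      intro g m k hm h3
      exact h1 g m k hm (congrArg Subtype.val h3)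
    by_cases ha : ∃ x ∈ Es H v u, Io x ∧ Tfx T (x : G) ∧
        ∀ w : V, Ur (x : G) (MulAction.stabilizer G w)
    · obtain ⟨r, hrE, hr, h1, h2⟩ := ha
      right
      left
      have hir := (hvcH v u hvu).fin hrE hr
      refine ⟨r, hrE, hr, hir, ?_, ?_⟩
      · intro w x hx z hz hxs m hm h3
        have h4 : ∃ a b : ℤ, a ≠ 0 ∧ b ≠ 0 ∧ (x : G) ^ a = (r : G) ^ b := by
          obtain ⟨a, b, ha, hb, h3⟩ := hxs
          exact ⟨a, b, ha, hb, congrArg Subtype.val h3⟩
        exact Subtype.ext (h2 (ι w) x (hst.fix.1 hx) z (hst.fix.1 hz) h4 m hm (congrArg Subtype.val h3))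
      · intro v' u' h' hcom x hx
        refine Cm_of_comm hir hcom hx fun m hm h3 => ?_
        obtain ⟨j, hj, h4⟩ := pow_of_comm hrE hcom
        refine Subtype.ext (h1 _ _ (hst.adj _ _ h') ⟨j, by exact_mod_cast hj, ?_⟩ x
          ((hmemE _ _ _).1 hx) m hm (congrArg Subtype.val h3))
        rw [zpow_natCast]
        exact (hmemE _ _ _).1 h4
    right
    right
    have key : ∀ x ∈ Es H v u, Io x → Tfx T (x : G) ∧ Gm C T (ι v) (x : G) := by
      intro x hxE hx
      have hxG : Io (x : G) := fun k hk h1 => hx k hk (Subtype.ext h1)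
      rcases hE _ _ (hst.adj _ _ hvu) x ((hmemE _ _ _).1 hxE) hxG with h1 | ⟨h1, h2 | h2⟩
      · exact absurd ⟨x, hxE, hx, h1⟩ hb
      · exact absurd ⟨x, hxE, hx, h1, h2⟩ ha
      · exact ⟨h1, h2⟩
    refine ⟨⟨s, hsE, hs, hi, fun v' u' h' hcom => hTcm (key s hsE hs).1 v' u' h' hcom⟩, ?_⟩
    intro x hxE hx
    exact Gm.pull hst (key x hxE hx).2

/-! ### sufficient conditions -/

/-- the elements of `S` which have a nonzero power in common with `x`, and the identity -/
def Rts (x : G) (S : Subgroup G) : Set G := {y | y ∈ S ∧ Cm x y}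

theorem Cm.bs {x y : G} (h : Cm x y) : y ∈ Bs x := by
  rcases h with rfl | ⟨a, b, ha, hb, h⟩
  · exact one_mem _
  · refine ⟨b, hb, Or.inl ?_⟩
    rw [← h]
    group

theorem Cm.of_edge {v u : V} {x : G} (hxi : Io x) (hvc : Vcy (Es G v u))
    (htf : Tfx T x) (hvu : T.Adj v u) (hk : ∃ k : ℤ, k ≠ 0 ∧ x ^ k ∈ Es G v u) :
    ∀ y ∈ Es G v u, Cm x y := by
  intro y hy
  obtain ⟨k, hk, hxk⟩ := hk
  have h1 := hvc.fin hxk (hxi.zpow hk)
  obtain ⟨m, hm, -, h2⟩ := Subgroup.exists_pow_mem_of_relIndex_ne_zero h1 hy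
  obtain ⟨j, hj⟩ := h2.1
  have hj : (x ^ k) ^ j = y ^ m := hj
  by_cases hj0 : j = 0
  · left
    refine htf v u hvu ⟨k, hk, hxk⟩ y hy m hm.ne' ?_
    rw [← hj, hj0, zpow_zero]
  · right
    refine ⟨(m : ℤ), k * j, by exact_mod_cast hm.ne', mul_ne_zero hk hj0, ?_⟩
    rw [zpow_natCast, ← hj, zpow_mul]

/-- balanced vertex groups in which no nontrivial power of `x` is a product of commutators of
products of elements commensurable to `x` -/
theorem Gm_of_bal {v : V} {x : G} (hxi : Io x) (hvc : ∀ v u : V, T.Adj v u → Vcy (Es G v u))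
    (htf : Tfx T x)
    (hb : ∀ g : G, g • v = v → ∀ m n : ℤ, m ≠ 0 → g * x ^ m * g⁻¹ = x ^ n → m.natAbs = n.natAbs)
    (hcom : ∀ k : ℤ, k ≠ 0 →
      x ^ k ∉ ⁅Subgroup.closure (Rts x (MulAction.stabilizer G v)),
        Subgroup.closure (Rts x (MulAction.stabilizer G v))⁆) : Gm C T v x := by
  obtain ⟨M, hMd⟩ : ∃ M : Subgroup G, M = Subgroup.closure (Rts x (MulAction.stabilizer G v)) :=
    ⟨_, rfl⟩
  rw [← hMd] at hcom
  have hsub : ∀ y : G, y • v = v → Cm x y → y ∈ M := by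
    intro y hy hxy
    rw [hMd]
    exact Subgroup.subset_closure ⟨hy, hxy⟩
  refine ⟨M, ?_, ?_, ?_, ?_, hcom, Or.inl ?_⟩
  · have h1 : M ≤ MulAction.stabilizer G v := by
      rw [hMd, Subgroup.closure_le]
      exact fun y hy => hy.1
    exact fun y hy => h1 hy
  · intro g hg hgx
    have h1 : M ≤ M.comap (MulAut.conj g).toMonoidHom := by
      conv_lhs => rw [hMd]
      rw [Subgroup.closure_le]
      rintro y ⟨hy, hxy⟩
      refine hsub _ ?_ ?_
      · have hy : y • v = v := hy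
        show (g * y * g⁻¹) • v = v
        have hg' : g⁻¹ • v = v := inv_smul_eq_iff.2 hg.symm
        rw [mul_smul, mul_smul, hg', hy, hg]
      · show Cm x (g * y * g⁻¹)
        rcases hxy with rfl | ⟨a, b, ha, hb, hxy⟩
        · left
          group
        · right
          obtain ⟨c, d, hc, hd, h2⟩ := hgx
          refine ⟨a * c, d * b, mul_ne_zero ha hc, mul_ne_zero hd hb, ?_⟩
          have h3 := Cs.pow h2 b
          have h4 : (g * y * g⁻¹) ^ (a * c) = g * y ^ (a * c) * g⁻¹ := conj_zpow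
          rw [h4, zpow_mul, hxy, ← zpow_mul, mul_comm b c, h3]
    exact fun y hy => h1 hy
  · have h1 : M ≤ Bs x := by
      rw [hMd, Subgroup.closure_le]
      exact fun y hy => hy.2.bs
    exact fun y hy => h1 hy
  · intro u hvu hk y hy
    exact hsub y hy.1 (Cm.of_edge hxi (hvc v u hvu) htf hvu hk y hy)
  · intro g hg hgx
    exact bs_of_bal (hb g hg) hgx

/-- elements which are not in all terms of the rational derived series of the virtual centralizer -/
theorem Gm_of_Rd (hC : ClosedE C) (hM : ∀ (G : Type) [Group G], derivedSeries G 2 = ⊥ → C G)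
    {v : V} {x : G} (hxv : x • v = v) (hxi : Io x) (hvc : ∀ v u : V, T.Adj v u → Vcy (Es G v u))
    (htf : Tfx T x) (hn : ∃ n, x ∉ Rd (Vz x (MulAction.stabilizer G v)) n) : Gm C T v x := by
  classical
  obtain ⟨K, hKd⟩ : ∃ K : Subgroup G, K = Vz x (MulAction.stabilizer G v) := ⟨_, rfl⟩
  rw [← hKd] at hn
  have hxK : x ∈ K := by
    rw [hKd]
    exact ⟨hxv, 1, one_ne_zero, by rw [zpow_one]⟩
  obtain ⟨n, hn1, hn2⟩ : ∃ n, x ∉ Rd K (n + 1) ∧ x ∈ Rd K n := by
    obtain ⟨n0, hn0⟩ : ∃ n0, n0 = Nat.find hn := ⟨_, rfl⟩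
    have h1 : x ∉ Rd K n0 := hn0 ▸ Nat.find_spec hn
    cases n0 with
    | zero => exact absurd hxK h1
    | succ m =>
      refine ⟨m, h1, ?_⟩
      by_contra h2
      have h3 := Nat.find_min' hn h2
      rw [← hn0] at h3
      omega
  obtain ⟨M, hMd⟩ : ∃ M : Subgroup G, M = Rd K n := ⟨_, rfl⟩
  rw [← hMd] at hn2
  have hMK : M ≤ K := by
    rw [hMd]
    exact Rd_le K n
  have hMn : ∀ g : G, g • v = v → Cs x g → ∀ y ∈ M, g * y * g⁻¹ ∈ M := by
    intro g hg hgx
    rw [hMd]
    refine Rd_conj ?_ n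
    intro y hy
    rw [hKd] at hy ⊢
    exact Vz_conj hg hgx hy
  refine ⟨M, ?_, hMn, ?_, ?_, ?_, Or.inr ?_⟩
  · intro y hy
    have h1 := hMK hy
    rw [hKd] at h1
    exact h1.1
  · intro y hy
    have h1 := hMK hy
    rw [hKd] at h1
    obtain ⟨_, m, hm, h2⟩ := h1
    refine ⟨m, hm, Or.inl ?_⟩
    rw [h2, mul_inv_cancel_right]
  · intro u hvu hk y hy
    have h1 := Cm.of_edge hxi (hvc v u hvu) htf hvu hk y hy
    have hyK : y ∈ K := by
      rw [hKd]
      exact h1.mem_Vz hy.1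
    rcases h1 with rfl | ⟨a, b, ha, hb, h1⟩
    · exact one_mem _
    · rw [hMd] at hn2 ⊢
      refine Rd_root' hyK ha ?_
      rw [h1]
      exact zpow_mem hn2 b
  · intro k hk hx
    apply hn1
    refine Rd_root' hxK hk (n := n + 1) ?_
    rw [hMd] at hx
    exact comm_le_rc _ hx
  · intro L hL
    obtain ⟨N, hN⟩ : ∃ N : Subgroup L, N = M.subgroupOf L := ⟨_, rfl⟩
    have hmN : ∀ y : L, y ∈ N ↔ (y : G) ∈ M := fun y => by rw [hN, Subgroup.mem_subgroupOf]
    have hNn : N.Normal := by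
      refine ⟨fun y hy g => ?_⟩
      rw [hmN] at hy ⊢
      exact hMn g (hL g g.2).1 (hL g g.2).2 y hy
    refine ⟨L ⧸ N, inferInstance, QuotientGroup.mk' N, ?_, ?_⟩
    · refine C_solv hC hM (n + 1) _ ?_
      have key : ∀ j, (derivedSeries L (j + 1)).map (Subgroup.subtype _) ≤ Rd K j := by
        intro j
        induction j with
        | zero =>
          rw [derivedSeries_one, commutator_def, Subgroup.map_commutator, Subgroup.commutator_le]
          rintro _ ⟨a, _, rfl⟩ _ ⟨b, _, rfl⟩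
          show ⁅(a : G), (b : G)⁆ ∈ K
          rw [hKd]
          exact comm_Vz (hL a a.2).1 (hL b b.2).1 (hL a a.2).2 (hL b b.2).2
        | succ j ih =>
          rw [derivedSeries_succ, Subgroup.map_commutator]
          exact (Subgroup.commutator_mono ih ih).trans (comm_le_rc _)
      rw [← map_derivedSeries_eq (QuotientGroup.mk'_surjective N), Subgroup.map_eq_bot_iff,
        QuotientGroup.ker_mk']
      intro y hy
      rw [hmN, hMd]
      exact key n ⟨y, hy, rfl⟩
    · intro g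
      rw [← hmN]
      exact QuotientGroup.eq_one_iff g

/-- **torsion-free edge groups**, vertex groups in which the elements of infinite order have unique
roots -/
theorem unique_roots' (hC : ClosedE C) (hM : ∀ (G : Type) [Group G], derivedSeries G 2 = ⊥ → C G)
    (hA : AcylR C) (hT : T.IsTree) (hact : ∀ (g : G) (u v : V), T.Adj u v → T.Adj (g • u) (g • v))
    (hV : ∀ v : V, C ↥(MulAction.stabilizer G v))
    (hvc : ∀ v u : V, T.Adj v u → Vcy (Es G v u))
    (htf : ∀ v u : V, T.Adj v u → ∀ x ∈ Es G v u, ∀ m : ℕ, m ≠ 0 → x ^ m = 1 → x = 1)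
    (hU : ∀ v : V, ∀ x ∈ MulAction.stabilizer G v, ∀ y ∈ MulAction.stabilizer G v, Io x →
      ∀ m : ℕ, m ≠ 0 → x ^ m = y ^ m → x = y) : C G := by
  refine cyclic2 hC hM hA hT hact hV hvc fun v u hvu x hx hxi => Or.inr ⟨?_, Or.inl ?_⟩
  · exact fun v' u' h' _ y hy m hm h1 => htf v' u' h' y hy m hm h1
  · intro w a ha b hb hab m hm h1
    refine hU w a ha b hb ?_ m hm h1
    obtain ⟨i, j, hi, hj, h2⟩ := hab
    intro k hk h3
    refine hxi (j * k) (mul_ne_zero hj hk) ?_
    rw [zpow_mul, ← h2, ← zpow_mul, mul_comm, zpow_mul, h3, one_zpow]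

/-- **torsion-free edge groups** whose elements survive in the vertex groups -/
theorem survive (hC : ClosedE C) (hM : ∀ (G : Type) [Group G], derivedSeries G 2 = ⊥ → C G)
    (hA : AcylR C) (hT : T.IsTree) (hact : ∀ (g : G) (u v : V), T.Adj u v → T.Adj (g • u) (g • v))
    (hV : ∀ v : V, C ↥(MulAction.stabilizer G v))
    (hvc : ∀ v u : V, T.Adj v u → Vcy (Es G v u))
    (htf : ∀ v u : V, T.Adj v u → ∀ x ∈ Es G v u, ∀ m : ℕ, m ≠ 0 → x ^ m = 1 → x = 1)
    (hE : ∀ v u : V, T.Adj v u → ∀ x ∈ Es G v u, x ≠ 1 →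
      (∃ n, x ∉ Rd (Vz x (MulAction.stabilizer G v)) n) ∨
      ((∀ g : G, g • v = v → ∀ m n : ℤ, m ≠ 0 → g * x ^ m * g⁻¹ = x ^ n → m.natAbs = n.natAbs) ∧
        ∀ k : ℤ, k ≠ 0 → x ^ k ∉ ⁅Subgroup.closure (Rts x (MulAction.stabilizer G v)),
          Subgroup.closure (Rts x (MulAction.stabilizer G v))⁆)) : C G := by
  refine cyclic2 hC hM hA hT hact hV hvc fun v u hvu x hx hxi => Or.inr ?_
  have hT' : Tfx T x := fun v' u' h' _ y hy m hm h1 => htf v' u' h' y hy m hm h1
  have hx1 : x ≠ 1 := by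
    rintro rfl
    exact hxi 1 one_ne_zero (one_zpow 1)
  refine ⟨hT', Or.inr ?_⟩
  rcases hE v u hvu x hx hx1 with h | ⟨h1, h2⟩
  · exact Gm_of_Rd hC hM hx.1 hxi hvc hT' h
  · exact Gm_of_bal hxi hvc hT' h1 h2

end Run7.h371.FJ
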