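import Pool.Agent.Run7.h371.FJ.Qt

/-!
# Local conditions at the vertices
-/

set_option autoImplicit false

namespace Run7.h371.FJ

open SimpleGraph
open Pool.Agent.N509.TK
open Pool.Agent.Y110.FJ
open Pool.Agent.R941.FJ (C_equiv C_le C_cyc mem_sup_normal)

variable {C : ∀ (G : Type) [Group G], Prop}
variable {G V : Type} {T : SimpleGraph V} [Group G] [MulAction G V]

/-- the local condition: `M` is the kernel of a homomorphism from the stabilizer of `v` to a group in
`C`, it contains the edge groups at `v`, and these intersect `[M, M]` trivially -/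
structure Lc (C : ∀ (G : Type) [Group G], Prop) (T : SimpleGraph V) (v : V) (M : Subgroup G) :
    Prop where
  fix : ∀ x ∈ M, x • v = v
  qk : Qk C v M
  mem : ∀ u, T.Adj v u → ∀ x : G, x • v = v → x • u = u → x ∈ M
  com : ∀ u, T.Adj v u → ∀ x : G, x • u = u → x ∈ ⁅M, M⁆ → x = 1

theorem mem_map_conj {M : Subgroup G} {g x : G} :
    x ∈ M.map (MulAut.conj g).toMonoidHom ↔ g⁻¹ * x * g ∈ M := by
  constructor
  · rintro ⟨y, hy, rfl⟩
    have h : g⁻¹ * ((MulAut.conj g).toMonoidHom y) * g = y := by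
      show g⁻¹ * (g * y * g⁻¹) * g = y
      group
    rwa [h]
  · intro h
    refine ⟨_, h, ?_⟩
    show g * (g⁻¹ * x * g) * g⁻¹ = x
    group

theorem Lc.norm {v : V} {M : Subgroup G} (h : Lc C T v M) {g x : G} (hg : g • v = v) (hx : x ∈ M) :
    g * x * g⁻¹ ∈ M := by
  obtain ⟨P, _, f, -, hf⟩ := h.qk
  have h1 := (hf (⟨g, hg⟩ * ⟨x, h.fix x hx⟩ * ⟨g, hg⟩⁻¹)).1 (by
    rw [map_mul, map_mul, map_inv, (hf ⟨x, h.fix x hx⟩).2 hx, mul_one, mul_inv_cancel])
  exact h1

theorem Lc.conj (hact : ∀ (g : G) (u v : V), T.Adj u v → T.Adj (g • u) (g • v)) {v : V}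
    {M : Subgroup G} (h : Lc C T v M) (g : G) :
    Lc C T (g • v) (M.map (MulAut.conj g).toMonoidHom) where
  fix x hx := by
    rw [mem_map_conj] at hx
    have h1 := h.fix _ hx
    rw [mul_smul, mul_smul, inv_smul_eq_iff] at h1
    exact h1
  qk := by
    obtain ⟨P, _, f, hP, hf⟩ := h.qk
    have hmem : ∀ x : MulAction.stabilizer G (g • v),
        ((MulAut.conj g⁻¹).toMonoidHom.comp (Subgroup.subtype (MulAction.stabilizer G (g • v)))) x ∈
          MulAction.stabilizer G v := by
      rintro ⟨x, hx⟩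
      show (g⁻¹ * x * g⁻¹⁻¹) • v = v
      have hx : x • g • v = g • v := hx
      rw [inv_inv, mul_smul, mul_smul, hx, inv_smul_smul]
    refine ⟨P, _, f.comp (((MulAut.conj g⁻¹).toMonoidHom.comp (Subgroup.subtype _)).codRestrict _
      hmem), hP, ?_⟩
    rintro ⟨x, hx⟩
    rw [MonoidHom.comp_apply, hf, mem_map_conj]
    show g⁻¹ * x * g⁻¹⁻¹ ∈ M ↔ _
    rw [inv_inv]
  mem u hu x hxv hxu := by
    rw [mem_map_conj]
    have h1 := hact g⁻¹ _ _ hu
    rw [inv_smul_smul] at h1
    refine h.mem _ h1 _ ?_ ?_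
    · rw [mul_smul, mul_smul, hxv, inv_smul_smul]
    · rw [mul_smul, mul_smul, smul_inv_smul, hxu]
  com u hu x hxu hx := by
    rw [← Subgroup.map_commutator, mem_map_conj] at hx
    have h1 := hact g⁻¹ _ _ hu
    rw [inv_smul_smul] at h1
    have h2 := h.com _ h1 _ (by rw [mul_smul, mul_smul, smul_inv_smul, hxu]) hx
    have h3 : x = g * (g⁻¹ * x * g) * g⁻¹ := by group
    rw [h3, h2]
    group

/-- **a group acting on a tree, with a local condition at each vertex** -/
theorem treeD (hC : ClosedE C) (hM : ∀ (G : Type) [Group G], derivedSeries G 2 = ⊥ → C G)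
    (hT : T.IsTree) (hact : ∀ (g : G) (u v : V), T.Adj u v → T.Adj (g • u) (g • v))
    (hV : ∀ v : V, C ↥(MulAction.stabilizer G v)) (hL : ∀ v : V, ∃ M : Subgroup G, Lc C T v M) :
    C G := by
  choose M0 hM0 using hL
  obtain ⟨rep, hrep⟩ : ∃ rep : V → V, rep = fun v =>
      (Quotient.mk (MulAction.orbitRel G V) v).out := ⟨_, rfl⟩
  have hk : ∀ v : V, ∃ k : G, k • rep v = v := by
    intro v
    have h1 : (MulAction.orbitRel G V).r v (rep v) := by
      refine Quotient.exact ?_
      rw [hrep]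
      exact (Quotient.out_eq _).symm
    exact h1
  choose k hk using hk
  have hrs : ∀ (g : G) (v : V), rep (g • v) = rep v := by
    intro g v
    rw [hrep]
    show Quotient.out _ = Quotient.out _
    congr 1
    exact Quotient.sound ⟨g, rfl⟩
  obtain ⟨R, hRd⟩ : ∃ R : V → Subgroup G,
      R = fun v => (M0 (rep v)).map (MulAut.conj (k v)).toMonoidHom := ⟨_, rfl⟩
  have hLc : ∀ v, Lc C T v (R v) := by
    intro v
    rw [hRd]
    have h1 := (hM0 (rep v)).conj hact (k v)
    rwa [hk] at h1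
  have hR : Fm T R := by
    refine ⟨fun v => (hLc v).fix, ?_, ?_⟩
    · intro g v x hx
      rw [hRd] at hx ⊢
      change x ∈ (M0 (rep v)).map _ at hx
      show _ ∈ (M0 (rep (g • v))).map _
      rw [mem_map_conj] at hx
      rw [mem_map_conj, hrs]
      have h1 : ((k (g • v))⁻¹ * g * k v) • rep v = rep v := by
        have h2 := hk (g • v)
        rw [hrs] at h2
        rw [mul_smul, mul_smul, hk, inv_smul_eq_iff, h2]
      have h3 := (hM0 (rep v)).norm h1 hx
      convert h3 using 1
      group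
    · intro u v huv r hr hru
      exact (hLc u).mem v huv r hru ((hLc v).fix r hr)
  have hn := hR.normal
  refine step hC hM hT hact hR (quotC hC hT hact hR (fun v => (hLc v).qk) ?_) ?_ hV
  · intro u v huv g hgu hgv
    exact (hLc u).mem v huv g hgu hgv
  · intro v u hvu x hxu hx
    exact (hLc v).com u hvu x hxu hx

end Run7.h371.FJ
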