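import Pool.Agent.Run7.h371.FJ.Fm

/-!
# The quotient by the group generated by a family, and extensions by this group
-/

set_option autoImplicit false

namespace Run7.h371.FJ

open SimpleGraph
open Pool.Agent.N509.TK
open Pool.Agent.Y110.FJ
open Pool.Agent.R941.FJ (C_equiv C_le C_cyc mem_sup_normal)

variable {C : ∀ (G : Type) [Group G], Prop}
variable {G V : Type} {T : SimpleGraph V} [Group G] [MulAction G V] {R : V → Subgroup G}

/-- the subgroup `M` of the stabilizer of `v` is the kernel of a homomorphism to a group in `C` -/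
def Qk (C : ∀ (G : Type) [Group G], Prop) {G V : Type} [Group G] [MulAction G V] (v : V)
    (M : Subgroup G) : Prop :=
  ∃ (P : Type) (_ : Group P) (f : MulAction.stabilizer G v →* P), C P ∧
    ∀ x : MulAction.stabilizer G v, f x = 1 ↔ (x : G) ∈ M

theorem sm_vertex {N : Subgroup G} {S : Set V} (hq : Tq T N S) {g : G} {s : S}
    (h : sm hq g s = s) : ∃ h ∈ N, (h⁻¹ * g) • (s : V) = s := by
  obtain ⟨k, hk, h2⟩ := sm_spec hq g s
  rw [h] at h2
  refine ⟨k, hk, ?_⟩
  rw [mul_smul, h2, inv_smul_smul]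

theorem sm_edge {N : Subgroup G} {S : Set V}
    (hact : ∀ (g : G) (u v : V), T.Adj u v → T.Adj (g • u) (g • v)) (hq : Tq T N S) {g : G}
    {s t : S} (hadj : T.Adj (s : V) (t : V)) (hs : sm hq g s = s) (ht : sm hq g t = t) :
    ∃ h ∈ N, (h⁻¹ * g) • (s : V) = s ∧ (h⁻¹ * g) • (t : V) = t := by
  obtain ⟨h, hh, h1⟩ := sm_vertex hq hs
  obtain ⟨k, hk, h3⟩ := sm_vertex hq ht
  have h4 := hact (h⁻¹ * g) _ _ hadj
  rw [h1] at h4
  obtain ⟨u, hu, h5, r, hr, hrs, h6⟩ := hq.max _ s.2 _ h4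
  rw [mul_smul, inv_smul_eq_iff] at h3
  have h7 : u = t := by
    refine hq.trans (k⁻¹ * h * r) (mul_mem (mul_mem (inv_mem hk) hh) hr) u hu t t.2 ?_
    rw [mul_smul, h6, mul_smul, mul_smul, smul_inv_smul, h3, inv_smul_smul]
  subst h7
  refine ⟨h * r, mul_mem hh hr, ?_, ?_⟩
  · have h8 : (h * r)⁻¹ * g = r⁻¹ * (h⁻¹ * g) := by group
    rw [h8, mul_smul, h1, inv_smul_eq_iff, hrs]
  · have h8 : (h * r)⁻¹ * g = r⁻¹ * (h⁻¹ * g) := by group
    rw [h8, mul_smul, ← h6, inv_smul_smul]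

/-- **the quotient by the group generated by a family which contains the edge groups** -/
theorem quotC (hC : ClosedE C) (hT : T.IsTree)
    (hact : ∀ (g : G) (u v : V), T.Adj u v → T.Adj (g • u) (g • v)) (hR : Fm T R)
    [(⨆ v, R v).Normal] (hQ : ∀ v, Qk C v (R v))
    (hE : ∀ u v : V, T.Adj u v → ∀ g : G, g • u = u → g • v = v → g ∈ R u) :
    C (G ⧸ ⨆ v, R v) := by
  obtain ⟨S, hS⟩ := Tv.exists (R := R) hT
  have hq := hR.tq hT hact hS
  obtain ⟨N, hN⟩ : ∃ N : Subgroup G, N = ⨆ v, R v := ⟨_, rfl⟩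
  have hNn : N.Normal := hN ▸ inferInstance
  have hst : ∀ {x : G}, x ∈ N → ∀ {v : V}, x • v = v → x ∈ R v := fun {x} hx {v} h =>
    hR.stab hT hact (hN ▸ hx) h
  have hle : ∀ v, R v ≤ N := fun v => hN ▸ le_iSup R v
  suffices h : C (G ⧸ N) from
    C_equiv hC.base (QuotientGroup.quotientMulEquivOfEq hN.symm) h
  rw [← hN] at hq
  let _ := qa hq
  have hsm : ∀ (g : G) (s : S), ((g : G ⧸ N)) • s = s → ∃ h ∈ N, h⁻¹ * g ∈ MulAction.stabilizer G (s : V) := by
    intro g s hg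
    have h1 : sm hq g s = s := hg
    obtain ⟨h, hh, h2⟩ := sm_spec hq g s
    rw [h1] at h2
    refine ⟨h, hh, ?_⟩
    rw [MulAction.mem_stabilizer_iff, mul_smul, h2, inv_smul_smul]
  -- the stabilizers of the vertices
  have hSt : ∀ s : S, C ↥(MulAction.stabilizer (G ⧸ N) s) := by
    intro s
    obtain ⟨P, _, f, hP, hf⟩ := hQ s
    have hmem : ∀ x : MulAction.stabilizer G (s : V),
        ((x : G) : G ⧸ N) ∈ MulAction.stabilizer (G ⧸ N) s := by
      intro x
      show sm hq (x : G) s = s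
      exact sm_eq hq (h := 1) (one_mem _) (by rw [one_smul]; exact x.2)
    let π : MulAction.stabilizer G (s : V) →* MulAction.stabilizer (G ⧸ N) s :=
      ((QuotientGroup.mk' N).comp (Subgroup.subtype _)).codRestrict _ hmem
    have hπ : Function.Surjective π := by
      rintro ⟨q, hq'⟩
      obtain ⟨g, rfl⟩ := QuotientGroup.mk_surjective q
      obtain ⟨h, hh, h1⟩ := hsm g s hq'
      refine ⟨⟨h⁻¹ * g, h1⟩, Subtype.ext ?_⟩
      show ((h⁻¹ * g : G) : G ⧸ N) = (g : G ⧸ N)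
      rw [QuotientGroup.mk_mul, (QuotientGroup.eq_one_iff _).2 (inv_mem hh), one_mul]
    have hker : π.ker = f.ker := by
      ext x
      rw [MonoidHom.mem_ker, MonoidHom.mem_ker, hf]
      constructor
      · intro h
        have h1 : (((x : G) : G ⧸ N)) = 1 := congrArg Subtype.val h
        exact hst ((QuotientGroup.eq_one_iff _).1 h1) x.2
      · intro h
        exact Subtype.ext ((QuotientGroup.eq_one_iff _).2 (hle _ h))
    refine C_equiv hC.base (QuotientGroup.quotientKerEquivOfSurjective π hπ).symm ?_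
    refine C_equiv hC.base (QuotientGroup.quotientMulEquivOfEq hker) ?_
    exact hC.base.of_injective _ _ (QuotientGroup.kerLift f) (QuotientGroup.kerLift_injective f) hP
  refine crit (G := G ⧸ N) (V := S) (T := T.induce S) hC (hq.isTree hT) ?_
    (1 : G ⧸ N →* Multiplicative ℤ) hC.base.int ?_ ?_
  · intro q s t hst
    obtain ⟨g, rfl⟩ := QuotientGroup.mk_surjective q
    exact sm_adj hact hq g s t hst
  · intro s t hadj q hs ht _
    have hadj : T.Adj (s : V) (t : V) := hadj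
    obtain ⟨g, rfl⟩ := QuotientGroup.mk_surjective q
    obtain ⟨h, hh, h1⟩ := hsm g s hs
    obtain ⟨g', hg'⟩ : ∃ g' : G, g' = h⁻¹ * g := ⟨_, rfl⟩
    have h2 : ((g : G) : G ⧸ N) = ((g' : G) : G ⧸ N) := by
      rw [hg', QuotientGroup.mk_mul, (QuotientGroup.eq_one_iff _).2 (inv_mem hh), one_mul]
    rw [← hg'] at h1
    have h1 : g' • (s : V) = s := h1
    rw [h2] at ht ⊢
    obtain ⟨k, hk, h3⟩ := hsm g' t ht
    have h3 : (k⁻¹ * g') • (t : V) = t := h3
    rw [mul_smul, inv_smul_eq_iff] at h3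
    have h4 := hact g' _ _ hadj
    rw [h1] at h4
    obtain ⟨u, hu, h5, r, hr, hrs, h6⟩ := hq.max _ s.2 _ h4
    have h7 : u = t := by
      refine hq.trans (k⁻¹ * r) (mul_mem (inv_mem hk) hr) u hu t t.2 ?_
      rw [mul_smul, h6, h3, inv_smul_smul]
    subst h7
    have h8 : r⁻¹ * g' ∈ R (s : V) := by
      refine hE _ _ hadj _ ?_ ?_
      · rw [mul_smul, h1, inv_smul_eq_iff, hrs]
      · rw [mul_smul, ← h6, inv_smul_smul]
    refine (QuotientGroup.eq_one_iff _).2 ?_
    have h9 := mul_mem hr (hle _ h8)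
    rwa [mul_inv_cancel_left] at h9
  · intro s q hq'
    refine C_le hC.base (sup_le inf_le_left ?_) (hSt s)
    rw [Subgroup.zpowers_le]
    exact hq'

/-- the products of the group generated by a family and a cyclic group -/
theorem cycC (hC : ClosedE C) (hM : ∀ (G : Type) [Group G], derivedSeries G 2 = ⊥ → C G)
    (hT : T.IsTree) (hact : ∀ (g : G) (u v : V), T.Adj u v → T.Adj (g • u) (g • v))
    (hR : Fm T R) (hE : ∀ v u : V, T.Adj v u → ∀ x : G, x • u = u → x ∈ ⁅R v, R v⁆ → x = 1)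
    (hV : ∀ v : V, C ↥(MulAction.stabilizer G v)) (g : G) :
    C ↥((⨆ v, R v) ⊔ Subgroup.zpowers g) := by
  obtain ⟨N, hN⟩ : ∃ N : Subgroup G, N = ⨆ v, R v := ⟨_, rfl⟩
  have hNn : N.Normal := hN ▸ hR.normal
  have hst : ∀ {x : G}, x ∈ N → ∀ {v : V}, x • v = v → x ∈ R v := fun {x} hx {v} h =>
    hR.stab hT hact (hN ▸ hx) h
  rw [← hN]
  obtain ⟨K, hK⟩ : ∃ K : Subgroup G, K = N ⊔ Subgroup.zpowers g := ⟨_, rfl⟩
  have hNK : N ≤ K := hK ▸ le_sup_left
  rw [← hK]
  have hmem : ∀ x : K, ((x : G) : G ⧸ N) ∈ Subgroup.zpowers (g : G ⧸ N) := by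
    rintro ⟨x, hx⟩
    rw [hK] at hx
    obtain ⟨a, ha, _, ⟨n, rfl⟩, rfl⟩ := mem_sup_normal.1 hx
    refine ⟨n, ?_⟩
    show (g : G ⧸ N) ^ n = ((a * g ^ n : G) : G ⧸ N)
    rw [QuotientGroup.mk_mul, (QuotientGroup.eq_one_iff a).2 ha, one_mul]
    rfl
  let f : K →* Subgroup.zpowers (g : G ⧸ N) :=
    ((QuotientGroup.mk' N).comp (Subgroup.subtype _)).codRestrict _ hmem
  have hker : ∀ x : K, f x = 1 ↔ (x : G) ∈ N := by
    intro x
    constructor
    · intro h
      have h1 : (((x : G) : G ⧸ N)) = 1 := congrArg Subtype.val h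
      exact (QuotientGroup.eq_one_iff _).1 h1
    · intro h
      exact Subtype.ext ((QuotientGroup.eq_one_iff _).2 h)
  have hSb : ∀ v : V, (Sb f.ker v).map K.subtype ≤ R v := by
    intro v
    rintro _ ⟨x, hx, rfl⟩
    exact hst ((hker x).1 hx.2) hx.1
  refine hcrit (G := K) (V := V) (T := T) hC hM hT (fun x u v h => hact x u v h) f.ker ?_ ?_ ?_
  · exact hC.base.of_injective _ _ (QuotientGroup.kerLift f) (QuotientGroup.kerLift_injective f)
      (C_cyc hC.base _)
  · intro v u hvu x hxv hxu hx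
    have h1 : (x : G) ∈ ⁅R v, R v⁆ := by
      have h2 : (x : G) ∈ (⁅Sb f.ker v, Sb f.ker v⁆).map K.subtype := ⟨x, hx, rfl⟩
      rw [Subgroup.map_commutator] at h2
      exact Subgroup.commutator_mono (hSb v) (hSb v) h2
    exact Subtype.ext (hE v u hvu x hxu.1 h1)
  · intro v x hx
    refine hC.base.of_injective _ _ ((K.subtype.comp (Subgroup.subtype
      (Sb f.ker v ⊔ Subgroup.zpowers x))).codRestrict (MulAction.stabilizer G v) ?_) ?_ (hV v)
    · rintro ⟨z, hz⟩
      have h1 : Sb f.ker v ⊔ Subgroup.zpowers x ≤ (MulAction.stabilizer G v).comap K.subtype := by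
        refine sup_le ?_ ?_
        · rintro z ⟨hz, -⟩
          exact hz
        · rw [Subgroup.zpowers_le]
          exact hx
      exact h1 hz
    · intro a b hab
      have h1 := congrArg Subtype.val hab
      exact Subtype.ext (Subtype.ext h1)

/-- **extensions by the group generated by a family** -/
theorem step (hC : ClosedE C) (hM : ∀ (G : Type) [Group G], derivedSeries G 2 = ⊥ → C G)
    (hT : T.IsTree) (hact : ∀ (g : G) (u v : V), T.Adj u v → T.Adj (g • u) (g • v))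
    (hR : Fm T R) [(⨆ v, R v).Normal] (hQ : C (G ⧸ ⨆ v, R v))
    (hE : ∀ v u : V, T.Adj v u → ∀ x : G, x • u = u → x ∈ ⁅R v, R v⁆ → x = 1)
    (hV : ∀ v : V, C ↥(MulAction.stabilizer G v)) : C G := by
  have key := cycC hC hM hT hact hR hE hV
  refine Pool.Agent.Y529.FJ.t_ext C hC _ (⨆ v, R v) ?_ hQ fun g _ => key g
  exact C_le hC.base le_sup_left (key 1)

end Run7.h371.FJ
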