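import Pool.Agent.Run7.h371.FJ.Ac

/-!
# Products of a group in the class and a normal torsion-free abelian subgroup of rank one
-/

set_option autoImplicit false

namespace Run7.h371.FJ

open Pool.Agent.Y110.FJ
open Pool.Agent.R941.FJ (C_equiv C_le C_cyc mem_sup_normal)

variable {C : ∀ (G : Type) [Group G], Prop}

/-- the elements of `A` whose `m`-th powers are in `H` -/
def Pw {B : Type} [Group B] (A H : Subgroup B) (hab : ∀ x ∈ A, ∀ y ∈ A, x * y = y * x) (m : ℕ) :
    Subgroup B where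
  carrier := {x | x ∈ A ∧ x ^ m ∈ H}
  one_mem' := ⟨one_mem _, by rw [one_pow]; exact one_mem _⟩
  mul_mem' := by
    rintro x y ⟨hx, hx'⟩ ⟨hy, hy'⟩
    refine ⟨mul_mem hx hy, ?_⟩
    have h : Commute x y := hab x hx y hy
    rw [h.mul_pow]
    exact mul_mem hx' hy'
  inv_mem' := by
    rintro x ⟨hx, hx'⟩
    refine ⟨inv_mem hx, ?_⟩
    rw [inv_pow]
    exact inv_mem hx'

theorem mem_Pw {B : Type} [Group B] {A H : Subgroup B} {hab : ∀ x ∈ A, ∀ y ∈ A, x * y = y * x}
    {m : ℕ} {x : B} : x ∈ Pw A H hab m ↔ x ∈ A ∧ x ^ m ∈ H := Iff.rfl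

theorem Pw_finite {B : Type} [Group B] (A H : Subgroup B)
    (hab : ∀ x ∈ A, ∀ y ∈ A, x * y = y * x) (htf : ∀ x ∈ A, ∀ m : ℕ, m ≠ 0 → x ^ m = 1 → x = 1)
    (t : B) (hrk : ∀ x ∈ A, ∃ m : ℕ, m ≠ 0 ∧ x ^ m ∈ Subgroup.zpowers t) (m : ℕ) (hm : m ≠ 0) :
    Finite (Pw A H hab m ⧸ H.subgroupOf (Pw A H hab m)) := by
  classical
  obtain ⟨P, hP⟩ : ∃ P : Subgroup B, P = Pw A H hab m := ⟨_, rfl⟩
  have hmP : ∀ x, x ∈ P ↔ x ∈ A ∧ x ^ m ∈ H := fun x => by rw [hP, mem_Pw]
  rw [← hP]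
  by_contra hinf
  rw [not_finite_iff_infinite] at hinf
  obtain ⟨s, hs⟩ := Infinite.exists_subset_card_eq (P ⧸ H.subgroupOf P) (m + 1)
  have hrep : ∀ q : P ⧸ H.subgroupOf P, ∃ a : P, (QuotientGroup.mk a : P ⧸ H.subgroupOf P) = q :=
    fun q => QuotientGroup.mk_surjective q
  choose a ha using hrep
  have hex : ∃ M : ℕ, M ≠ 0 ∧ ∀ q ∈ s, (a q : B) ^ M ∈ Subgroup.zpowers t := by
    clear hs
    induction s using Finset.induction_on with
    | empty => exact ⟨1, one_ne_zero, fun q hq => absurd hq (by simp)⟩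
    | insert q s _ ih =>
      obtain ⟨M, hM, h⟩ := ih
      obtain ⟨M', hM', h'⟩ := hrk (a q) ((hmP _).1 (a q).2).1
      refine ⟨M * M', mul_ne_zero hM hM', fun q' hq' => ?_⟩
      rcases Finset.mem_insert.1 hq' with rfl | hq'
      · rw [mul_comm, pow_mul]
        exact pow_mem h' M
      · rw [pow_mul]
        exact pow_mem (h q' hq') M'
  obtain ⟨M, hM, hMs⟩ := hex
  obtain ⟨L, hL⟩ : ∃ L : Subgroup B, L = Pw A (Subgroup.zpowers t) hab M ⊓ P := ⟨_, rfl⟩
  have hLA : ∀ x ∈ L, x ∈ A ∧ x ^ M ∈ Subgroup.zpowers t ∧ x ∈ P := by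
    intro x hx
    rw [hL] at hx
    exact ⟨hx.1.1, hx.1.2, hx.2⟩
  let φ : L →* Subgroup.zpowers t :=
    { toFun := fun x => ⟨(x : B) ^ M, (hLA x x.2).2.1⟩
      map_one' := Subtype.ext (one_pow M)
      map_mul' := by
        intro x y
        have h : Commute (x : B) (y : B) := hab x (hLA x x.2).1 y (hLA y y.2).1
        exact Subtype.ext (h.mul_pow M) }
  have hφ : Function.Injective φ := by
    rw [injective_iff_map_eq_one]
    intro x hx
    have h1 : (x : B) ^ M = 1 := congrArg Subtype.val hx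
    exact Subtype.ext (htf x (hLA x x.2).1 M hM h1)
  have hcyc : IsCyclic L := isCyclic_of_injective φ hφ
  obtain ⟨c, hc⟩ := hcyc.exists_generator
  have hcm : (c : B) ^ m ∈ H := ((hmP _).1 (hLA c c.2).2.2).2
  have he : ∀ q : P ⧸ H.subgroupOf P, ∃ e : ℤ, q ∈ s → (a q : B) = (c : B) ^ e := by
    intro q
    by_cases hq : q ∈ s
    · have h1 : (a q : B) ∈ L := by
        rw [hL]
        exact ⟨⟨((hmP _).1 (a q).2).1, hMs q hq⟩, (a q).2⟩
      obtain ⟨e, he⟩ := hc ⟨_, h1⟩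
      exact ⟨e, fun _ => (congrArg Subtype.val he).symm⟩
    · exact ⟨0, fun h => absurd h hq⟩
  choose e he using he
  have hmz : (m : ℤ) ≠ 0 := by exact_mod_cast hm
  have hcard : s.card ≤ (Finset.range m).card := by
    refine Finset.card_le_card_of_injOn (fun q => (e q % m).toNat) ?_ ?_
    · intro q _
      rw [Finset.coe_range, Set.mem_Iio]
      have h1 := Int.emod_nonneg (e q) hmz
      have h2 := Int.emod_lt_of_pos (e q) (by omega : (0 : ℤ) < m)
      show (e q % m).toNat < m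
      omega
    · intro q hq q' hq' heq
      have heq : (e q % m).toNat = (e q' % m).toNat := heq
      have h1 := Int.emod_nonneg (e q) hmz
      have h1' := Int.emod_nonneg (e q') hmz
      have h2 : e q % m = e q' % m := by omega
      have h3 : (m : ℤ) ∣ e q' - e q := Int.ModEq.dvd h2
      obtain ⟨j, hj⟩ := h3
      rw [← ha q, ← ha q']
      refine QuotientGroup.eq.2 ?_
      rw [Subgroup.mem_subgroupOf]
      show (a q : B)⁻¹ * (a q' : B) ∈ H
      rw [he q hq, he q' hq', ← zpow_neg, ← zpow_add]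
      have h4 : -e q + e q' = m * j := by rw [← hj]; ring
      rw [h4, zpow_mul, zpow_natCast]
      exact zpow_mem hcm j
  rw [hs, Finset.card_range] at hcard
  omega

/-- products with a normal torsion-free abelian subgroup of rank one -/
theorem rank1 (hC : ClosedE C) {B : Type} [Group B] (A H : Subgroup B) [hA : A.Normal]
    (hAH : ∀ x : B, ∃ a ∈ A, ∃ h ∈ H, x = a * h)
    (hab : ∀ x ∈ A, ∀ y ∈ A, x * y = y * x) (htf : ∀ x ∈ A, ∀ m : ℕ, m ≠ 0 → x ^ m = 1 → x = 1)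
    (t : B) (htH : t ∈ H) (hrk : ∀ x ∈ A, ∃ m : ℕ, m ≠ 0 ∧ x ^ m ∈ Subgroup.zpowers t)
    (hH : C H) : C B := by
  have hconj : ∀ (k : ℕ), ∀ h ∈ H, ∀ x ∈ Pw A H hab k, h * x * h⁻¹ ∈ Pw A H hab k := by
    intro k h hh x hx
    refine ⟨hA.conj_mem x hx.1 h, ?_⟩
    rw [conj_pow]
    exact mul_mem (mul_mem hh hx.2) (inv_mem hh)
  have hmono : ∀ i j : ℕ, i ≤ j → Pw A H hab i.factorial ≤ Pw A H hab j.factorial := by
    intro i j hij x hx
    refine ⟨hx.1, ?_⟩
    obtain ⟨l, hl⟩ := Nat.factorial_dvd_factorial hij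
    rw [hl, pow_mul]
    exact pow_mem hx.2 l
  refine Pool.Agent.Y430.SS.of_directed hC.base B ℕ (fun i j => ⟨max i j, le_max_left _ _, le_max_right _ _⟩)
    (fun k => Pw A H hab k.factorial ⊔ H) (fun i j hij => sup_le_sup_right (hmono i j hij) _)
    (fun x => ?_) (fun k => ?_)
  · obtain ⟨a, ha, h, hh, rfl⟩ := hAH x
    obtain ⟨m, hm, hm'⟩ := hrk a ha
    have hle : Subgroup.zpowers t ≤ H := by
      rw [Subgroup.zpowers_le]
      exact htH
    refine ⟨m, mul_mem (Subgroup.mem_sup_left ⟨ha, ?_⟩) (Subgroup.mem_sup_right hh)⟩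
    obtain ⟨l, hl⟩ := Nat.dvd_factorial (Nat.pos_of_ne_zero hm) le_rfl
    rw [hl, pow_mul]
    exact pow_mem (hle hm') l
  · obtain ⟨m, hm⟩ : ∃ m, m = k.factorial := ⟨_, rfl⟩
    show C ↥(Pw A H hab k.factorial ⊔ H)
    rw [← hm]
    have hm0 : m ≠ 0 := by
      rw [hm]
      exact Nat.factorial_ne_zero k
    refine Pool.Agent.Y529.FJ.up hC.base le_sup_right ?_ hH
    have hfin := Pw_finite A H hab htf t hrk m hm0
    obtain ⟨K, hK⟩ : ∃ K : Subgroup B, K = Pw A H hab m ⊔ H := ⟨_, rfl⟩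
    have hPK : Pw A H hab m ≤ K := hK ▸ le_sup_left
    have hHK : H ≤ K := hK ▸ le_sup_right
    rw [← hK]
    have hmul : ∀ x ∈ K, ∃ a ∈ Pw A H hab m, ∃ h ∈ H, x = a * h := by
      have hle : K ≤
          { carrier := {x | ∃ a ∈ Pw A H hab m, ∃ h ∈ H, x = a * h}
            one_mem' := ⟨1, one_mem _, 1, one_mem _, (one_mul 1).symm⟩
            mul_mem' := by
              rintro _ _ ⟨a, ha, h, hh, rfl⟩ ⟨b, hb, k, hk, rfl⟩
              refine ⟨a * (h * b * h⁻¹), mul_mem ha (hconj m h hh b hb), h * k, mul_mem hh hk, ?_⟩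
              group
            inv_mem' := by
              rintro _ ⟨a, ha, h, hh, rfl⟩
              refine ⟨h⁻¹ * a⁻¹ * h⁻¹⁻¹, hconj m h⁻¹ (inv_mem hh) _ (inv_mem ha), h⁻¹, inv_mem hh, ?_⟩
              group : Subgroup B } := by
        rw [hK]
        refine sup_le ?_ ?_
        · intro a ha
          exact ⟨a, ha, 1, one_mem _, (mul_one a).symm⟩
        · intro h hh
          exact ⟨1, one_mem _, h, hh, (one_mul h).symm⟩
      exact fun x hx => hle hx
    have hfin2 : Finite (K ⧸ H.subgroupOf K) := by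
      refine Finite.of_surjective (α := Pw A H hab m ⧸ H.subgroupOf (Pw A H hab m))
        (Quotient.map' (Subgroup.inclusion hPK) ?_) ?_
      · intro x y hxy
        rw [QuotientGroup.leftRel_apply] at hxy ⊢
        exact hxy
      · intro q
        obtain ⟨⟨x, hx⟩, rfl⟩ := QuotientGroup.mk_surjective q
        obtain ⟨a, ha, h, hh, rfl⟩ := hmul x hx
        refine ⟨QuotientGroup.mk ⟨a, ha⟩, ?_⟩
        refine QuotientGroup.eq.2 ?_
        rw [Subgroup.mem_subgroupOf]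
        show a⁻¹ * (a * h) ∈ H
        rw [inv_mul_cancel_left]
        exact hh
    have h1 : (H.subgroupOf K).index ≠ 0 := Subgroup.index_ne_zero_of_finite
    exact h1

end Run7.h371.FJ
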