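import Pool.Agent.Run7.h371.FJ.Vc

/-!
# Edge groups which survive in the rational derived series of the virtual centralizer
-/

set_option autoImplicit false

namespace Run7.h371.FJ

open SimpleGraph
open Subgroup
open Subgroup.Commensurable (commensurator)
open scoped commutatorElement
open Pool.Agent.N509.TK
open Pool.Agent.Y110.FJ
open Pool.Agent.R941.FJ (C_equiv C_le C_cyc mem_sup_normal)
open Pool.Agent.N431.CE (Es Es_comm Es_smul rf rf_LR Rf Rf_gen cylF mem_Es le_comm)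

variable {C : ∀ (G : Type) [Group G], Prop}
variable {G V : Type} [Group G] [MulAction G V] {T : SimpleGraph V}

theorem Cm.mem_Vz {t x : G} {S : Subgroup G} (h : Cm t x) (hx : x ∈ S) : x ∈ Vz t S := by
  rcases h with rfl | ⟨a, b, ha, hb, h⟩
  · exact one_mem _
  · refine ⟨hx, b, hb, ?_⟩
    rw [← h]
    exact Commute.self_zpow x a

/-- an edge group which is not contained in all terms of the rational derived series of its virtual
centralizer -/
theorem Ec_of_Rd (hC : ClosedE C) (hM : ∀ (G : Type) [Group G], derivedSeries G 2 = ⊥ → C G)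
    {v u : V} {t : G} (htE : t ∈ Es G v u) (ht : Io t)
    (hi : (Subgroup.zpowers t).relIndex (Es G v u) ≠ 0)
    (hcm : ∀ w, T.Adj v w → Commensurable (Es G v w) (Es G v u) → ∀ x ∈ Es G v w, Cm t x)
    (hn : ∃ n, t ∉ Rd (Vz t (MulAction.stabilizer G v)) n) : Ec C G T v u := by
  classical
  obtain ⟨K, hKd⟩ : ∃ K : Subgroup G, K = Vz t (MulAction.stabilizer G v) := ⟨_, rfl⟩
  rw [← hKd] at hn
  have htK : t ∈ K := by
    rw [hKd]
    exact ⟨htE.1, 1, one_ne_zero, by rw [zpow_one]⟩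
  obtain ⟨n, hn1, hn2⟩ : ∃ n, t ∉ Rd K (n + 1) ∧ t ∈ Rd K n := by
    obtain ⟨n0, hn0⟩ : ∃ n0, n0 = Nat.find hn := ⟨_, rfl⟩
    have h1 : t ∉ Rd K n0 := hn0 ▸ Nat.find_spec hn
    cases n0 with
    | zero => exact absurd htK h1
    | succ m =>
      refine ⟨m, h1, ?_⟩
      by_contra h2
      have h3 := Nat.find_min' hn h2
      rw [← hn0] at h3
      omega
  obtain ⟨M, hMd⟩ : ∃ M : Subgroup G, M = Rd K n := ⟨_, rfl⟩
  rw [← hMd] at hn2
  have hCs : ∀ g ∈ Hc G v u, Cs t g := fun g hg => Cs_of_comm htE ht hi hg.2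
  have hKn : ∀ g ∈ Hc G v u, ∀ x ∈ K, g * x * g⁻¹ ∈ K := by
    intro g hg x hx
    rw [hKd] at hx ⊢
    exact Vz_conj hg.1 (hCs g hg) hx
  have hMn : ∀ g ∈ Hc G v u, ∀ x ∈ M, g * x * g⁻¹ ∈ M := by
    intro g hg
    rw [hMd]
    exact Rd_conj (hKn g hg) n
  obtain ⟨N, hN⟩ : ∃ N : Subgroup (Hc G v u), N = M.subgroupOf (Hc G v u) := ⟨_, rfl⟩
  have hmN : ∀ x : Hc G v u, x ∈ N ↔ (x : G) ∈ M := fun x => by rw [hN, Subgroup.mem_subgroupOf]
  have hNn : N.Normal := by
    refine ⟨fun x hx g => ?_⟩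
    rw [hmN] at hx ⊢
    exact hMn g g.2 x hx
  have hKf : Kf (QuotientGroup.mk' N) ≤ M := by
    rintro _ ⟨x, hx, rfl⟩
    exact (hmN x).1 ((QuotientGroup.eq_one_iff _).1 hx)
  refine ⟨Hc G v u ⧸ N, inferInstance, QuotientGroup.mk' N, ?_, ?_⟩
  · -- the quotient is solvable
    refine C_solv hC hM (n + 1) _ ?_
    have key : ∀ j, (derivedSeries (Hc G v u) (j + 1)).map (Subgroup.subtype _) ≤ Rd K j := by
      intro j
      induction j with
      | zero =>
        rw [derivedSeries_one, commutator_def, Subgroup.map_commutator, Subgroup.commutator_le]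
        rintro _ ⟨a, _, rfl⟩ _ ⟨b, _, rfl⟩
        show ⁅(a : G), (b : G)⁆ ∈ K
        rw [hKd]
        exact comm_Vz a.2.1 b.2.1 (hCs a a.2) (hCs b b.2)
      | succ j ih =>
        rw [derivedSeries_succ, Subgroup.map_commutator]
        exact (Subgroup.commutator_mono ih ih).trans (comm_le_rc _)
    rw [← map_derivedSeries_eq (QuotientGroup.mk'_surjective N), Subgroup.map_eq_bot_iff,
      QuotientGroup.ker_mk']
    intro x hx
    rw [hmN, hMd]
    exact key n ⟨x, hx, rfl⟩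
  · intro w hw hcom
    have hmem : ∀ x ∈ Es G v w, x ∈ M ∧ x ∈ Hc G v u := by
      intro x hx
      have h1 := hcm w hw hcom x hx
      have hxK : x ∈ K := by
        rw [hKd]
        exact h1.mem_Vz hx.1
      refine ⟨?_, hx.1, ?_⟩
      · rcases h1 with rfl | ⟨a, b, ha, hb, h1⟩
        · exact one_mem _
        · rw [hMd] at hn2 ⊢
          refine Rd_root' hxK ha ?_
          rw [h1]
          exact zpow_mem hn2 b
      · rw [Commensurable.eq hcom.symm]
        exact le_comm _ hx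
    refine ⟨fun x hx => ?_, ?_⟩
    · rw [mem_Kf]
      refine ⟨(hmem x hx).2, (QuotientGroup.eq_one_iff _).2 ((hmN _).2 (hmem x hx).1)⟩
    · rw [eq_bot_iff]
      rintro x ⟨hx, hxc⟩
      rw [Subgroup.mem_bot]
      have h1 : x ∈ ⁅M, M⁆ := Subgroup.commutator_mono hKf hKf hxc
      rw [hMd] at h1
      have h2 : x ∈ Rd K (n + 1) := comm_le_rc _ h1
      rcases hcm w hw hcom x hx with h3 | ⟨a, b, ha, hb, h3⟩
      · exact h3
      · exfalso
        apply hn1
        refine Rd_root' htK hb ?_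
        rw [← h3]
        exact zpow_mem h2 a

/-- elements of commensurable torsion-free groups -/
theorem Cm_of_comm {E A : Subgroup G} {t x : G}
    (hi : (Subgroup.zpowers t).relIndex E ≠ 0) (hAE : Commensurable A E) (hx : x ∈ A)
    (htf : ∀ m : ℕ, m ≠ 0 → x ^ m = 1 → x = 1) : Cm t x := by
  obtain ⟨m, hm, -, h1⟩ := Subgroup.exists_pow_mem_of_relIndex_ne_zero hAE.2 hx
  obtain ⟨n, hn, -, h2⟩ := Subgroup.exists_pow_mem_of_relIndex_ne_zero hi h1.1
  obtain ⟨j, hj⟩ := h2.1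
  have hj : t ^ j = (x ^ m) ^ n := hj
  by_cases hj0 : j = 0
  · left
    refine htf (m * n) (mul_ne_zero hm.ne' hn.ne') ?_
    rw [pow_mul, ← hj, hj0, zpow_zero]
  · right
    refine ⟨((m * n : ℕ) : ℤ), j, ?_, hj0, ?_⟩
    · exact_mod_cast mul_ne_zero hm.ne' hn.ne'
    · rw [zpow_natCast, pow_mul, hj]

theorem rc_map {H : Type} [Group H] (f : H →* G) (B : Subgroup H) : (rc B).map f ≤ rc (B.map f) := by
  rintro _ ⟨x, ⟨hx, m, hm, hx'⟩, rfl⟩
  refine ⟨⟨x, hx, rfl⟩, m, hm, ?_⟩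
  rw [← map_pow, ← Subgroup.map_commutator]
  exact ⟨_, hx', rfl⟩

theorem Rd_map {H : Type} [Group H] (f : H →* G) (B : Subgroup H) (n : ℕ) :
    (Rd B n).map f ≤ Rd (B.map f) n := by
  induction n with
  | zero => exact le_rfl
  | succ n ih => exact (rc_map f _).trans (rc_mono ih)

end Run7.h371.FJ
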