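import Pool.Agent.Run7.h371.FJ.Cy

/-!
# Virtually cyclic edge groups: sufficient conditions
-/

set_option autoImplicit false

namespace Run7.h371.FJ

open SimpleGraph
open Subgroup
open Subgroup.Commensurable (commensurator)
open scoped commutatorElement
open Pool.Agent.N509.TK
open Pool.Agent.Y110.FJ
open Pool.Agent.N509.TX (AcylF C_edge C_stab STree cyl_subtree)
open Pool.Agent.R941.FJ (C_equiv C_le C_cyc mem_sup_normal)
open Pool.Agent.N431.CE (Es Es_comm Es_smul rf rf_LR Rf Rf_gen cylF mem_Es le_comm)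

variable {C : ∀ (G : Type) [Group G], Prop}

section groups

variable {G : Type} [Group G]

/-- virtually cyclic groups (the finite groups included) -/
def Vcy (E : Subgroup G) : Prop := ∃ t ∈ E, (Subgroup.zpowers t).relIndex E ≠ 0

/-- `x` is balanced -/
def Bl (x : G) : Prop := ∀ (g : G) (m n : ℤ), m ≠ 0 → g * x ^ m * g⁻¹ = x ^ n → m.natAbs = n.natAbs

theorem relIndex_pow (t : G) {M : ℕ} (hM : M ≠ 0) :
    (Subgroup.zpowers (t ^ M)).relIndex (Subgroup.zpowers t) ≠ 0 := by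
  have hfin : Finite (Subgroup.zpowers t ⧸ (Subgroup.zpowers (t ^ M)).subgroupOf (Subgroup.zpowers t)) := by
    refine Finite.of_surjective (α := Fin M)
      (fun i => QuotientGroup.mk (⟨t ^ (i : ℕ), pow_mem (Subgroup.mem_zpowers t) _⟩ :
        Subgroup.zpowers t)) ?_
    intro q
    obtain ⟨⟨x, e, rfl⟩, rfl⟩ := QuotientGroup.mk_surjective q
    have hMz : (M : ℤ) ≠ 0 := by exact_mod_cast hM
    have h1 := Int.emod_nonneg e hMz
    have h2 := Int.emod_lt_of_pos e (by omega : (0 : ℤ) < M)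
    refine ⟨⟨(e % M).toNat, by omega⟩, ?_⟩
    refine QuotientGroup.eq.2 ?_
    rw [Subgroup.mem_subgroupOf]
    show (t ^ ((e % M).toNat))⁻¹ * t ^ e ∈ Subgroup.zpowers (t ^ M)
    have h3 : ((e % M).toNat : ℤ) = e % M := Int.toNat_of_nonneg h1
    refine ⟨e / M, ?_⟩
    show (t ^ M) ^ (e / M) = _
    rw [← zpow_natCast t ((e % M).toNat), h3, ← zpow_neg, ← zpow_add, ← zpow_natCast t M, ← zpow_mul]
    congr 1
    have h4 := Int.emod_add_mul_ediv e M
    omega
  have h1 : ((Subgroup.zpowers (t ^ M)).subgroupOf (Subgroup.zpowers t)).index ≠ 0 :=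
    Subgroup.index_ne_zero_of_finite
  exact h1

theorem relIndex_zpow (t : G) {M : ℤ} (hM : M ≠ 0) :
    (Subgroup.zpowers (t ^ M)).relIndex (Subgroup.zpowers t) ≠ 0 := by
  have h := relIndex_pow t (Int.natAbs_ne_zero.2 hM)
  rcases natAbs_zpow t M with h1 | h1
  · rwa [h1] at h
  · rwa [h1, Subgroup.zpowers_inv] at h

theorem Io.zpow {t : G} (ht : Io t) {k : ℤ} (hk : k ≠ 0) : Io (t ^ k) := by
  intro j hj
  rw [← zpow_mul]
  exact ht _ (mul_ne_zero hk hj)

theorem Io.of_zpow {t : G} {k : ℤ} (h : Io (t ^ k)) : Io t := by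
  intro j hj h1
  refine h j hj ?_
  rw [← zpow_mul, mul_comm, zpow_mul, h1, one_zpow]

/-- the infinite virtually cyclic groups -/
theorem Vcy.io {E : Subgroup G} (hE : Vcy E) (hinf : Infinite E) :
    ∃ t ∈ E, Io t ∧ (Subgroup.zpowers t).relIndex E ≠ 0 := by
  obtain ⟨t, htE, hi⟩ := hE
  refine ⟨t, htE, ?_, hi⟩
  intro k hk h1
  have hfo : IsOfFinOrder t := isOfFinOrder_iff_zpow_eq_one.2 ⟨k, hk, h1⟩
  have hfin : Finite (Subgroup.zpowers t) := (finite_zpowers.2 hfo).to_subtype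
  have h2 : (⊥ : Subgroup G).relIndex E ≠ 0 := by
    refine Subgroup.relIndex_ne_zero_trans (K := Subgroup.zpowers t) ?_ hi
    rw [Subgroup.relIndex_bot_left]
    exact Nat.card_pos.ne'
  rw [Subgroup.relIndex_bot_left] at h2
  exact h2 Nat.card_eq_zero_of_infinite

/-- all elements of infinite order generate subgroups of finite index -/
theorem Vcy.fin {E : Subgroup G} (hE : Vcy E) {x : G} (hx : x ∈ E) (hxi : Io x) :
    (Subgroup.zpowers x).relIndex E ≠ 0 := by
  obtain ⟨t, htE, hi⟩ := hE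
  obtain ⟨m, hm, -, h3⟩ := Subgroup.exists_pow_mem_of_relIndex_ne_zero hi hx
  obtain ⟨j, hj⟩ := h3.1
  have hj : t ^ j = x ^ m := hj
  have hj0 : j ≠ 0 := by
    rintro rfl
    rw [zpow_zero] at hj
    refine hxi m (by exact_mod_cast hm.ne') ?_
    rw [zpow_natCast, ← hj]
  have h4 := relIndex_zpow t hj0
  have h5 := Subgroup.relIndex_ne_zero_trans h4 hi
  rw [hj] at h5
  refine fun h0 => h5 (Subgroup.relIndex_eq_zero_of_le_left ?_ h0)
  rw [Subgroup.zpowers_le]
  exact pow_mem (Subgroup.mem_zpowers x) m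

/-- subgroups of virtually cyclic groups -/
theorem Vcy.mono {E A : Subgroup G} (hE : Vcy E) (h : A ≤ E) : Vcy A := by
  obtain ⟨t, htE, hi⟩ := hE
  have h1 : (Subgroup.zpowers t).relIndex A ≠ 0 := fun h0 =>
    hi (Subgroup.relIndex_eq_zero_of_le_right h h0)
  have h2 : IsCyclic ((Subgroup.zpowers t ⊓ A : Subgroup G)) :=
    isCyclic_of_injective (Subgroup.inclusion (inf_le_left : Subgroup.zpowers t ⊓ A ≤ _))
      (Subgroup.inclusion_injective _)
  obtain ⟨⟨s, hs⟩, hs'⟩ := h2.exists_generator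
  refine ⟨s, hs.2, ?_⟩
  have h3 : (Subgroup.zpowers t ⊓ A).relIndex A ≠ 0 := by
    rwa [Subgroup.inf_relIndex_right]
  refine fun h0 => h3 (Subgroup.relIndex_eq_zero_of_le_left ?_ h0)
  intro x hx
  obtain ⟨j, hj⟩ := hs' ⟨x, hx⟩
  exact ⟨j, congrArg Subtype.val hj⟩

theorem Vcy.of_map {H : Subgroup G} {A : Subgroup H} (h : Vcy (A.map H.subtype)) : Vcy A := by
  obtain ⟨_, ⟨t, ht, rfl⟩, hi⟩ := h
  refine ⟨t, ht, ?_⟩
  rw [← MonoidHom.map_zpowers, Subgroup.relIndex_map_map_of_injective _ _ H.subtype_injective] at hi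
  exact hi

/-- infinite subgroups of virtually cyclic groups have finite index -/
theorem Vcy.inf {E A : Subgroup G} (hE : Vcy E) (h : A ≤ E) (hA : Infinite A) :
    A.relIndex E ≠ 0 := by
  obtain ⟨t, htA, ht, -⟩ := (hE.mono h).io hA
  have h1 := hE.fin (h htA) ht
  refine fun h0 => h1 (Subgroup.relIndex_eq_zero_of_le_left ?_ h0)
  rw [Subgroup.zpowers_le]
  exact htA

/-- the finite subgroups of a virtually cyclic group are bounded -/
theorem Vcy.bound {E : Subgroup G} (hE : Vcy E) :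
    ∃ n : ℕ, ∀ A : Subgroup G, A ≤ E → Finite A → Nat.card A ≤ n := by
  by_cases hfin : Finite E
  · refine ⟨Nat.card E, fun A hA _ => ?_⟩
    exact Nat.card_le_card_of_injective (Subgroup.inclusion hA) (Subgroup.inclusion_injective hA)
  · rw [not_finite_iff_infinite] at hfin
    obtain ⟨t, htE, ht, hi⟩ := hE.io hfin
    refine ⟨(Subgroup.zpowers t).relIndex E, fun A hA hAf => ?_⟩
    have h1 : (Subgroup.zpowers t).relIndex A ≤ (Subgroup.zpowers t).relIndex E :=
      Subgroup.relIndex_le_of_le_right hA hi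
    refine le_trans (le_of_eq ?_) h1
    have h2 : Subgroup.zpowers t ⊓ A = ⊥ := by
      rw [eq_bot_iff]
      rintro x ⟨⟨j, hj⟩, hx⟩
      have hj : t ^ j = x := hj
      rw [Subgroup.mem_bot]
      by_cases hj0 : j = 0
      · rw [← hj, hj0, zpow_zero]
      · exfalso
        have h3 : IsOfFinOrder x := by
          have := isOfFinOrder_of_finite (⟨x, hx⟩ : A)
          exact (Submonoid.isOfFinOrder_coe (H := A.toSubmonoid) (x := ⟨x, hx⟩)).2 this
        obtain ⟨k, hk, h4⟩ := isOfFinOrder_iff_zpow_eq_one.1 h3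
        refine ht (j * k) (mul_ne_zero hj0 hk) ?_
        rw [zpow_mul, hj, h4]
    rw [← Subgroup.inf_relIndex_right, h2, Subgroup.relIndex_bot_left]

/-- balanced virtually cyclic groups -/
theorem Nm_of_bal (hMe : ∀ (G : Type) [Group G], derivedSeries G 2 = ⊥ → C G)
    {E : Subgroup G} {t : G} (htE : t ∈ E) (ht : Io t) (hi : (Subgroup.zpowers t).relIndex E ≠ 0)
    (hb : Bl t) : Nm C G E := by
  classical
  intro F Φ hF hΦ
  -- a common exponent for the elements of `F`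
  have h1 : ∃ M : ℕ, M ≠ 0 ∧ ∀ g ∈ F, g * t ^ M * g⁻¹ = t ^ M ∨ g * t ^ M * g⁻¹ = (t ^ M)⁻¹ := by
    clear hΦ
    induction F using Finset.induction_on with
    | empty => exact ⟨1, one_ne_zero, fun g hg => absurd hg (by simp)⟩
    | insert g F _ ih =>
      obtain ⟨M, hM, h⟩ := ih fun g hg => hF g (Finset.mem_insert_of_mem hg)
      obtain ⟨m, n, hm, hn, hmn⟩ := Cs_of_comm htE ht hi (hF g (Finset.mem_insert_self _ _))
      have habs := hb g m n hm hmn
      have hg1 : g * t ^ m.natAbs * g⁻¹ = t ^ m.natAbs ∨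
          g * t ^ m.natAbs * g⁻¹ = (t ^ m.natAbs)⁻¹ := by
        have e1 : t ^ n = t ^ m ∨ t ^ n = (t ^ m)⁻¹ := by
          rcases Int.natAbs_eq_natAbs_iff.1 habs with h2 | h2
          · left
            rw [h2]
          · right
            rw [h2, zpow_neg, inv_inv]
        rcases natAbs_zpow t m with h2 | h2
        · rw [h2, hmn]
          exact e1
        · rw [h2]
          have h3 : g * (t ^ m)⁻¹ * g⁻¹ = (g * t ^ m * g⁻¹)⁻¹ := by group
          rw [h3, hmn]
          rcases e1 with h4 | h4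
          · left
            rw [h4]
          · right
            rw [h4]
      refine ⟨M * m.natAbs, mul_ne_zero hM (Int.natAbs_ne_zero.2 hm), fun g' hg' => ?_⟩
      have key : ∀ (g' : G) (a b : ℕ), (g' * t ^ a * g'⁻¹ = t ^ a ∨ g' * t ^ a * g'⁻¹ = (t ^ a)⁻¹) →
          (g' * t ^ (a * b) * g'⁻¹ = t ^ (a * b) ∨ g' * t ^ (a * b) * g'⁻¹ = (t ^ (a * b))⁻¹) := by
        intro g' a b h5
        rw [pow_mul, ← conj_pow]
        rcases h5 with h5 | h5
        · left
          rw [h5]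
        · right
          rw [h5, inv_pow]
      rcases Finset.mem_insert.1 hg' with rfl | hg'
      · rw [mul_comm]
        exact key _ _ _ hg1
      · exact key _ _ _ (h g' hg')
  have h2 : ∃ M : ℕ, M ≠ 0 ∧ ∀ A ∈ Φ, t ^ M ∈ A := by
    clear hF h1
    induction Φ using Finset.induction_on with
    | empty => exact ⟨1, one_ne_zero, fun A hA => absurd hA (by simp)⟩
    | insert A Φ _ ih =>
      obtain ⟨M, hM, h⟩ := ih fun A hA => hΦ A (Finset.mem_insert_of_mem hA)
      obtain ⟨m, hm, h3⟩ := pow_of_comm htE (hΦ A (Finset.mem_insert_self _ _))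
      refine ⟨M * m, mul_ne_zero hM hm, fun A' hA' => ?_⟩
      rcases Finset.mem_insert.1 hA' with rfl | hA'
      · rw [mul_comm, pow_mul]
        exact pow_mem h3 M
      · rw [pow_mul]
        exact pow_mem (h A' hA') m
  obtain ⟨M, hM, hMF⟩ := h1
  obtain ⟨M', hM', hMΦ⟩ := h2
  obtain ⟨L, hL⟩ : ∃ L : ℕ, L = M * M' := ⟨_, rfl⟩
  have hL0 : L ≠ 0 := by
    rw [hL]
    exact mul_ne_zero hM hM'
  have hLF : ∀ g ∈ F, g * t ^ L * g⁻¹ = t ^ L ∨ g * t ^ L * g⁻¹ = (t ^ L)⁻¹ := by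
    intro g hg
    rw [hL, pow_mul, ← conj_pow]
    rcases hMF g hg with h5 | h5
    · left
      rw [h5]
    · right
      rw [h5, inv_pow]
  have hLΦ : ∀ A ∈ Φ, t ^ L ∈ A := by
    intro A hA
    rw [hL, mul_comm, pow_mul]
    exact pow_mem (hMΦ A hA) M
  obtain ⟨Z, hZ⟩ : ∃ Z : Subgroup G, Z = Subgroup.zpowers (t ^ L) := ⟨_, rfl⟩
  have hZE : Commensurable Z E := by
    refine ⟨?_, ?_⟩
    · rw [hZ]
      exact Subgroup.relIndex_ne_zero_trans (relIndex_pow t hL0) hi
    · have h3 : Z ≤ E := by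
        rw [hZ, Subgroup.zpowers_le]
        exact pow_mem htE L
      rw [Subgroup.relIndex_eq_one.2 h3]
      exact one_ne_zero
  have hZn : ∀ g ∈ F, ∀ z ∈ Z, g * z * g⁻¹ ∈ Z ∧ g⁻¹ * z * g ∈ Z := by
    intro g hg z hz
    rw [hZ] at hz ⊢
    obtain ⟨j, rfl⟩ := hz
    have e1 : g * (t ^ L) ^ j * g⁻¹ = (g * t ^ L * g⁻¹) ^ j := conj_zpow.symm
    have e2 : g⁻¹ * (t ^ L) ^ j * g = (g⁻¹ * t ^ L * g) ^ j := by
      have := conj_zpow (a := g⁻¹) (b := t ^ L) (i := j)
      rw [inv_inv] at this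
      exact this.symm
    have e3 : g⁻¹ * t ^ L * g = t ^ L ∨ g⁻¹ * t ^ L * g = (t ^ L)⁻¹ := by
      rcases hLF g hg with h5 | h5
      · left
        conv_lhs => rw [← h5]
        group
      · right
        have h6 : g⁻¹ * (g * t ^ L * g⁻¹) * g = t ^ L := by group
        rw [h5] at h6
        have h7 : (g⁻¹ * t ^ L * g)⁻¹ = g⁻¹ * (t ^ L)⁻¹ * g := by group
        rw [← inv_inj, h7, h6, inv_inv]
    constructor
    · show g * (t ^ L) ^ j * g⁻¹ ∈ _
      rw [e1]
      rcases hLF g hg with h5 | h5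
      · rw [h5]
        exact zpow_mem (Subgroup.mem_zpowers _) j
      · rw [h5]
        exact zpow_mem (inv_mem (Subgroup.mem_zpowers _)) j
    · show g⁻¹ * (t ^ L) ^ j * g ∈ _
      rw [e2]
      rcases e3 with h5 | h5
      · rw [h5]
        exact zpow_mem (Subgroup.mem_zpowers _) j
      · rw [h5]
        exact zpow_mem (inv_mem (Subgroup.mem_zpowers _)) j
  refine ⟨Z, fun A hA => ⟨?_, ?_⟩, hZn, fun g hg => ?_⟩
  · rw [hZ, Subgroup.zpowers_le]
    exact hLΦ A hA
  · exact (hZE.trans (hΦ A hA).symm).1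
  · -- `Z ⟨g⟩` is metabelian
    have hnorm : Subgroup.closure (F : Set G) ≤ Subgroup.normalizer (Z : Set G) := by
      rw [Subgroup.closure_le]
      intro g hg
      rw [SetLike.mem_coe, Subgroup.mem_normalizer_iff]
      intro z
      constructor
      · exact fun hz => (hZn g hg z hz).1
      · intro hz
        have h2 := (hZn g hg _ hz).2
        have h3 : g⁻¹ * (g * z * g⁻¹) * g = z := by group
        rwa [h3] at h2
    have hgn := hnorm hg
    obtain ⟨K, hK⟩ : ∃ K : Subgroup G, K = Z ⊔ Subgroup.zpowers g := ⟨_, rfl⟩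
    rw [← hK]
    have hZK : Z ≤ K := hK ▸ le_sup_left
    have hgK : g ∈ K := by
      rw [hK]
      exact Subgroup.mem_sup_right (Subgroup.mem_zpowers g)
    have hKn : K ≤ Subgroup.normalizer (Z : Set G) := by
      rw [hK]
      refine sup_le Subgroup.le_normalizer ?_
      rw [Subgroup.zpowers_le]
      exact hgn
    obtain ⟨N, hN⟩ : ∃ N : Subgroup K, N = Z.subgroupOf K := ⟨_, rfl⟩
    have hNn : N.Normal := by
      refine ⟨fun x hx k => ?_⟩
      rw [hN, Subgroup.mem_subgroupOf] at hx ⊢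
      exact (Subgroup.mem_normalizer_iff.1 (hKn k.2) _).1 hx
    have htop : N ⊔ Subgroup.zpowers (⟨g, hgK⟩ : K) = ⊤ := by
      apply Subgroup.map_injective K.subtype_injective
      rw [Subgroup.map_sup, MonoidHom.map_zpowers, hN, Subgroup.subgroupOf_map_subtype,
        ← MonoidHom.range_eq_map, Subgroup.range_subtype, inf_eq_left.2 hZK]
      exact hK.symm
    refine hMe _ (metab N ?_ ?_)
    · intro x hx y hy
      rw [hN, Subgroup.mem_subgroupOf, hZ] at hx hy
      obtain ⟨i, hi⟩ := hx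
      obtain ⟨j, hj⟩ := hy
      refine Subtype.ext ?_
      show (x : G) * (y : G) = (y : G) * (x : G)
      rw [← hi, ← hj]
      exact Commute.zpow_zpow_self _ _ _
    · intro x y
      have hx : x ∈ N ⊔ Subgroup.zpowers (⟨g, hgK⟩ : K) := by rw [htop]; exact Subgroup.mem_top x
      have hy : y ∈ N ⊔ Subgroup.zpowers (⟨g, hgK⟩ : K) := by rw [htop]; exact Subgroup.mem_top y
      obtain ⟨a, ha, _, ⟨i, rfl⟩, rfl⟩ := mem_sup_normal.1 hx
      obtain ⟨b, hb', _, ⟨j, rfl⟩, rfl⟩ := mem_sup_normal.1 hy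
      rw [← QuotientGroup.eq_one_iff]
      have h1 : ((⁅a * (⟨g, hgK⟩ : K) ^ i, b * (⟨g, hgK⟩ : K) ^ j⁆ : K) : K ⧸ N) =
          ⁅((a * (⟨g, hgK⟩ : K) ^ i : K) : K ⧸ N), ((b * (⟨g, hgK⟩ : K) ^ j : K) : K ⧸ N)⁆ := rfl
      show ((⁅a * (⟨g, hgK⟩ : K) ^ i, b * (⟨g, hgK⟩ : K) ^ j⁆ : K) : K ⧸ N) = 1
      rw [h1, QuotientGroup.mk_mul, (QuotientGroup.eq_one_iff a).2 ha, QuotientGroup.mk_mul,
        (QuotientGroup.eq_one_iff b).2 hb', one_mul, one_mul, commutatorElement_eq_one_iff_mul_comm]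
      show (((⟨g, hgK⟩ : K) : K ⧸ N)) ^ i * (((⟨g, hgK⟩ : K) : K ⧸ N)) ^ j = _
      rw [← zpow_add, add_comm, zpow_add]
      rfl

end groups

end Run7.h371.FJ
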